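import Pool.Agent.H91.HQ.LPa

set_option autoImplicit false

/-!
Row ACa (project MP_259062_HQ): all periods of a non constant function of class `LP` lie on one line.

PROOF. Case 1: there is a period `v0 ≠ 0`. Put `l y = v0.1 * y.2 - v0.2 * y.1` (linear). If `w` is a period and `l w ≠ 0`, then
`period_cases` (with `v = v0`) gives `h x = h 0` for all `x`, so `h` is constant: contradiction. If `l (e i) = 0 = l (e j)`, both
`e i` and `e j` are multiples of `v0` (`v0.1 * y.2 = v0.2 * y.1` with `v0 ≠ 0`: if `v0.1 ≠ 0` then `y = (y.1/v0.1) v0`, if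
`v0.2 ≠ 0` then `y = (y.2/v0.2) v0`), so `(e i).1 * (e j).2 - (e i).2 * (e j).1 = 0` and `i = j` by `hpar`.
Case 2: every period is `0`. Take `l y = y.1`; `l (e i) = l (e j) = 0` gives the same conclusion.
-/

namespace Pool.H91.HQ

universe u

theorem per_fun {F : Type u} [Field F] [CharZero F] {m : ℕ} (e : Fin m → F × F)
    (hpar : ∀ i j, i ≠ j → (e i).1 * (e j).2 - (e i).2 * (e j).1 ≠ 0) (h : F × F → F) (hl : LP h)
    (hnc : ¬ ∃ c, ∀ x, h x = c) :
    ∃ l : (F × F) →ₗ[F] F, (∀ v, (∀ x, h (x + v) = h x) → l v = 0) ∧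
      ∀ i j, l (e i) = 0 → l (e j) = 0 → i = j := by
  by_cases hv : ∃ v0 : F × F, v0 ≠ 0 ∧ ∀ x, h (x + v0) = h x
  · obtain ⟨v0, hv0, hp⟩ := hv
    refine ⟨v0.1 • LinearMap.snd F F F - v0.2 • LinearMap.fst F F F, fun w hw => ?_,
      fun i j hi hj => ?_⟩
    · by_contra hne
      have hne' : v0.1 * w.2 - v0.2 * w.1 ≠ 0 := hne
      exact hnc ⟨h 0, fun x => period_cases hl v0 w hp hw hne' x⟩
    · have hi' : v0.1 * (e i).2 - v0.2 * (e i).1 = 0 := hi
      have hj' : v0.1 * (e j).2 - v0.2 * (e j).1 = 0 := hj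
      by_contra hij
      have hne := hpar i j hij
      apply hne
      by_cases h1 : v0.1 = 0
      · have h2 : v0.2 ≠ 0 := fun h2 => hv0 (Prod.ext h1 h2)
        have h3 : v0.2 * ((e i).1 * (e j).2 - (e i).2 * (e j).1) = 0 := by
          linear_combination (e i).2 * hj' - (e j).2 * hi'
        exact (mul_eq_zero.1 h3).resolve_left h2
      · have h3 : v0.1 * ((e i).1 * (e j).2 - (e i).2 * (e j).1) = 0 := by
          linear_combination (e i).1 * hj' - (e j).1 * hi'
        exact (mul_eq_zero.1 h3).resolve_left h1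
  · refine ⟨LinearMap.fst F F F, fun v hp => ?_, fun i j hi hj => ?_⟩
    · have h0 : v = 0 := by
        by_contra hne
        exact hv ⟨v, hne, hp⟩
      rw [h0, map_zero]
    · have hi' : (e i).1 = 0 := hi
      have hj' : (e j).1 = 0 := hj
      by_contra hij
      apply hpar i j hij
      rw [hi', hj']
      ring

end Pool.H91.HQ
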