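import Mathlib

set_option autoImplicit false

/-!
Row ACb (project MP_259062_HQ): Cauchy-Schwarz over a split of a finite set.

PROOF. Subsets `W` of `U = A ∪ B` (`A`, `B` disjoint) are the unions `W1 ∪ W2` with `W1 ⊆ A`, `W2 ⊆ B`, uniquely, so the count is
`T = sum over W2 ⊆ B of t W2`, `t W2 = #{W1 ⊆ A | P (W1 ∪ W2)}`. `T^2 ≤ 2^#B * sum over W2 of (t W2)^2`
(`sq_sum_le_card_mul_sum_sq` or `inner_mul_le_norm_mul_norm`), and `sum over W2 of (t W2)^2 =
sum over pairs (W1, W1') of #{W2 ⊆ B | P (W1 ∪ W2) and P (W1' ∪ W2)}` (double counting).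
-/

namespace Pool.H91.HQ

open Classical in
theorem acb_count {ι : Type} [DecidableEq ι] (A B : Finset ι) (hAB : Disjoint A B)
    (P : Finset ι → Prop) :
    ((((A ∪ B).powerset.filter P).card : ℕ) : ℝ) =
      ∑ W2 ∈ B.powerset, ∑ W1 ∈ A.powerset, (if P (W1 ∪ W2) then (1 : ℝ) else 0) := by
  rw [Finset.card_filter, Nat.cast_sum, ← Finset.sum_product' B.powerset A.powerset
    (fun W2 W1 => (if P (W1 ∪ W2) then (1 : ℝ) else 0))]
  refine Finset.sum_bij' (fun W _ => (W ∩ B, W ∩ A)) (fun x _ => x.2 ∪ x.1) ?_ ?_ ?_ ?_ ?_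
  · intro W _
    rw [Finset.mem_product, Finset.mem_powerset, Finset.mem_powerset]
    exact ⟨Finset.inter_subset_right, Finset.inter_subset_right⟩
  · intro x hx
    rw [Finset.mem_product, Finset.mem_powerset, Finset.mem_powerset] at hx
    rw [Finset.mem_powerset]
    exact Finset.union_subset_union hx.2 hx.1
  · intro W hW
    rw [Finset.mem_powerset] at hW
    rw [← Finset.inter_union_distrib_left]
    exact Finset.inter_eq_left.2 hW
  · intro x hx
    rw [Finset.mem_product, Finset.mem_powerset, Finset.mem_powerset] at hx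
    have h1 : x.2 ∩ B = ∅ := Finset.disjoint_iff_inter_eq_empty.1
      (Finset.disjoint_of_subset_left hx.2 hAB)
    have h2 : x.1 ∩ A = ∅ := Finset.disjoint_iff_inter_eq_empty.1
      (Finset.disjoint_of_subset_left hx.1 hAB.symm)
    refine Prod.ext ?_ ?_
    · show (x.2 ∪ x.1) ∩ B = x.1
      rw [Finset.union_inter_distrib_right, h1, Finset.empty_union]
      exact Finset.inter_eq_left.2 hx.1
    · show (x.2 ∪ x.1) ∩ A = x.2
      rw [Finset.union_inter_distrib_right, h2, Finset.union_empty]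
      exact Finset.inter_eq_left.2 hx.2
  · intro W hW
    rw [Finset.mem_powerset] at hW
    show ((if P W then 1 else 0 : ℕ) : ℝ) = if P (W ∩ A ∪ W ∩ B) then (1 : ℝ) else 0
    rw [← Finset.inter_union_distrib_left, Finset.inter_eq_left.2 hW]
    split_ifs
    · exact Nat.cast_one
    · exact Nat.cast_zero

open Classical in
theorem cs_split {ι : Type} [DecidableEq ι] (A B : Finset ι) (hAB : Disjoint A B)
    (P : Finset ι → Prop) :
    ((((A ∪ B).powerset.filter P).card : ℕ) : ℝ) ^ 2 ≤ 2 ^ B.card *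
      ∑ W1 ∈ A.powerset, ∑ W1' ∈ A.powerset,
        (((B.powerset.filter (fun W2 => P (W1 ∪ W2) ∧ P (W1' ∪ W2))).card : ℕ) : ℝ) := by
  rw [acb_count A B hAB P]
  refine (sq_sum_le_card_mul_sum_sq).trans ?_
  rw [Finset.card_powerset, Nat.cast_pow, Nat.cast_ofNat]
  refine mul_le_mul_of_nonneg_left (le_of_eq ?_) (by positivity)
  have h1 : ∀ W1 ∈ A.powerset, ∀ W1' ∈ A.powerset,
      (((B.powerset.filter (fun W2 => P (W1 ∪ W2) ∧ P (W1' ∪ W2))).card : ℕ) : ℝ) =
      ∑ W2 ∈ B.powerset, (if P (W1 ∪ W2) then (1 : ℝ) else 0) *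
        (if P (W1' ∪ W2) then (1 : ℝ) else 0) := by
    intro W1 _ W1' _
    rw [Finset.card_filter, Nat.cast_sum]
    refine Finset.sum_congr rfl fun W2 _ => ?_
    by_cases hP : P (W1 ∪ W2) <;> by_cases hQ : P (W1' ∪ W2) <;> simp [hP, hQ]
  rw [Finset.sum_congr rfl fun W1 hW1 => Finset.sum_congr rfl fun W1' hW1' => h1 W1 hW1 W1' hW1']
  have h2 : ∀ W2 ∈ B.powerset, (∑ W1 ∈ A.powerset, (if P (W1 ∪ W2) then (1 : ℝ) else 0)) ^ 2 =
      ∑ W1 ∈ A.powerset, ∑ W1' ∈ A.powerset, (if P (W1 ∪ W2) then (1 : ℝ) else 0) *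
        (if P (W1' ∪ W2) then (1 : ℝ) else 0) := by
    intro W2 _
    rw [sq, Finset.sum_mul_sum]
  rw [Finset.sum_congr rfl h2, Finset.sum_comm]
  refine Finset.sum_congr rfl fun W1 _ => ?_
  rw [Finset.sum_comm]

end Pool.H91.HQ
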