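import Pool.Agent.H91.HQ.Defs

set_option autoImplicit false

/-!
Row PFa (project MP_259062_HQ): closure properties of the class `PF g` of functions of difference degree at most `g`.

PROOF. All by induction on the degree, everything is elementary.
* `pf_congr`: `PF` only depends on the function (funext).
* `pf_mono`: `g = 0`: constant `h`, the difference is the constant `0`. Step: by induction.
* `pf_shift`: `PF g h → PF g (fun y => h (p + y))`: `g = 0` clear; step: the difference of the shifted function with parameters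
  `(q, q')` is the difference of `h` with parameters `(p + q, p + q')`.
* `pf_add`, `pf_sub`, `pf_cmul` (constant multiple): induction on `g`.
* `pf_mul`: `PF a h1 → PF b h2 → PF (a + b) (h1 * h2)`: induction on `a + b`. If `a = 0` or `b = 0` it is `pf_cmul`. Otherwise the
  difference is `h1 (p+y) * (h2 (p+y) - h2 (q+y)) + (h1 (p+y) - h1 (q+y)) * h2 (q+y)`, a sum of products of degrees
  `a + (b-1)` and `(a-1) + b`; use `pf_shift` for the undifferenced factors.
* `pf_fst`, `pf_snd`: the difference is the constant `p.1 - q.1`.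
* `pf_pow`: `PF 1 h → PF n (h^n)` by induction from `pf_mul`.
* `pf_poly`: `x.1^α * x.2^β` is in `PF (α + β)`, so in `PF (2 E)`; finite sums and constant multiples.
-/

namespace Pool.H91.HQ

universe u

variable {F : Type u} [Field F]

theorem pfa_congr {g : ℕ} {h h' : F × F → F} (hh : PF g h) (e : ∀ x, h x = h' x) : PF g h' := by
  have : h = h' := funext e
  rwa [← this]

theorem pf_mono {g : ℕ} {h : F × F → F} (hh : PF g h) : PF (g + 1) h := by
  induction g generalizing h with
  | zero =>
    obtain ⟨c, hc⟩ := hh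
    intro p q
    exact ⟨0, fun x => by simp only [hc, sub_self]⟩
  | succ g ih =>
    intro p q
    exact ih (hh p q)

theorem pfa_mono_le {a b : ℕ} (hab : a ≤ b) {h : F × F → F} (hh : PF a h) : PF b h := by
  induction b, hab using Nat.le_induction with
  | base => exact hh
  | succ n _ ih => exact pf_mono ih

theorem pf_shift {g : ℕ} {h : F × F → F} (hh : PF g h) (p : F × F) : PF g (fun y => h (p + y)) := by
  induction g generalizing h p with
  | zero =>
    obtain ⟨c, hc⟩ := hh
    exact ⟨c, fun x => hc _⟩
  | succ g ih =>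
    intro q q'
    refine pfa_congr (hh (p + q) (p + q')) fun y => ?_
    rw [add_assoc, add_assoc]

theorem pf_add {g : ℕ} {h1 h2 : F × F → F} (hh1 : PF g h1) (hh2 : PF g h2) :
    PF g (fun y => h1 y + h2 y) := by
  induction g generalizing h1 h2 with
  | zero =>
    obtain ⟨c, hc⟩ := hh1
    obtain ⟨d, hd⟩ := hh2
    exact ⟨c + d, fun x => by simp only [hc, hd]⟩
  | succ g ih =>
    intro p q
    refine pfa_congr (ih (hh1 p q) (hh2 p q)) fun y => ?_
    ring

theorem pf_cmul {g : ℕ} {h : F × F → F} (hh : PF g h) (c : F) : PF g (fun y => c * h y) := by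
  induction g generalizing h with
  | zero =>
    obtain ⟨d, hd⟩ := hh
    exact ⟨c * d, fun x => by simp only [hd]⟩
  | succ g ih =>
    intro p q
    refine pfa_congr (ih (hh p q)) fun y => ?_
    ring

theorem pfa_mul (n : ℕ) : ∀ (a b : ℕ) (h1 h2 : F × F → F), a + b = n → PF a h1 → PF b h2 →
    PF n (fun y => h1 y * h2 y) := by
  induction n with
  | zero =>
    intro a b h1 h2 hab hh1 hh2
    obtain ⟨rfl, rfl⟩ : a = 0 ∧ b = 0 := by omega
    obtain ⟨c, hc⟩ := hh1
    obtain ⟨d, hd⟩ := hh2
    exact ⟨c * d, fun x => by simp only [hc, hd]⟩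
  | succ n ih =>
    intro a b h1 h2 hab hh1 hh2
    rcases a with _ | a
    · obtain ⟨c, hc⟩ := hh1
      have hb : b = n + 1 := by omega
      subst hb
      refine pfa_congr (pf_cmul hh2 c) fun y => ?_
      rw [hc]
    · rcases b with _ | b
      · obtain ⟨c, hc⟩ := hh2
        have ha : a = n := by omega
        subst ha
        refine pfa_congr (pf_cmul hh1 c) fun y => ?_
        rw [hc, mul_comm]
      · intro p q
        have e1 := ih (a + 1) b (fun y => h1 (p + y)) (fun y => h2 (p + y) - h2 (q + y)) (by omega)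
          (pf_shift hh1 p) (hh2 p q)
        have e2 := ih a (b + 1) (fun y => h1 (p + y) - h1 (q + y)) (fun y => h2 (q + y)) (by omega)
          (hh1 p q) (pf_shift hh2 q)
        refine pfa_congr (pf_add e1 e2) fun y => ?_
        ring

theorem pf_mul {a b : ℕ} {h1 h2 : F × F → F} (hh1 : PF a h1) (hh2 : PF b h2) :
    PF (a + b) (fun y => h1 y * h2 y) := pfa_mul (a + b) a b h1 h2 rfl hh1 hh2

theorem pfa_pow {h : F × F → F} (hh : PF 1 h) (n : ℕ) : PF n (fun y => h y ^ n) := by
  induction n with
  | zero => exact ⟨1, fun x => pow_zero _⟩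
  | succ n ih =>
    refine pfa_congr (pf_mul ih hh) fun y => ?_
    rw [pow_succ]

theorem pfa_sum {α : Type*} (s : Finset α) (g : ℕ) (f : α → F × F → F) (hf : ∀ i ∈ s, PF g (f i)) :
    PF g (fun y => ∑ i ∈ s, f i y) := by
  classical
  induction s using Finset.induction_on with
  | empty =>
    have h0 : PF 0 (fun _ : F × F => (0 : F)) := ⟨0, fun _ => rfl⟩
    refine pfa_congr (pfa_mono_le (Nat.zero_le g) h0) fun y => ?_
    simp
  | insert a s ha ih =>
    refine pfa_congr (pf_add (hf a (Finset.mem_insert_self a s))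
      (ih fun i hi => hf i (Finset.mem_insert_of_mem hi))) fun y => ?_
    rw [Finset.sum_insert ha]

theorem pf_poly (E : ℕ) (G : Fin E → Fin E → F) :
    PF (2 * E) (fun x : F × F => ∑ i : Fin E, ∑ j : Fin E, G i j * x.1 ^ (i : ℕ) * x.2 ^ (j : ℕ)) := by
  have h1 : PF 1 (fun x : F × F => x.1) := by
    intro p q
    exact ⟨p.1 - q.1, fun x => by simp⟩
  have h2 : PF 1 (fun x : F × F => x.2) := by
    intro p q
    exact ⟨p.2 - q.2, fun x => by simp⟩
  refine pfa_sum _ _ _ fun i _ => pfa_sum _ _ _ fun j _ => ?_
  have hij : (i : ℕ) + (j : ℕ) ≤ 2 * E := by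
    have := i.2
    have := j.2
    omega
  refine pfa_congr (pfa_mono_le hij (pf_cmul (pf_mul (pfa_pow h1 i) (pfa_pow h2 j)) (G i j)))
    fun y => ?_
  ring

end Pool.H91.HQ
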