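import Pool.Agent.H91.HQ.LU
import Pool.Agent.H91.HQ.PFa
import Pool.Agent.H91.HQ.ACa
import Pool.Agent.H91.HQ.ACb

set_option autoImplicit false

/-!
Row AC (project MP_259062_HQ): anti-concentration of subset sums on plane curves.

PROOF. Induction on `g` (for all `ε`). `g = 0`: `h` is a nonzero constant, the filter is empty, `L = 0`.
Step `g → g + 1`, given `ε`: `ε1 := ε^2/2`, `L1` from the induction hypothesis for `(g, ε1)`, `h0 : ℕ` with `1 ≤ ε1^2 * h0`,
`L := 2 * (L1 + h0 + 1)`. Let `#U ≥ L`. If `h` is constant it is a nonzero constant and the filter is empty. Otherwise take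
`A ⊆ U` with `#A = h0 + 1` (`Finset.exists_subset_card_eq`) and `B = U \ A`, so `#B ≥ L1`, `#A + #B = #U`.
`cs_split` with `P W = (h (v + sum over W of e) = 0)`; `A ∪ B = U`. For `W1, W1' ⊆ A` put `p = v + sum W1`, `q = v + sum W1'`,
`k y = h (p + y) - h (q + y)`: `PF g k` (definition of `PF (g+1)`), `LP k` (`lp_diff`). If `W2 ⊆ B` then
`sum over W1 ∪ W2 = sum W1 + sum W2` (disjoint), so both conditions imply `k (0 + sum W2) = 0`.
 * If `k` is not identically `0`: by the induction hypothesis (with `v := 0`) the number of `W2` is `≤ ε1 2^#B`.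
 * If `k = 0` identically, then `D = sum W1' - sum W1` is a period: `h (x + D) = h x` (take `y = x - p`... : `h (p+y) = h (q+y)`
   with `y = x - p`, `q + y = x + (q - p)`). With `l` from `per_fun`: `l (sum W1') = l (sum W1)`. For fixed `W1` the number of such
   `W1' ⊆ A` is `≤ ε1 2^#A` by `lu` in `E = F` over `K = F`, `g i = l (e i)`, `U := A`, `S := {i ∈ A | l (e i) ≠ 0}`,
   `#S ≥ #A - 1 = h0`. Here use the trivial bound `2^#B` for the number of `W2`.
Total: `sum ≤ 4^#A ε1 2^#B + 2^#A (ε1 2^#A) 2^#B = ε^2 4^#A 2^#B`, so `count^2 ≤ ε^2 4^#U`, `count ≤ ε 2^#U`.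
-/

namespace Pool.H91.HQ

universe u

open Classical in
theorem ac (g : ℕ) (ε : ℝ) (hε : 0 < ε) : ∃ L : ℕ, ∀ {F : Type u} [Field F] [CharZero F] {m : ℕ}
    (e : Fin m → F × F), (∀ i j, i ≠ j → (e i).1 * (e j).2 - (e i).2 * (e j).1 ≠ 0) →
    ∀ U : Finset (Fin m), L ≤ U.card → ∀ h : F × F → F, PF g h → LP h → (∃ x, h x ≠ 0) → ∀ v : F × F,
    (((U.powerset.filter (fun W => h (v + ∑ i ∈ W, e i) = 0)).card : ℕ) : ℝ) ≤ ε * 2 ^ U.card := by
  induction g generalizing ε with
  | zero =>
    refine ⟨0, ?_⟩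
    intro F _ _ m e hpar U hU h hpf hlp hne v
    obtain ⟨c, hc⟩ := hpf
    obtain ⟨x, hx⟩ := hne
    have hc0 : c ≠ 0 := by rw [← hc x]; exact hx
    have e1 : U.powerset.filter (fun W => h (v + ∑ i ∈ W, e i) = 0) = ∅ := by
      refine Finset.filter_false_of_mem (fun W _ => ?_)
      rw [hc]
      exact hc0
    rw [e1, Finset.card_empty, Nat.cast_zero]
    positivity
  | succ g ih =>
    have hε1 : 0 < ε ^ 2 / 2 := by positivity
    obtain ⟨L1, hL1⟩ := ih (ε ^ 2 / 2) hε1
    obtain ⟨h0, hh0⟩ : ∃ h0 : ℕ, 1 ≤ (ε ^ 2 / 2) ^ 2 * (h0 : ℝ) := by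
      obtain ⟨n, hn⟩ := exists_nat_ge (((ε ^ 2 / 2) ^ 2)⁻¹)
      refine ⟨n, ?_⟩
      have h1 : (ε ^ 2 / 2) ^ 2 * ((ε ^ 2 / 2) ^ 2)⁻¹ = 1 := by
        rw [mul_inv_cancel₀]; positivity
      calc (1 : ℝ) = (ε ^ 2 / 2) ^ 2 * ((ε ^ 2 / 2) ^ 2)⁻¹ := h1.symm
        _ ≤ _ := mul_le_mul_of_nonneg_left hn (by positivity)
    refine ⟨L1 + h0 + 1, ?_⟩
    intro F _ _ m e hpar U hU h hpf hlp hne v
    by_cases hc : ∃ c, ∀ x, h x = c
    · obtain ⟨c, hc⟩ := hc
      obtain ⟨x, hx⟩ := hne
      have hc0 : c ≠ 0 := by rw [← hc x]; exact hx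
      have e1 : U.powerset.filter (fun W => h (v + ∑ i ∈ W, e i) = 0) = ∅ := by
        refine Finset.filter_false_of_mem (fun W _ => ?_)
        rw [hc]
        exact hc0
      rw [e1, Finset.card_empty, Nat.cast_zero]
      positivity
    · obtain ⟨l, hl1, hl2⟩ := per_fun e hpar h hlp hc
      obtain ⟨A, hAU, hAc⟩ := Finset.exists_subset_card_eq (show h0 + 1 ≤ U.card by omega)
      set B := U \ A with hB
      have hdis : Disjoint A B := Finset.disjoint_sdiff
      have hUAB : A ∪ B = U := Finset.union_sdiff_of_subset hAU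
      have hcard : A.card + B.card = U.card := by
        rw [← Finset.card_union_of_disjoint hdis, hUAB]
      have hBL : L1 ≤ B.card := by omega
      have hcs := cs_split A B hdis (fun W => h (v + ∑ i ∈ W, e i) = 0)
      rw [hUAB] at hcs
      -- the sum over unions
      have hsum : ∀ W1 ∈ A.powerset, ∀ W2 ∈ B.powerset,
          ∑ i ∈ W1 ∪ W2, e i = ∑ i ∈ W1, e i + ∑ i ∈ W2, e i := by
        intro W1 h1 W2 h2
        exact Finset.sum_union (Finset.disjoint_of_subset_left (Finset.mem_powerset.mp h1)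
          (Finset.disjoint_of_subset_right (Finset.mem_powerset.mp h2) hdis))
      have hterm : ∀ W1 ∈ A.powerset, ∀ W1' ∈ A.powerset,
          (((B.powerset.filter (fun W2 => (fun W => h (v + ∑ i ∈ W, e i) = 0) (W1 ∪ W2) ∧
            (fun W => h (v + ∑ i ∈ W, e i) = 0) (W1' ∪ W2))).card : ℕ) : ℝ) ≤
          (if ∑ i ∈ W1', l (e i) = ∑ i ∈ W1, l (e i) then (2 : ℝ) ^ B.card else 0) +
            (ε ^ 2 / 2) * 2 ^ B.card := by
        intro W1 h1 W1' h1'
        set p := v + ∑ i ∈ W1, e i with hp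
        set q := v + ∑ i ∈ W1', e i with hq
        by_cases hk : ∃ x, h (p + x) - h (q + x) ≠ 0
        · have h3 := hL1 e hpar B hBL (fun y => h (p + y) - h (q + y)) (hpf p q)
            (lp_diff hlp p q) hk 0
          have h4 : (((B.powerset.filter (fun W2 => (fun W => h (v + ∑ i ∈ W, e i) = 0) (W1 ∪ W2) ∧
              (fun W => h (v + ∑ i ∈ W, e i) = 0) (W1' ∪ W2))).card : ℕ) : ℝ) ≤
              (((B.powerset.filter (fun W => (fun y => h (p + y) - h (q + y))
                (0 + ∑ i ∈ W, e i) = 0)).card : ℕ) : ℝ) := by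
            refine Nat.cast_le.mpr (Finset.card_le_card (fun W2 hW2 => ?_))
            rw [Finset.mem_filter] at hW2 ⊢
            refine ⟨hW2.1, ?_⟩
            have h5 := hW2.2.1
            have h6 := hW2.2.2
            simp only at h5 h6 ⊢
            rw [hsum W1 h1 W2 hW2.1, ← add_assoc, ← hp] at h5
            rw [hsum W1' h1' W2 hW2.1, ← add_assoc, ← hq] at h6
            rw [zero_add, h5, h6, sub_zero]
          have h5 : (0 : ℝ) ≤ (if ∑ i ∈ W1', l (e i) = ∑ i ∈ W1, l (e i)
              then (2 : ℝ) ^ B.card else 0) := by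
            split_ifs <;> positivity
          linarith
        · push Not at hk
          have hper : ∀ x, h (x + (q - p)) = h x := by
            intro x
            have h3 := hk (x - p)
            rw [show p + (x - p) = x by abel, show q + (x - p) = x + (q - p) by abel] at h3
            exact (sub_eq_zero.mp h3).symm
          have h3 := hl1 _ hper
          have h4 : ∑ i ∈ W1', l (e i) = ∑ i ∈ W1, l (e i) := by
            have h5 : q - p = ∑ i ∈ W1', e i - ∑ i ∈ W1, e i := by
              rw [hp, hq]; abel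
            rw [h5, map_sub, map_sum, map_sum] at h3
            exact sub_eq_zero.mp h3
          rw [if_pos h4]
          have h5 : (((B.powerset.filter (fun W2 => (fun W => h (v + ∑ i ∈ W, e i) = 0) (W1 ∪ W2) ∧
              (fun W => h (v + ∑ i ∈ W, e i) = 0) (W1' ∪ W2))).card : ℕ) : ℝ) ≤
              (2 : ℝ) ^ B.card := by
            have h6 := Finset.card_filter_le B.powerset
              (fun W2 => (fun W => h (v + ∑ i ∈ W, e i) = 0) (W1 ∪ W2) ∧
              (fun W => h (v + ∑ i ∈ W, e i) = 0) (W1' ∪ W2))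
            rw [Finset.card_powerset] at h6
            calc _ ≤ ((2 ^ B.card : ℕ) : ℝ) := Nat.cast_le.mpr h6
              _ = _ := by push_cast; rfl
          have h6 : 0 ≤ (ε ^ 2 / 2) * (2 : ℝ) ^ B.card := by positivity
          linarith
      -- number of W1'
      have hS : h0 ≤ (A.filter (fun i => l (e i) ≠ 0)).card := by
        have h1 := Finset.card_filter_add_card_filter_not (s := A) (fun i => l (e i) ≠ 0)
        have h2 : (A.filter (fun i => ¬ l (e i) ≠ 0)).card ≤ 1 := by
          rw [Finset.card_le_one]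
          intro a ha b hb
          rw [Finset.mem_filter, not_not] at ha hb
          exact hl2 a b ha.2 hb.2
        omega
      have hlu : ∀ W1 ∈ A.powerset, ((((A.powerset.filter
          (fun W1' => ∑ i ∈ W1', l (e i) = ∑ i ∈ W1, l (e i))).card : ℕ) : ℝ)) ≤
          (ε ^ 2 / 2) * 2 ^ A.card := by
        intro W1 _
        refine lu (K := F) (fun i => l (e i)) A (A.filter (fun i => l (e i) ≠ 0))
          (Finset.filter_subset _ _) (fun i hi => (Finset.mem_filter.mp hi).2) _ _ hε1 ?_
        refine hh0.trans (mul_le_mul_of_nonneg_left (Nat.cast_le.mpr hS) (by positivity))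
      have hrow : ∀ W1 ∈ A.powerset, ∑ W1' ∈ A.powerset,
          (((B.powerset.filter (fun W2 => (fun W => h (v + ∑ i ∈ W, e i) = 0) (W1 ∪ W2) ∧
            (fun W => h (v + ∑ i ∈ W, e i) = 0) (W1' ∪ W2))).card : ℕ) : ℝ) ≤
          ε ^ 2 * (2 ^ A.card * 2 ^ B.card) := by
        intro W1 h1
        refine (Finset.sum_le_sum (fun W1' h1' => hterm W1 h1 W1' h1')).trans ?_
        rw [Finset.sum_add_distrib, Finset.sum_const, Finset.card_powerset,
          ← Finset.sum_filter, Finset.sum_const, nsmul_eq_mul, nsmul_eq_mul]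
        have h2 := hlu W1 h1
        have h3 : (0 : ℝ) < 2 ^ B.card := by positivity
        push_cast
        nlinarith [mul_le_mul_of_nonneg_right h2 h3.le]
      have htot : ∑ W1 ∈ A.powerset, ∑ W1' ∈ A.powerset,
          (((B.powerset.filter (fun W2 => (fun W => h (v + ∑ i ∈ W, e i) = 0) (W1 ∪ W2) ∧
            (fun W => h (v + ∑ i ∈ W, e i) = 0) (W1' ∪ W2))).card : ℕ) : ℝ) ≤
          2 ^ A.card * (ε ^ 2 * (2 ^ A.card * 2 ^ B.card)) := by
        refine (Finset.sum_le_sum hrow).trans ?_
        rw [Finset.sum_const, Finset.card_powerset, nsmul_eq_mul]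
        push_cast
        exact le_refl _
      have hfin : (((U.powerset.filter (fun W => h (v + ∑ i ∈ W, e i) = 0)).card : ℕ) : ℝ) ^ 2 ≤
          (ε * 2 ^ U.card) ^ 2 := by
        refine hcs.trans ((mul_le_mul_of_nonneg_left htot (by positivity)).trans (le_of_eq ?_))
        rw [← hcard, pow_add]
        ring
      exact (pow_le_pow_iff_left₀ (by positivity) (by positivity) (by norm_num)).mp hfin

end Pool.H91.HQ
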