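import Mathlib

set_option autoImplicit false

/-!
Row AU (project MP_259062_HQ): auxiliary polynomial in two variables with coefficients in `K[X]` (linear algebra).

PROOF. Unknowns: `x : Fin E × Fin E × Fin (H*n) → K`, `G i j = sum over u of C (x (i,j,u)) * X^u`, degree `< H*n`.
For `l ∈ T`: `S_l = sum_i sum_j G i j * (σ l)^i * (derivative (σ l))^j` has `natDegree < (H + 4E) n`
(each term: `< H n` plus `2 n i + 2 n j ≤ 2n(E-1) + 2n(E-1)`; if `E = 0` the hypothesis `hcard` fails since `E^2 * H = 0`; also `H n ≥ 1`).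
The map `x ↦ ((l, w) ↦ coeff (S_l) w)`, `l ∈ T` (as a subtype), `w < (H + 4E) n`, is linear from a space of dimension `E^2 H n` to one
of dimension `#T (H + 4E) n`, which is smaller by `hcard` and `n ≥ 1`. So there is `x ≠ 0` in the kernel
(`LinearMap.exists_ne_zero_of_finrank_lt`-like lemma, or `LinearMap.ker_ne_bot_of_finrank_lt`, or
`Module.finrank` with `LinearMap.injective_iff` and `LinearMap.finrank_le_finrank_of_injective`). All coefficients of `S_l` vanish,
so `S_l = 0`; and some `G i j ≠ 0`.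
-/

namespace Pool.H91.HQ

open Polynomial Finset

universe u

/-- the polynomial with given coefficients -/
noncomputable def au_g (K : Type u) [Field K] (N : ℕ) : (Fin N → K) →ₗ[K] K[X] :=
  Fintype.linearCombination K (fun v : Fin N => (X : K[X]) ^ (v : ℕ))

theorem au_g_apply {K : Type u} [Field K] (N : ℕ) (x : Fin N → K) :
    au_g K N x = ∑ v : Fin N, x v • (X : K[X]) ^ (v : ℕ) :=
  Fintype.linearCombination_apply K _ x

theorem au_g_mem {K : Type u} [Field K] (N : ℕ) (x : Fin N → K) :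
    (au_g K N x).degree < ((N : ℕ) : WithBot ℕ) := by
  rw [← mem_degreeLT, au_g_apply]
  refine Submodule.sum_mem _ fun v _ => Submodule.smul_mem _ _ ?_
  rw [mem_degreeLT, degree_X_pow]
  exact_mod_cast v.2

theorem au_g_coeff {K : Type u} [Field K] (N : ℕ) (x : Fin N → K) (v : Fin N) :
    (au_g K N x).coeff v = x v := by
  rw [au_g_apply, finsetSum_coeff, Finset.sum_eq_single v]
  · rw [coeff_smul, coeff_X_pow, if_pos rfl, smul_eq_mul, mul_one]
  · intro w _ hw
    rw [coeff_smul, coeff_X_pow, if_neg, smul_zero]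
    intro h
    exact hw (Fin.ext h.symm)
  · intro h
    exact absurd (Finset.mem_univ v) h

/-- the combination -/
noncomputable def au_S {K : Type u} [Field K] (N E : ℕ) (s t : K[X]) :
    (Fin E → Fin E → Fin N → K) →ₗ[K] K[X] :=
  ∑ i : Fin E, ∑ j : Fin E, (LinearMap.mulRight K (s ^ (i : ℕ) * t ^ (j : ℕ))) ∘ₗ
    (au_g K N) ∘ₗ (LinearMap.proj (R := K) (φ := fun _ : Fin E => Fin N → K) j) ∘ₗ
      (LinearMap.proj (R := K) (φ := fun _ : Fin E => Fin E → Fin N → K) i)

theorem au_S_apply {K : Type u} [Field K] (N E : ℕ) (s t : K[X])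
    (x : Fin E → Fin E → Fin N → K) :
    au_S N E s t x = ∑ i : Fin E, ∑ j : Fin E,
      au_g K N (x i j) * s ^ (i : ℕ) * t ^ (j : ℕ) := by
  rw [au_S, LinearMap.sum_apply]
  refine Finset.sum_congr rfl fun i _ => ?_
  rw [LinearMap.sum_apply]
  refine Finset.sum_congr rfl fun j _ => ?_
  rw [mul_assoc]
  rfl

theorem au_S_degree {K : Type u} [Field K] (n E H : ℕ) (hn : 1 ≤ n) (hH : 1 ≤ H) (s t : K[X])
    (hs : s.natDegree ≤ 2 * n) (ht : t.natDegree ≤ 2 * n)
    (x : Fin E → Fin E → Fin (H * n) → K) :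
    (au_S (H * n) E s t x).degree < (((H + 4 * E) * n : ℕ) : WithBot ℕ) := by
  rw [← mem_degreeLT, au_S_apply]
  refine Submodule.sum_mem _ fun i _ => Submodule.sum_mem _ fun j _ => ?_
  rw [mem_degreeLT]
  refine lt_of_le_of_lt degree_le_natDegree ?_
  have hHn : 1 ≤ H * n := Nat.mul_pos hH hn
  have h1 : (au_g K (H * n) (x i j)).natDegree < H * n := by
    by_cases h0 : au_g K (H * n) (x i j) = 0
    · rw [h0, natDegree_zero]
      exact hHn
    · exact (natDegree_lt_iff_degree_lt h0).2 (au_g_mem _ _)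
  have h2 : (s ^ (i : ℕ)).natDegree ≤ E * (2 * n) :=
    (natDegree_pow_le).trans (Nat.mul_le_mul i.2.le hs)
  have h3 : (t ^ (j : ℕ)).natDegree ≤ E * (2 * n) :=
    (natDegree_pow_le).trans (Nat.mul_le_mul j.2.le ht)
  have h4 : (au_g K (H * n) (x i j) * s ^ (i : ℕ) * t ^ (j : ℕ)).natDegree ≤
      (au_g K (H * n) (x i j)).natDegree + (s ^ (i : ℕ)).natDegree +
        (t ^ (j : ℕ)).natDegree :=
    natDegree_mul_le.trans (Nat.add_le_add_right natDegree_mul_le _)
  have h5 : (H + 4 * E) * n = H * n + E * (2 * n) + E * (2 * n) := by ring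
  exact_mod_cast (show (au_g K (H * n) (x i j) * s ^ (i : ℕ) * t ^ (j : ℕ)).natDegree <
    (H + 4 * E) * n by omega)

theorem aux_poly {K : Type u} [Field K] {Λ : Type} (T : Finset Λ) (σ : Λ → K[X]) (n E H : ℕ) (hn : 1 ≤ n)
    (hσ : ∀ l ∈ T, (σ l).natDegree ≤ 2 * n) (hcard : T.card * (H + 4 * E) < E ^ 2 * H) :
    ∃ G : Fin E → Fin E → K[X], (∃ i j, G i j ≠ 0) ∧ (∀ i j, (G i j).degree < ((H * n : ℕ) : WithBot ℕ)) ∧
      ∀ l ∈ T, ∑ i : Fin E, ∑ j : Fin E, G i j * (σ l) ^ (i : ℕ) * (derivative (σ l)) ^ (j : ℕ) = 0 := by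
  have hH : 1 ≤ H := by
    rcases Nat.eq_zero_or_pos H with h | h
    · subst h
      simp at hcard
    · exact h
  let Φ : (Fin E → Fin E → Fin (H * n) → K) →ₗ[K] (T → Fin ((H + 4 * E) * n) → K) :=
    LinearMap.pi fun l : T => LinearMap.pi fun w : Fin ((H + 4 * E) * n) =>
      (lcoeff K (w : ℕ)) ∘ₗ (au_S (H * n) E (σ l) (derivative (σ l)))
  have hfr : Module.finrank K (T → Fin ((H + 4 * E) * n) → K) <
      Module.finrank K (Fin E → Fin E → Fin (H * n) → K) := by
    have h1 : Module.finrank K (T → Fin ((H + 4 * E) * n) → K) =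
        T.card * ((H + 4 * E) * n) := by
      simp [Module.finrank_pi_fintype]
    have h2 : Module.finrank K (Fin E → Fin E → Fin (H * n) → K) = E * (E * (H * n)) := by
      simp [Module.finrank_pi_fintype]
    rw [h1, h2]
    calc T.card * ((H + 4 * E) * n) = T.card * (H + 4 * E) * n := by ring
      _ < E ^ 2 * H * n := Nat.mul_lt_mul_of_pos_right hcard hn
      _ = E * (E * (H * n)) := by ring
  obtain ⟨x, hx, hx0⟩ := Submodule.exists_mem_ne_zero_of_ne_bot
    (LinearMap.ker_ne_bot_of_finrank_lt (f := Φ) hfr)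
  refine ⟨fun i j => au_g K (H * n) (x i j), ?_, fun i j => au_g_mem _ _, fun l hl => ?_⟩
  · by_contra hcon
    push Not at hcon
    apply hx0
    funext i j v
    rw [← au_g_coeff (H * n) (x i j) v, hcon i j]
    simp
  · rw [← au_S_apply]
    ext w
    rw [coeff_zero]
    by_cases hw : w < (H + 4 * E) * n
    · have h1 := congrFun (congrFun (LinearMap.mem_ker.1 hx) ⟨l, hl⟩) ⟨w, hw⟩
      exact h1
    · refine coeff_eq_zero_of_degree_lt (lt_of_lt_of_le (au_S_degree n E H hn hH _ _ (hσ l hl)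
        ((natDegree_derivative_le _).trans ((Nat.sub_le _ _).trans (hσ l hl))) x) ?_)
      exact_mod_cast not_lt.1 hw

end Pool.H91.HQ
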