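import Pool.Agent.H91.HQ.Defs

set_option autoImplicit false

/-!
Row BF (project MP_259062_HQ): Bonferroni count for random subcubes.

PROOF. For `(V, c)` let `k` be the number of `Q ∈ QQ R` with `symmDiff V (cs c Q) ∈ I`. Then `[k ≥ 1] ≥ k - k (k-1)` (check `k = 0`,
`1`, `≥ 2`), and `k (k-1)` is the number of ordered pairs `Q ≠ Q'` in `QQ R` with both vertices in `I`. Sum over all `(V, c)`:
* for fixed `Q`, `c`: `V ↦ symmDiff V (cs c Q)` is an involution of the finsets, so `#{V | symmDiff V (cs c Q) ∈ I} = #I`; total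
  `#I * R^m` for each `Q`, and there are `2^(R-1)` sets `Q` in `QQ R` (subsets of `univ.erase 0`).
* for `Q ≠ Q'`: put `V1 = symmDiff V (cs c Q)`; `symmDiff V (cs c Q') = symmDiff V1 (cs c (symmDiff Q Q'))`
  (`cs c` respects `symmDiff`), `symmDiff Q Q'` is nonempty and does not contain `0`. For fixed `c` the map `V ↦ V1` is a bijection, so
  the number of `(V, c)` is `sum over V1 ∈ I of #{c | symmDiff V1 (cs c (symmDiff Q Q')) ∈ I} ≤ #I * ε * R^m`.
  There are at most `4^(R-1)` pairs.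
-/

namespace Pool.H91.HQ

open Finset

theorem bf_pt {α : Type*} [DecidableEq α] (S : Finset α) (A : α → Prop) [DecidablePred A]
    [Decidable (∃ Q ∈ S, A Q)] :
    ((∑ Q ∈ S, if A Q then (1 : ℝ) else 0) -
      ∑ p ∈ S.offDiag, (if A p.1 ∧ A p.2 then (1 : ℝ) else 0)) ≤
      (if ∃ Q ∈ S, A Q then (1 : ℝ) else 0) := by
  have h1 : (∑ Q ∈ S, if A Q then (1 : ℝ) else 0) = ((S.filter A).card : ℝ) := by
    rw [Finset.sum_boole]
  have h2 : (∑ p ∈ S.offDiag, (if A p.1 ∧ A p.2 then (1 : ℝ) else 0)) =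
      (((S.filter A).offDiag).card : ℝ) := by
    rw [Finset.sum_boole]
    congr 2
    ext p
    simp only [Finset.mem_filter, Finset.mem_offDiag]
    tauto
  rw [h1, h2, Finset.offDiag_card]
  have h3 : (((S.filter A).card * (S.filter A).card - (S.filter A).card : ℕ) : ℝ) =
      ((S.filter A).card : ℝ) * ((S.filter A).card : ℝ) - ((S.filter A).card : ℝ) := by
    rw [Nat.cast_sub (Nat.le_mul_self _), Nat.cast_mul]
  rw [h3]
  by_cases hk : (S.filter A).card = 0
  · rw [hk]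
    split_ifs <;> simp
  · have hex : ∃ Q ∈ S, A Q := by
      obtain ⟨Q, hQ⟩ := Finset.card_pos.mp (Nat.pos_of_ne_zero hk)
      rw [Finset.mem_filter] at hQ
      exact ⟨Q, hQ.1, hQ.2⟩
    rw [if_pos hex]
    have h4 : (1 : ℝ) ≤ ((S.filter A).card : ℝ) := by
      exact_mod_cast Nat.one_le_iff_ne_zero.mpr hk
    nlinarith [mul_self_nonneg (((S.filter A).card : ℝ) - 1)]

/-- the involution `V ↦ V ∆ W` -/
def bf_equiv {m : ℕ} (W : Finset (Fin m)) : Finset (Fin m) ≃ Finset (Fin m) where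
  toFun V := symmDiff V W
  invFun V := symmDiff V W
  left_inv V := symmDiff_symmDiff_cancel_right W V
  right_inv V := symmDiff_symmDiff_cancel_right W V

theorem bf_cs {m R : ℕ} (c : Fin m → Fin R) (Q Q' : Finset (Fin R)) :
    symmDiff (cs c Q) (cs c Q') = cs c (symmDiff Q Q') := by
  ext i
  simp only [cs, Finset.mem_symmDiff, Finset.mem_filter, Finset.mem_univ, true_and]

open Classical in
theorem bf_one {m : ℕ} (I : Finset (Finset (Fin m))) (W : Finset (Fin m)) :
    (∑ V : Finset (Fin m), if symmDiff V W ∈ I then (1 : ℝ) else 0) = (I.card : ℝ) := by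
  have h := Equiv.sum_comp (bf_equiv W) (fun V => if V ∈ I then (1 : ℝ) else 0)
  have h2 : (∑ V : Finset (Fin m), if V ∈ I then (1 : ℝ) else 0) = (I.card : ℝ) := by
    rw [Finset.sum_boole, Finset.filter_univ_mem]
  rw [← h2, ← h]
  rfl

open Classical in
theorem bf_two {m R : ℕ} (I : Finset (Finset (Fin m))) (c : Fin m → Fin R)
    (Q Q' : Finset (Fin R)) :
    (∑ V : Finset (Fin m), if symmDiff V (cs c Q) ∈ I ∧ symmDiff V (cs c Q') ∈ I
      then (1 : ℝ) else 0) =
    ∑ V ∈ I, if symmDiff V (cs c (symmDiff Q Q')) ∈ I then (1 : ℝ) else 0 := by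
  rw [← Equiv.sum_comp (bf_equiv (cs c Q))]
  have h1 : ∀ V : Finset (Fin m), symmDiff (bf_equiv (cs c Q) V) (cs c Q) = V := fun V =>
    symmDiff_symmDiff_cancel_right _ V
  have h2 : ∀ V : Finset (Fin m), symmDiff (bf_equiv (cs c Q) V) (cs c Q') =
      symmDiff V (cs c (symmDiff Q Q')) := by
    intro V
    rw [← bf_cs, ← symmDiff_assoc]
    rfl
  simp only [h1, h2]
  rw [← Finset.sum_filter_add_sum_filter_not Finset.univ (fun V => V ∈ I)]
  have h3 : ∑ x ∈ Finset.univ.filter (fun V => ¬ V ∈ I),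
      (if x ∈ I ∧ symmDiff x (cs c (symmDiff Q Q')) ∈ I then (1 : ℝ) else 0) = 0 := by
    apply Finset.sum_eq_zero
    intro x hx
    rw [Finset.mem_filter] at hx
    rw [if_neg]
    intro h
    exact hx.2 h.1
  rw [h3, add_zero]
  have h4 : Finset.univ.filter (fun V => V ∈ I) = I := by
    ext V
    simp
  rw [h4]
  apply Finset.sum_congr rfl
  intro x hx
  simp only [hx, true_and]

theorem bf_QQ (R : ℕ) [NeZero R] : (QQ R).card = 2 ^ (R - 1) := by
  have h1 : QQ R = (Finset.univ.erase (0 : Fin R)).powerset := by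
    ext Q
    simp only [QQ, Finset.mem_filter, Finset.mem_univ, true_and, Finset.mem_powerset]
    constructor
    · intro h x hx
      rw [Finset.mem_erase]
      refine ⟨?_, Finset.mem_univ _⟩
      intro h0
      rw [h0] at hx
      exact h hx
    · intro h h0
      have := h h0
      simp at this
  rw [h1, Finset.card_powerset, Finset.card_erase_of_mem (Finset.mem_univ _), Finset.card_univ,
    Fintype.card_fin]

open Classical in
theorem bonf (R : ℕ) [NeZero R] {m : ℕ} (I : Finset (Finset (Fin m))) (ε : ℝ) (hε : 0 ≤ ε)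
    (hco : ∀ Q : Finset (Fin R), (0 : Fin R) ∉ Q → Q.Nonempty → ∀ V ∈ I,
      (((univ.filter (fun c : Fin m → Fin R => symmDiff V (cs c Q) ∈ I)).card : ℕ) : ℝ) ≤ ε * (R : ℝ) ^ m) :
    (I.card : ℝ) * (R : ℝ) ^ m * (2 ^ (R - 1) - 4 ^ (R - 1) * ε) ≤
      (((univ : Finset (Finset (Fin m) × (Fin m → Fin R))).filter
        (fun x => ∃ Q ∈ QQ R, symmDiff x.1 (cs x.2 Q) ∈ I)).card : ℝ) := by
  have hpt : ∀ x : Finset (Fin m) × (Fin m → Fin R),
      ((∑ Q ∈ QQ R, if symmDiff x.1 (cs x.2 Q) ∈ I then (1 : ℝ) else 0) -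
      ∑ p ∈ (QQ R).offDiag, (if symmDiff x.1 (cs x.2 p.1) ∈ I ∧ symmDiff x.1 (cs x.2 p.2) ∈ I
        then (1 : ℝ) else 0)) ≤
      (if ∃ Q ∈ QQ R, symmDiff x.1 (cs x.2 Q) ∈ I then (1 : ℝ) else 0) := fun x =>
    bf_pt (QQ R) (fun Q => symmDiff x.1 (cs x.2 Q) ∈ I)
  have hsum := Finset.sum_le_sum (s := (univ : Finset (Finset (Fin m) × (Fin m → Fin R))))
    (fun x _ => hpt x)
  rw [Finset.sum_boole, Finset.sum_sub_distrib] at hsum
  refine le_trans ?_ hsum
  have hR : (Fintype.card (Fin m → Fin R) : ℝ) = (R : ℝ) ^ m := by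
    rw [Fintype.card_fun, Fintype.card_fin, Fintype.card_fin]
    push_cast
    rfl
  have h1 : ∑ x : Finset (Fin m) × (Fin m → Fin R),
      (∑ Q ∈ QQ R, if symmDiff x.1 (cs x.2 Q) ∈ I then (1 : ℝ) else 0) =
      2 ^ (R - 1) * ((R : ℝ) ^ m * (I.card : ℝ)) := by
    rw [Finset.sum_comm]
    have h2 : ∀ Q ∈ QQ R, (∑ x : Finset (Fin m) × (Fin m → Fin R),
        if symmDiff x.1 (cs x.2 Q) ∈ I then (1 : ℝ) else 0) = (R : ℝ) ^ m * (I.card : ℝ) := by
      intro Q _
      rw [Fintype.sum_prod_type_right]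
      simp only [bf_one]
      rw [Finset.sum_const, Finset.card_univ, nsmul_eq_mul, hR]
    rw [Finset.sum_congr rfl h2, Finset.sum_const, nsmul_eq_mul, bf_QQ]
    push_cast
    ring
  have h3 : ∑ x : Finset (Fin m) × (Fin m → Fin R),
      (∑ p ∈ (QQ R).offDiag, (if symmDiff x.1 (cs x.2 p.1) ∈ I ∧ symmDiff x.1 (cs x.2 p.2) ∈ I
        then (1 : ℝ) else 0)) ≤ 4 ^ (R - 1) * ((I.card : ℝ) * (ε * (R : ℝ) ^ m)) := by
    rw [Finset.sum_comm]
    have h4 : ∀ p ∈ (QQ R).offDiag, (∑ x : Finset (Fin m) × (Fin m → Fin R),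
        (if symmDiff x.1 (cs x.2 p.1) ∈ I ∧ symmDiff x.1 (cs x.2 p.2) ∈ I
        then (1 : ℝ) else 0)) ≤ (I.card : ℝ) * (ε * (R : ℝ) ^ m) := by
      intro p hp
      rw [Finset.mem_offDiag] at hp
      obtain ⟨hp1, hp2, hne⟩ := hp
      rw [Fintype.sum_prod_type_right]
      simp only [bf_two]
      rw [Finset.sum_comm]
      have h5 : ∀ V ∈ I, (∑ c : Fin m → Fin R,
          if symmDiff V (cs c (symmDiff p.1 p.2)) ∈ I then (1 : ℝ) else 0) ≤ ε * (R : ℝ) ^ m := by
        intro V hV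
        rw [Finset.sum_boole]
        apply hco
        · simp only [QQ, Finset.mem_filter, Finset.mem_univ, true_and] at hp1 hp2
          rw [Finset.mem_symmDiff]
          tauto
        · rw [Finset.nonempty_iff_ne_empty]
          intro h
          apply hne
          rw [← Finset.bot_eq_empty, symmDiff_eq_bot] at h
          exact h
        · exact hV
      calc _ ≤ ∑ V ∈ I, ε * (R : ℝ) ^ m := Finset.sum_le_sum h5
        _ = (I.card : ℝ) * (ε * (R : ℝ) ^ m) := by rw [Finset.sum_const, nsmul_eq_mul]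
    calc _ ≤ ∑ p ∈ (QQ R).offDiag, (I.card : ℝ) * (ε * (R : ℝ) ^ m) := Finset.sum_le_sum h4
      _ = ((QQ R).offDiag.card : ℝ) * ((I.card : ℝ) * (ε * (R : ℝ) ^ m)) := by
          rw [Finset.sum_const, nsmul_eq_mul]
      _ ≤ 4 ^ (R - 1) * ((I.card : ℝ) * (ε * (R : ℝ) ^ m)) := by
          have h6 : ((QQ R).offDiag.card : ℝ) ≤ 4 ^ (R - 1) := by
            have h7 : (QQ R).offDiag.card ≤ 4 ^ (R - 1) := by
              rw [Finset.offDiag_card, bf_QQ, ← mul_pow]
              exact Nat.sub_le _ _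
            exact_mod_cast h7
          gcongr
  calc (I.card : ℝ) * (R : ℝ) ^ m * (2 ^ (R - 1) - 4 ^ (R - 1) * ε)
      = 2 ^ (R - 1) * ((R : ℝ) ^ m * (I.card : ℝ)) -
        4 ^ (R - 1) * ((I.card : ℝ) * (ε * (R : ℝ) ^ m)) := by ring
    _ ≤ _ := by
        rw [h1]
        linarith

end Pool.H91.HQ
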