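import Mathlib

set_option autoImplicit false

/-!
Row CB (project MP_259062_HQ): upper bound for the middle binomial coefficient.

PROOF. (1) `c k := Nat.centralBinom k` satisfies `c k ^ 2 * (2 k + 1) ≤ 16 ^ k`: induction on `k`.
`Nat.succ_mul_centralBinom_succ : (k+1) * c (k+1) = 2 * (2*k+1) * c k`. Hence
`(k+1)^2 * c(k+1)^2 * (2k+3) = 4 (2k+1)^2 (2k+3) * c k^2 ≤ 4 (2k+1)(2k+3) * 16^k ≤ 16 (k+1)^2 * 16^k`
because `(2k+1)(2k+3) ≤ 4 (k+1)^2`; cancel `(k+1)^2`.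
(2) `M = 2k`: `M.choose (M/2) = c k` and `16^k = 4^M`, `M + 1 = 2k+1`.
(3) `M = 2k+1`: `M / 2 = k`, `2 * M.choose k = c (k+1)` (since `(2k+2).choose (k+1) = (2k+1).choose k + (2k+1).choose (k+1)`
and `(2k+1).choose (k+1) = (2k+1).choose k`), so `4 * (M.choose k)^2 * (2k+3) ≤ 16^(k+1)`, and `M + 1 = 2k+2 ≤ 2k+3`,
`16^(k+1) = 4 * 4^M`.
-/

namespace Pool.H91.HQ

theorem cb_central (k : ℕ) : (Nat.centralBinom k) ^ 2 * (2 * k + 1) ≤ 16 ^ k := by
  induction k with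
  | zero => simp
  | succ k ih =>
    have h1 := Nat.succ_mul_centralBinom_succ k
    obtain ⟨c, hc⟩ : ∃ c, c = Nat.centralBinom k := ⟨_, rfl⟩
    obtain ⟨d, hd⟩ : ∃ d, d = Nat.centralBinom (k + 1) := ⟨_, rfl⟩
    obtain ⟨P, hP⟩ : ∃ P : ℕ, P = 16 ^ k := ⟨_, rfl⟩
    rw [← hc, ← hd] at h1
    rw [← hc, ← hP] at ih
    rw [← hd, pow_succ 16 k, ← hP]
    have h2 : (k + 1) ^ 2 * (d ^ 2 * (2 * (k + 1) + 1)) ≤ (k + 1) ^ 2 * (P * 16) := by
      calc (k + 1) ^ 2 * (d ^ 2 * (2 * (k + 1) + 1)) = ((k + 1) * d) ^ 2 * (2 * (k + 1) + 1) := by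
            ring
        _ = (c ^ 2 * (2 * k + 1)) * (4 * (2 * k + 1) * (2 * k + 3)) := by rw [h1]; ring
        _ ≤ P * (4 * (2 * k + 1) * (2 * k + 3)) := Nat.mul_le_mul_right _ ih
        _ ≤ P * (16 * (k + 1) ^ 2) := Nat.mul_le_mul_left _ (by nlinarith)
        _ = (k + 1) ^ 2 * (P * 16) := by ring
    exact Nat.le_of_mul_le_mul_left h2 (by positivity)

theorem cb (M : ℕ) : (M.choose (M / 2)) ^ 2 * (M + 1) ≤ 4 ^ M := by
  obtain ⟨k, hk | hk⟩ : ∃ k, M = 2 * k ∨ M = 2 * k + 1 := ⟨M / 2, by omega⟩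
  · subst hk
    have h1 := cb_central k
    rw [Nat.centralBinom] at h1
    have h2 : 2 * k / 2 = k := by omega
    have h3 : (4 : ℕ) ^ (2 * k) = 16 ^ k := by
      rw [pow_mul]
      norm_num
    rw [h2, h3]
    exact h1
  · subst hk
    have h1 := cb_central (k + 1)
    have h2 : (2 * k + 1) / 2 = k := by omega
    have h3 : Nat.centralBinom (k + 1) = 2 * (2 * k + 1).choose k := by
      rw [Nat.centralBinom, show 2 * (k + 1) = (2 * k + 1) + 1 by ring, Nat.choose_succ_succ,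
        ← Nat.choose_symm_half k]
      ring
    have h4 : (16 : ℕ) ^ (k + 1) = 4 * 4 ^ (2 * k + 1) := by
      rw [← pow_succ', show 2 * k + 1 + 1 = 2 * (k + 1) by ring, pow_mul]
      norm_num
    rw [h3, h4] at h1
    rw [h2]
    have h5 : (2 * (2 * k + 1).choose k) ^ 2 * (2 * (k + 1) + 1) =
        4 * (((2 * k + 1).choose k) ^ 2 * (2 * k + 1 + 1)) + 4 * ((2 * k + 1).choose k) ^ 2 := by
      ring
    omega

end Pool.H91.HQ
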