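import Pool.Agent.H91.HQ.Defs

set_option autoImplicit false

/-!
Row CT (project MP_259062_HQ): few colourings use the colours of `Q` rarely on `S`.

PROOF. `sum over c of (1/2)^(#{i ∈ S | c i ∈ Q}) = prod over i of (sum over x : Fin R of w_i x)` with
`w_i x = 1/2` if `i ∈ S` and `x ∈ Q`, else `1` (`Finset.prod_univ_sum` and `Fintype.piFinset_univ`; write
`(1/2)^(card of a filter) = prod over i of (if i ∈ S ∧ c i ∈ Q then 1/2 else 1)`, `Finset.prod_ite`).
The inner sum is `R - #Q/2 ≤ R - 1/2 ` if `i ∈ S` (`Q` nonempty) and `R` otherwise. So the total is at most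
`(R - 1/2)^#S * R^(m - #S)`. Every `c` with `#{i ∈ S | c i ∈ Q} < h` contributes at least `(1/2)^h`. Hence the count is at most
`2^h (R-1/2)^#S R^(m-#S) = 2^h (1 - 1/(2R))^#S R^m`.
-/

namespace Pool.H91.HQ

theorem ct_prod {m : ℕ} (P : Fin m → Prop) [DecidablePred P] (a : ℝ) :
    ∏ i : Fin m, (if P i then a else 1) = a ^ (Finset.univ.filter P).card := by
  rw [Finset.prod_ite, Finset.prod_const, Finset.prod_const_one, mul_one]

theorem ct_card {m R : ℕ} (Q : Finset (Fin R)) (S : Finset (Fin m)) (c : Fin m → Fin R) :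
    (cs c Q) ∩ S = Finset.univ.filter (fun i => i ∈ S ∧ c i ∈ Q) := by
  ext i
  simp only [cs, Finset.mem_inter, Finset.mem_filter, Finset.mem_univ, true_and]
  exact and_comm

theorem ct_sum {R : ℕ} (Q : Finset (Fin R)) (hQ : Q.Nonempty) :
    ∑ x : Fin R, (if x ∈ Q then (1 / 2 : ℝ) else 1) ≤ (R : ℝ) - 1 / 2 := by
  have h1 : ∀ x : Fin R, (if x ∈ Q then (1 / 2 : ℝ) else 1) = 1 - (if x ∈ Q then (1 / 2 : ℝ) else 0) := by
    intro x; split_ifs <;> norm_num
  have h2 : (1 : ℝ) ≤ (Q.card : ℝ) := by exact_mod_cast hQ.card_pos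
  have h3 : ∑ x : Fin R, (if x ∈ Q then (1 / 2 : ℝ) else 0) = (Q.card : ℝ) * (1 / 2) := by
    rw [Finset.sum_ite_mem, Finset.univ_inter, Finset.sum_const, nsmul_eq_mul]
  simp only [h1, Finset.sum_sub_distrib, h3, Finset.sum_const, Finset.card_univ, Fintype.card_fin,
    nsmul_eq_mul, mul_one]
  linarith

theorem ct {m R : ℕ} (hR : 1 ≤ R) (Q : Finset (Fin R)) (hQ : Q.Nonempty) (S : Finset (Fin m)) (h : ℕ) :
    (((Finset.univ.filter (fun c : Fin m → Fin R => ((cs c Q) ∩ S).card < h)).card : ℕ) : ℝ)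
      ≤ 2 ^ h * (1 - 1 / (2 * (R : ℝ))) ^ S.card * (R : ℝ) ^ m := by
  have hR0 : (1 : ℝ) ≤ (R : ℝ) := by exact_mod_cast hR
  have hA : ∑ c : Fin m → Fin R, ∏ i : Fin m, (if i ∈ S ∧ c i ∈ Q then (1 / 2 : ℝ) else 1) =
      ∏ i : Fin m, ∑ x : Fin R, (if i ∈ S ∧ x ∈ Q then (1 / 2 : ℝ) else 1) := by
    rw [Finset.prod_univ_sum, Fintype.piFinset_univ]
  have hB : ∏ i : Fin m, ∑ x : Fin R, (if i ∈ S ∧ x ∈ Q then (1 / 2 : ℝ) else 1) ≤
      (1 - 1 / (2 * (R : ℝ))) ^ S.card * (R : ℝ) ^ m := by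
    have h1 : ∏ i : Fin m, ((if i ∈ S then (1 - 1 / (2 * (R : ℝ))) else 1) * (R : ℝ)) =
        (1 - 1 / (2 * (R : ℝ))) ^ S.card * (R : ℝ) ^ m := by
      rw [Finset.prod_mul_distrib, ct_prod, Finset.prod_const, Finset.card_univ, Fintype.card_fin]
      congr 3
      ext i; simp
    rw [← h1]
    apply Finset.prod_le_prod
    · intro i _
      apply Finset.sum_nonneg
      intro x _; split_ifs <;> norm_num
    · intro i _
      by_cases hi : i ∈ S
      · simp only [hi, true_and, if_true]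
        refine (ct_sum Q hQ).trans (le_of_eq ?_)
        field_simp
      · simp [hi]
  have hC : (((Finset.univ.filter (fun c : Fin m → Fin R => ((cs c Q) ∩ S).card < h)).card : ℕ) : ℝ) *
      (1 / 2) ^ h ≤
      ∑ c : Fin m → Fin R, ∏ i : Fin m, (if i ∈ S ∧ c i ∈ Q then (1 / 2 : ℝ) else 1) := by
    rw [← nsmul_eq_mul, ← Finset.sum_const]
    refine (Finset.sum_le_sum (fun c hc => ?_)).trans
      (Finset.sum_le_sum_of_subset_of_nonneg (Finset.filter_subset _ _) (fun c _ _ => ?_))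
    · rw [ct_prod, ← ct_card]
      exact pow_le_pow_of_le_one (by norm_num) (by norm_num) (Finset.mem_filter.1 hc).2.le
    · apply Finset.prod_nonneg
      intro i _; split_ifs <;> norm_num
  have hD := (hC.trans (le_of_eq hA)).trans hB
  have h2 : (0 : ℝ) < 2 ^ h := by positivity
  calc (((Finset.univ.filter (fun c : Fin m → Fin R => ((cs c Q) ∩ S).card < h)).card : ℕ) : ℝ)
      = 2 ^ h * ((((Finset.univ.filter (fun c : Fin m → Fin R =>
          ((cs c Q) ∩ S).card < h)).card : ℕ) : ℝ) * (1 / 2) ^ h) := by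
        rw [one_div, inv_pow]; field_simp
    _ ≤ 2 ^ h * ((1 - 1 / (2 * (R : ℝ))) ^ S.card * (R : ℝ) ^ m) :=
        mul_le_mul_of_nonneg_left hD h2.le
    _ = _ := by ring

end Pool.H91.HQ
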