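import Pool.Agent.H91.HQ.LU
import Pool.Agent.H91.HQ.CT

set_option autoImplicit false

/-!
Row CL (project MP_259062_HQ): Littlewood-Offord for random colourings.

PROOF. Let `q0 ∉ Q`, `q1 ∈ Q` (so `q0 ≠ q1`), `P = {q0, q1}`. Call two colourings equivalent if they agree outside
`{i | c i ∈ P}` and have the same set `A = cs c P`. Class of `c`: determined by the map `τ c : Fin m → Option (Fin R)` or simply by
the colouring `c'` which is `c` with all colours `q1` replaced by `q0`: `c' i = if c i = q1 then q0 else c i`.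
For fixed `c'` with `A = cs c' {q0}` the colourings with that `c'` correspond to the subsets `W = {i | c i = q1} ⊆ A`, and
`sum over {i | c i ∈ Q} of g i = sum over W of g i + (sum over {i | c' i ∈ Q} of g i)` (because `q0 ∉ Q`, and no `c' i` is `q1`).
So the number of colourings of this class with zero sum is at most `#{W ⊆ A | sum over W of g = x}`.
By `lu` (with `U = A`, `S := A ∩ S`, `ε := ε/2`) this is at most `(ε/2) 2^#A` as soon as `#(A ∩ S) ≥ h`, where `h` is a natural number
with `1 ≤ (ε/2)^2 h`. Summing over classes (`Finset.card_eq_sum_card_fiberwise` for the map `c ↦ c'`; the classes have `2^#A`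
elements and partition all `R^m` colourings) the colourings with `#(A ∩ S) ≥ h` contribute at most `(ε/2) R^m`
(every class has all its `2^#A` colourings; `A` is constant on the class: `A = cs c P = cs c' {q0}`).
The others number at most `2^h (1-1/(2R))^#S R^m ≤ (ε/2) R^m` by `ct` (with `Q := P`) if `#S ≥ M`, `M` chosen with
`2^h (1-1/(2R))^M ≤ ε/2`.
-/

namespace Pool.H91.HQ

universe u v

/-- Replace the colour `q1` by `q0`. -/
def cl_tau {m R : ℕ} (q0 q1 : Fin R) (c : Fin m → Fin R) : Fin m → Fin R :=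
  fun i => if c i = q1 then q0 else c i

theorem cl_tau_ne {m R : ℕ} {q0 q1 : Fin R} (hq : q0 ≠ q1) (c : Fin m → Fin R) (i : Fin m) :
    cl_tau q0 q1 c i ≠ q1 := by
  unfold cl_tau
  split_ifs with h
  · exact hq
  · exact h

theorem cl_mem {m R : ℕ} {q0 q1 : Fin R} (c : Fin m → Fin R) (i : Fin m) :
    i ∈ cs c {q0, q1} ↔ cl_tau q0 q1 c i = q0 := by
  unfold cs cl_tau
  rw [Finset.mem_filter, Finset.mem_insert, Finset.mem_singleton]
  constructor
  · rintro ⟨_, h | h⟩
    · rw [h]
      split_ifs <;> rfl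
    · rw [if_pos h]
  · intro h
    refine ⟨Finset.mem_univ _, ?_⟩
    split_ifs at h with h1
    · exact Or.inr h1
    · exact Or.inl h

theorem cl_cs {m R : ℕ} {q0 q1 : Fin R} (c : Fin m → Fin R) :
    cs c {q0, q1} = cs (cl_tau q0 q1 c) {q0} := by
  ext i
  rw [cl_mem]
  unfold cs
  rw [Finset.mem_filter, Finset.mem_singleton]
  exact ⟨fun h => ⟨Finset.mem_univ _, h⟩, fun h => h.2⟩

theorem cl_split {m R : ℕ} {q0 q1 : Fin R} {E : Type*} [AddCommGroup E] (g : Fin m → E)
    (c : Fin m → Fin R) (Q : Finset (Fin R)) (h0 : q0 ∉ Q) (h1 : q1 ∈ Q) :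
    ∑ i ∈ cs c Q, g i = ∑ i ∈ cs c {q1}, g i + ∑ i ∈ cs (cl_tau q0 q1 c) Q, g i := by
  rw [← Finset.sum_union]
  · congr 1
    ext i
    unfold cs cl_tau
    simp only [Finset.mem_filter, Finset.mem_union, Finset.mem_univ, true_and,
      Finset.mem_singleton]
    constructor
    · intro h
      by_cases h2 : c i = q1
      · exact Or.inl h2
      · right
        rw [if_neg h2]
        exact h
    · rintro (h | h)
      · rw [h]
        exact h1
      · split_ifs at h with h2
        · exact absurd h h0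
        · exact h
  · rw [Finset.disjoint_left]
    intro i hi hi'
    unfold cs cl_tau at *
    simp only [Finset.mem_filter, Finset.mem_univ, true_and, Finset.mem_singleton] at hi hi'
    rw [if_pos hi] at hi'
    exact h0 hi'

open Classical in
theorem cl_fiber {K : Type*} [Field K] [CharZero K] {E : Type*} [AddCommGroup E] [Module K E]
    {m R : ℕ} (g : Fin m → E) (S : Finset (Fin m)) (hS : ∀ i ∈ S, g i ≠ 0) (ε : ℝ) (hε : 0 < ε)
    (h : ℕ) (hh : 1 ≤ ε ^ 2 * (h : ℝ)) (Q : Finset (Fin R)) (q0 q1 : Fin R) (h0 : q0 ∉ Q)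
    (h1 : q1 ∈ Q) (c' : Fin m → Fin R) (hc' : ∀ i, c' i ≠ q1) :
    ((((Finset.univ.filter (fun c : Fin m → Fin R => ∑ i ∈ cs c Q, g i = 0 ∧
        ¬ ((cs c {q0, q1}) ∩ S).card < h)).filter (fun c => cl_tau q0 q1 c = c')).card : ℕ) : ℝ) ≤
      ε * ((((Finset.univ : Finset (Fin m → Fin R)).filter
        (fun c => cl_tau q0 q1 c = c')).card : ℕ) : ℝ) := by
  by_cases hA : ((cs c' {q0}) ∩ S).card < h
  · have h2 : (Finset.univ.filter (fun c : Fin m → Fin R => ∑ i ∈ cs c Q, g i = 0 ∧
        ¬ ((cs c {q0, q1}) ∩ S).card < h)).filter (fun c => cl_tau q0 q1 c = c') = ∅ := by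
      rw [Finset.filter_eq_empty_iff]
      intro c hc hcc
      rw [Finset.mem_filter] at hc
      apply hc.2.2
      rw [cl_cs, hcc]
      exact hA
    rw [h2, Finset.card_empty, Nat.cast_zero]
    positivity
  · have hq : q0 ≠ q1 := by
      rintro rfl
      exact h0 h1
    set x : E := -∑ i ∈ cs c' Q, g i with hx
    have h2 : ((Finset.univ.filter (fun c : Fin m → Fin R => ∑ i ∈ cs c Q, g i = 0 ∧
        ¬ ((cs c {q0, q1}) ∩ S).card < h)).filter (fun c => cl_tau q0 q1 c = c')).card ≤
        (((cs c' {q0}).powerset.filter (fun W => ∑ i ∈ W, g i = x)).card) := by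
      refine Finset.card_le_card_of_injOn (fun c => cs c {q1}) ?_ ?_
      · intro c hc
        rw [Finset.mem_coe, Finset.mem_filter, Finset.mem_filter] at hc
        obtain ⟨⟨_, hc1, _⟩, hc2⟩ := hc
        rw [Finset.mem_coe, Finset.mem_filter, Finset.mem_powerset]
        refine ⟨?_, ?_⟩
        · intro i hi
          unfold cs at hi ⊢
          rw [Finset.mem_filter, Finset.mem_singleton] at hi ⊢
          refine ⟨Finset.mem_univ _, ?_⟩
          rw [← hc2]
          unfold cl_tau
          rw [if_pos hi.2]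
        · rw [cl_split g c Q h0 h1, hc2] at hc1
          rw [hx]
          exact eq_neg_of_add_eq_zero_left hc1
      · intro c1 hc1 c2 hc2 h12
        rw [Finset.mem_coe, Finset.mem_filter] at hc1 hc2
        replace h12 : cs c1 {q1} = cs c2 {q1} := h12
        funext i
        have h3 : i ∈ cs c1 {q1} ↔ i ∈ cs c2 {q1} := by rw [h12]
        unfold cs at h3
        simp only [Finset.mem_filter, Finset.mem_univ, true_and, Finset.mem_singleton] at h3
        have h4 := congrFun (hc1.2.trans hc2.2.symm) i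
        unfold cl_tau at h4
        by_cases h5 : c1 i = q1
        · rw [h5, h3.1 h5]
        · have h6 : c2 i ≠ q1 := fun h => h5 (h3.2 h)
          rw [if_neg h5, if_neg h6] at h4
          exact h4
    have h3 : 2 ^ (cs c' {q0}).card ≤ ((Finset.univ : Finset (Fin m → Fin R)).filter
        (fun c => cl_tau q0 q1 c = c')).card := by
      rw [← Finset.card_powerset]
      refine Finset.card_le_card_of_injOn (fun W i => if i ∈ W then q1 else c' i) ?_ ?_
      · intro W hW
        rw [Finset.mem_coe, Finset.mem_powerset] at hW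
        rw [Finset.mem_coe, Finset.mem_filter]
        refine ⟨Finset.mem_univ _, ?_⟩
        funext i
        unfold cl_tau
        by_cases hi : i ∈ W
        · have h4 := hW hi
          unfold cs at h4
          rw [Finset.mem_filter, Finset.mem_singleton] at h4
          simp only [if_pos hi, if_true]
          exact h4.2.symm
        · simp only [if_neg hi]
          rw [if_neg (hc' i)]
      · intro W1 hW1 W2 hW2 h12
        ext i
        have h4 : (if i ∈ W1 then q1 else c' i) = if i ∈ W2 then q1 else c' i := congrFun h12 i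
        by_cases h5 : i ∈ W1 <;> by_cases h6 : i ∈ W2
        · exact ⟨fun _ => h6, fun _ => h5⟩
        · rw [if_pos h5, if_neg h6] at h4
          exact absurd h4.symm (hc' i)
        · rw [if_neg h5, if_pos h6] at h4
          exact absurd h4 (hc' i)
        · exact ⟨fun h => absurd h h5, fun h => absurd h h6⟩
    have h4 := lu (K := K) g (cs c' {q0}) ((cs c' {q0}) ∩ S) Finset.inter_subset_left
      (fun i hi => hS i (Finset.mem_inter.1 hi).2) x ε hε (by
        push Not at hA
        have h5 : (h : ℝ) ≤ (((cs c' {q0}) ∩ S).card : ℝ) := by exact_mod_cast hA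
        calc 1 ≤ ε ^ 2 * (h : ℝ) := hh
          _ ≤ _ := mul_le_mul_of_nonneg_left h5 (by positivity))
    calc _ ≤ (((cs c' {q0}).powerset.filter (fun W => ∑ i ∈ W, g i = x)).card : ℝ) := by
          exact_mod_cast h2
      _ ≤ ε * 2 ^ (cs c' {q0}).card := h4
      _ ≤ _ := by
          refine mul_le_mul_of_nonneg_left ?_ hε.le
          exact_mod_cast h3

open Classical in
theorem clo (R : ℕ) (hR : 1 ≤ R) (ε : ℝ) (hε : 0 < ε) : ∃ M : ℕ, ∀ {K : Type u} [Field K] [CharZero K]
    {E : Type v} [AddCommGroup E] [Module K E] {m : ℕ} (g : Fin m → E) (S : Finset (Fin m)),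
    (∀ i ∈ S, g i ≠ 0) → M ≤ S.card → ∀ (Q : Finset (Fin R)) (q0 q1 : Fin R), q0 ∉ Q → q1 ∈ Q →
    (((Finset.univ.filter (fun c : Fin m → Fin R => ∑ i ∈ cs c Q, g i = 0)).card : ℕ) : ℝ)
      ≤ ε * (R : ℝ) ^ m := by
  obtain ⟨h, hh⟩ := exists_nat_ge (1 / (ε / 2) ^ 2)
  have hh' : 1 ≤ (ε / 2) ^ 2 * (h : ℝ) := by
    rw [div_le_iff₀ (by positivity)] at hh
    linarith
  have hR' : (1 : ℝ) ≤ R := by exact_mod_cast hR
  have hb0 : 0 ≤ 1 - 1 / (2 * (R : ℝ)) := by
    have : 1 / (2 * (R : ℝ)) ≤ 1 := by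
      rw [div_le_one (by positivity)]
      linarith
    linarith
  have hb1 : 1 - 1 / (2 * (R : ℝ)) < 1 := by
    have : 0 < 1 / (2 * (R : ℝ)) := by positivity
    linarith
  obtain ⟨M, hM⟩ := exists_pow_lt_of_lt_one (show (0 : ℝ) < ε / 2 / 2 ^ h by positivity) hb1
  refine ⟨M, ?_⟩
  intro K _ _ E _ _ m g S hS hMS Q q0 q1 h0 h1
  have hq : q0 ≠ q1 := by
    rintro rfl
    exact h0 h1
  -- bad colourings
  have hbad := ct (m := m) hR {q0, q1} ⟨q0, Finset.mem_insert_self _ _⟩ S h
  have hbad2 : (2 : ℝ) ^ h * (1 - 1 / (2 * (R : ℝ))) ^ S.card ≤ ε / 2 := by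
    have h2 : (1 - 1 / (2 * (R : ℝ))) ^ S.card ≤ (1 - 1 / (2 * (R : ℝ))) ^ M :=
      pow_le_pow_of_le_one hb0 hb1.le hMS
    have h3 : (1 - 1 / (2 * (R : ℝ))) ^ S.card ≤ ε / 2 / 2 ^ h := h2.trans hM.le
    rw [le_div_iff₀ (by positivity)] at h3
    linarith
  -- good colourings
  have hgood : (((Finset.univ.filter (fun c : Fin m → Fin R => ∑ i ∈ cs c Q, g i = 0 ∧
        ¬ ((cs c {q0, q1}) ∩ S).card < h)).card : ℕ) : ℝ) ≤ ε / 2 * (R : ℝ) ^ m := by
    have h2 := Finset.card_eq_sum_card_fiberwise (f := cl_tau q0 q1)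
      (s := Finset.univ.filter (fun c : Fin m → Fin R => ∑ i ∈ cs c Q, g i = 0 ∧
        ¬ ((cs c {q0, q1}) ∩ S).card < h)) (t := Finset.univ.image (cl_tau q0 q1))
      (fun c _ => Finset.mem_coe.2 (Finset.mem_image_of_mem _ (Finset.mem_univ c)))
    have h3 := Finset.card_eq_sum_card_fiberwise (f := cl_tau q0 q1)
      (s := (Finset.univ : Finset (Fin m → Fin R))) (t := Finset.univ.image (cl_tau q0 q1))
      (fun c _ => Finset.mem_coe.2 (Finset.mem_image_of_mem _ (Finset.mem_univ c)))
    have h4 : (((Finset.univ : Finset (Fin m → Fin R)).card : ℕ) : ℝ) = (R : ℝ) ^ m := by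
      rw [Finset.card_univ, Fintype.card_fun, Fintype.card_fin, Fintype.card_fin]
      push_cast
      rfl
    rw [← h4, h2, h3]
    push_cast
    rw [Finset.mul_sum]
    refine Finset.sum_le_sum fun c' hc' => ?_
    obtain ⟨c0, _, rfl⟩ := Finset.mem_image.1 hc'
    exact cl_fiber (K := K) g S hS (ε / 2) (by positivity) h hh' Q q0 q1 h0 h1 _
      (cl_tau_ne hq c0)
  have hsplit : (Finset.univ.filter (fun c : Fin m → Fin R => ∑ i ∈ cs c Q, g i = 0)).card ≤
      (Finset.univ.filter (fun c : Fin m → Fin R => ((cs c {q0, q1}) ∩ S).card < h)).card +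
      (Finset.univ.filter (fun c : Fin m → Fin R => ∑ i ∈ cs c Q, g i = 0 ∧
        ¬ ((cs c {q0, q1}) ∩ S).card < h)).card := by
    refine (Finset.card_le_card ?_).trans (Finset.card_union_le _ _)
    intro c hc
    rw [Finset.mem_filter] at hc
    rw [Finset.mem_union, Finset.mem_filter, Finset.mem_filter]
    by_cases h5 : ((cs c {q0, q1}) ∩ S).card < h
    · exact Or.inl ⟨Finset.mem_univ _, h5⟩
    · exact Or.inr ⟨Finset.mem_univ _, hc.2, h5⟩
  have hsplit' : (((Finset.univ.filter (fun c : Fin m → Fin R => ∑ i ∈ cs c Q, g i = 0)).card : ℕ)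
      : ℝ) ≤
      (((Finset.univ.filter (fun c : Fin m → Fin R => ((cs c {q0, q1}) ∩ S).card < h)).card : ℕ)
        : ℝ) +
      (((Finset.univ.filter (fun c : Fin m → Fin R => ∑ i ∈ cs c Q, g i = 0 ∧
        ¬ ((cs c {q0, q1}) ∩ S).card < h)).card : ℕ) : ℝ) := by
    exact_mod_cast hsplit
  have hbad3 : (2 : ℝ) ^ h * (1 - 1 / (2 * (R : ℝ))) ^ S.card * (R : ℝ) ^ m ≤
      ε / 2 * (R : ℝ) ^ m := mul_le_mul_of_nonneg_right hbad2 (by positivity)
  have hbad4 : (((Finset.univ.filter (fun c : Fin m → Fin R =>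
      ((cs c {q0, q1}) ∩ S).card < h)).card : ℕ) : ℝ) ≤ ε / 2 * (R : ℝ) ^ m := by
    refine le_trans (le_of_eq ?_) (hbad.trans hbad3)
    congr 2
  linarith

end Pool.H91.HQ
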