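import Pool.Agent.H91.HQ.Defs

set_option autoImplicit false

/-!
Row DC (project MP_259062_HQ): counting zeros with levels.

PROOF of `deg_count`. Group the pairs by `z`: for fixed `z` the `s ∈ Icc 1 n` with `(X - C z)^(k*s) ∣ R` satisfy
`k * s ≤ R.rootMultiplicity z` (`Polynomial.le_rootMultiplicity_iff`), so their number times `k` is at most `rootMultiplicity z R`
(they lie in `Icc 1 (mult / k)`). `sum over z ∈ Z of rootMultiplicity z R ≤ card of the multiset of roots ≤ natDegree R`
(`Polynomial.count_roots`, `Multiset.toFinset_sum_count_le`-like: `sum over z ∈ Z of count z R.roots ≤ card R.roots`;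
`Polynomial.card_roots'`).
PROOF of `mass_one`. `K` algebraically closed, so `f` splits and `card (f.roots) = natDegree f = n`
(`IsAlgClosed.card_roots_eq...`, `splits_iff_card_roots`). For fixed `z ∈ Z` the `s ∈ Icc 1 n` with `(X - C z)^s ∣ f` are exactly
`1 ≤ s ≤ rootMultiplicity z f` (which is `≤ n`), number `count z f.roots`. Sum over `z ∈ Z ⊇ f.roots.toFinset` gives `card f.roots = n`.
PROOF of `wr_dvd`. `p = h u`, `q = h v` with `h = (X - C z)^k`: `wr (h u) (h v) = h^2 * wr u v` and `h^2 = (X - C z)^(2k)`.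
PROOF of `wr_deg`. `natDegree (p * q') ≤ 2n + 2n`.
-/

namespace Pool.H91.HQ

open Polynomial Finset

universe u

open Classical in
theorem dc_card {K : Type u} [Field K] (Z : Finset K) (n : ℕ) (P : K → ℕ → Prop) :
    ((Z ×ˢ Icc 1 n).filter (fun p : K × ℕ => P p.1 p.2)).card =
      ∑ z ∈ Z, ((Icc 1 n).filter (fun s => P z s)).card := by
  rw [card_filter, sum_product]
  refine sum_congr rfl fun z _ => ?_
  rw [card_filter]

open Classical in
theorem deg_count {K : Type u} [Field K] (R : K[X]) (hR : R ≠ 0) (Z : Finset K) (n k : ℕ) (hk : 1 ≤ k) :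
    k * ((Z ×ˢ Icc 1 n).filter (fun p : K × ℕ => (X - C p.1) ^ (k * p.2) ∣ R)).card ≤ R.natDegree := by
  rw [dc_card Z n (fun z s => (X - C z) ^ (k * s) ∣ R), mul_sum]
  have h1 : ∀ z ∈ Z, k * ((Icc 1 n).filter (fun s => (X - C z) ^ (k * s) ∣ R)).card ≤
      R.roots.count z := by
    intro z _
    rw [count_roots]
    have h2 : ((Icc 1 n).filter (fun s => (X - C z) ^ (k * s) ∣ R)) ⊆
        Icc 1 (rootMultiplicity z R / k) := by
      intro s hs
      rw [mem_filter, mem_Icc] at hs
      rw [mem_Icc]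
      refine ⟨hs.1.1, ?_⟩
      rw [Nat.le_div_iff_mul_le (by omega), mul_comm]
      exact (le_rootMultiplicity_iff hR).2 hs.2
    have h3 := card_le_card h2
    rw [Nat.card_Icc, Nat.add_sub_cancel] at h3
    calc k * ((Icc 1 n).filter (fun s => (X - C z) ^ (k * s) ∣ R)).card
        ≤ k * (rootMultiplicity z R / k) := Nat.mul_le_mul_left k h3
      _ ≤ rootMultiplicity z R := Nat.mul_div_le _ _
  calc ∑ z ∈ Z, k * ((Icc 1 n).filter (fun s => (X - C z) ^ (k * s) ∣ R)).card
      ≤ ∑ z ∈ Z, R.roots.count z := sum_le_sum h1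
    _ ≤ ∑ z ∈ Z ∪ R.roots.toFinset, R.roots.count z :=
        sum_le_sum_of_subset (subset_union_left)
    _ = Multiset.card R.roots := by
        refine Multiset.sum_count_eq_card fun a ha => ?_
        exact mem_union_right _ (Multiset.mem_toFinset.2 ha)
    _ ≤ R.natDegree := card_roots' R

open Classical in
theorem mass_one {K : Type u} [Field K] [IsAlgClosed K] (f : K[X]) (hf : f ≠ 0) (Z : Finset K)
    (hZ : f.roots.toFinset ⊆ Z) (n : ℕ) (hn : f.natDegree = n) :
    ((Z ×ˢ Icc 1 n).filter (fun p : K × ℕ => (X - C p.1) ^ p.2 ∣ f)).card = n := by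
  rw [dc_card Z n (fun z s => (X - C z) ^ s ∣ f)]
  have h1 : ∀ z ∈ Z, ((Icc 1 n).filter (fun s => (X - C z) ^ s ∣ f)).card =
      f.roots.count z := by
    intro z _
    rw [count_roots]
    have h0 : rootMultiplicity z f ≤ n := by
      rw [← count_roots, ← hn]
      exact (Multiset.count_le_card z f.roots).trans (card_roots' f)
    have h2 : ((Icc 1 n).filter (fun s => (X - C z) ^ s ∣ f)) =
        Icc 1 (rootMultiplicity z f) := by
      ext s
      rw [mem_filter, mem_Icc, mem_Icc, ← le_rootMultiplicity_iff hf]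
      constructor
      · rintro ⟨⟨h3, _⟩, h4⟩
        exact ⟨h3, h4⟩
      · rintro ⟨h3, h4⟩
        exact ⟨⟨h3, h4.trans h0⟩, h4⟩
    rw [h2, Nat.card_Icc, Nat.add_sub_cancel]
  rw [sum_congr rfl h1]
  rw [Multiset.sum_count_eq_card fun a ha => hZ (Multiset.mem_toFinset.2 ha)]
  rw [← hn]
  exact (IsAlgClosed.splits f).natDegree_eq_card_roots.symm

theorem wr_dvd {K : Type u} [Field K] (p q : K[X]) (z : K) (k : ℕ) (hp : (X - C z) ^ k ∣ p)
    (hq : (X - C z) ^ k ∣ q) : (X - C z) ^ (2 * k) ∣ wr p q := by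
  obtain ⟨u, rfl⟩ := hp
  obtain ⟨v, rfl⟩ := hq
  refine ⟨wr u v, ?_⟩
  unfold wr
  rw [derivative_mul, derivative_mul, mul_comm 2 k, pow_mul]
  ring

theorem wr_deg {K : Type u} [Field K] (p q : K[X]) (n : ℕ) (hp : p.natDegree ≤ 2 * n)
    (hq : q.natDegree ≤ 2 * n) : (wr p q).natDegree ≤ 4 * n := by
  unfold wr
  have h1 := natDegree_derivative_le p
  have h2 := natDegree_derivative_le q
  have h3 := natDegree_mul_le (p := p) (q := derivative q)
  have h4 := natDegree_mul_le (p := q) (q := derivative p)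
  refine (natDegree_sub_le _ _).trans (max_le ?_ ?_) <;> omega

end Pool.H91.HQ
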