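import Mathlib

set_option autoImplicit false

/-!
Definitions for project MP_259062_HQ (Hilbert cubes in the squares of a rational function field).

A cube of dimension `m` in `K[X]`: base `a`, generators `b i`; the vertex of `V` (a finite set of indices)
is `a + sum over V of b i`, and `f V ^ 2` is that vertex.
-/

namespace Pool.H91.HQ

open Polynomial Finset

universe u

/-- Wronskian of two polynomials. -/
noncomputable def wr {K : Type u} [Field K] (p q : K[X]) : K[X] :=
  p * derivative q - q * derivative p

/-- Change of the vertex sum when the coordinates of `W` are flipped, starting from the vertex `V`. -/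
noncomputable def fs {K : Type u} [Field K] {m : ℕ} (b : Fin m → K[X]) (V W : Finset (Fin m)) : K[X] :=
  ∑ i ∈ W, (if i ∈ V then -(b i) else b i)

/-- Normalised cube: all nonzero `f V` have degree exactly `n ≥ 1`, no common root of all `f V`,
pairwise non proportional generators. -/
structure NC {K : Type u} [Field K] (m n : ℕ) (a : K[X]) (b : Fin m → K[X])
    (f : Finset (Fin m) → K[X]) : Prop where
  sq : ∀ V, f V ^ 2 = a + ∑ i ∈ V, b i
  deg : ∀ V, f V ≠ 0 → (f V).natDegree = n
  com : ∀ z : K, ∃ V, ¬ (X - C z) ∣ f V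
  wne : ∀ i j, i ≠ j → wr (b i) (b j) ≠ 0
  pos : 1 ≤ n

open Classical in
/-- All pairs `(z, s)`, `z` a root of some nonzero `f V`, `1 ≤ s ≤ n`. -/
noncomputable def Pts {K : Type u} [Field K] {m : ℕ} (f : Finset (Fin m) → K[X]) (n : ℕ) :
    Finset (K × ℕ) :=
  (univ.biUnion (fun V => (f V).roots.toFinset)) ×ˢ Icc 1 n

open Classical in
/-- Vertices `V` with `f V ≠ 0` divisible by `(X - z)^s`. -/
noncomputable def Iv {K : Type u} [Field K] {m : ℕ} (f : Finset (Fin m) → K[X]) (p : K × ℕ) :
    Finset (Finset (Fin m)) :=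
  univ.filter (fun V => f V ≠ 0 ∧ (X - C p.1) ^ p.2 ∣ f V)

open Classical in
/-- Indices `i` with `b i` not divisible by `(X - z)^(2s)`. -/
noncomputable def Sv {K : Type u} [Field K] {m : ℕ} (b : Fin m → K[X]) (p : K × ℕ) :
    Finset (Fin m) :=
  univ.filter (fun i => ¬ (X - C p.1) ^ (2 * p.2) ∣ b i)

/-- The indices whose colour lies in `Q`. -/
def cs {m R : ℕ} (c : Fin m → Fin R) (Q : Finset (Fin R)) : Finset (Fin m) :=
  univ.filter (fun i => c i ∈ Q)

/-- The sets of colours that do not contain colour `0`. -/
def QQ (R : ℕ) [NeZero R] : Finset (Finset (Fin R)) := univ.filter (fun Q => (0 : Fin R) ∉ Q)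

open Classical in
/-- Number of `(z, s)` hit by the random subcube `(V, c)`: its vertices are the
`symmDiff V (cs c Q)`, `Q` in `QQ R`. -/
noncomputable def hit {K : Type u} [Field K] {m R : ℕ} [NeZero R] (f : Finset (Fin m) → K[X]) (n : ℕ)
    (V : Finset (Fin m)) (c : Fin m → Fin R) : ℕ :=
  ((Pts f n).filter (fun p => ∃ Q ∈ QQ R, symmDiff V (cs c Q) ∈ Iv f p)).card

/-- Functions on the plane `F × F` of difference degree at most `g`. -/
def PF {F : Type u} [Field F] : ℕ → (F × F → F) → Prop
  | 0, h => ∃ c, ∀ x, h x = c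
  | g + 1, h => ∀ p q : F × F, PF g (fun y => h (p + y) - h (q + y))

/-- Functions on the plane whose restriction to every line is a polynomial in the parameter. -/
def LP {F : Type u} [Field F] (h : F × F → F) : Prop :=
  ∀ x v : F × F, ∃ P : F[X], ∀ t : F, h (x + t • v) = P.eval t

end Pool.H91.HQ
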