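import Pool.Agent.H91.HQ.VA
import Pool.Agent.H91.HQ.AU
import Pool.Agent.H91.HQ.AC

set_option autoImplicit false

/-!
Row FX (project MP_259062_HQ): for a fixed colouring with many indices of colour `0` only few `V` hit many zeros.

PROOF. `E = 1024`, `H = 4097`, `#(QQ 19) = 2^18 = 262144`, so `#(QQ 19) * (H + 4E) = 262144 * 8193 < 1024^2 * 4097`.
`L` from `ac (2*1024) (1/50)` with `F = RatFunc K` (or `FractionRing K[X]`; it is a field of characteristic zero in the same universe).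
Let `U = cs c {0}`. Fix `A ⊆ univ \ U`. `aux_poly` with `T = QQ 19`, `σ Q = -(fs b A (cs c Q))` (`nc_fsdeg`, `natDegree_neg`) gives `G`.
Let `V` have `V \ U = A` and `262144 * n ≤ 22 * hit f n V c`. For `Q ∈ QQ 19` the set `cs c Q` is disjoint from `U`, so
`fs b V (cs c Q) = fs b A (cs c Q)` (`i ∈ V ↔ i ∈ A` for `i ∉ U`). `(H+4E) n = 8193 n < hit` (`22 * 8193 < 262144`, `n ≥ 1`). `va` gives
`sum G i j (f V ^ 2)^i (derivative (f V^2))^j = 0`, and `f V ^ 2 = (a + sum over A of b) + sum over V ∩ U of b`.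
Map to `F` by `φ = algebraMap K[X] F` (injective): `e i = (φ (b i), φ (derivative (b i)))`, `hpar`: `φ (wr (b i) (b j)) ≠ 0`;
`v = (φ (a + sum_A b), φ (derivative ..))`; `hfun x = sum φ (G i j) x.1^i x.2^j`, which is in `PF (2*1024)` (`pf_poly`), `LP` (`lp_poly`),
not identically zero (`poly_ne`). So `hfun (v + sum over W of e) = 0` for `W = V ∩ U`. By `ac` at most `2^#U / 50` sets `W ⊆ U`, and
`V ↦ V ∩ U` is injective on `{V | V \ U = A}`. Sum over the `2^(m - #U)` sets `A` (`Finset.card_eq_sum_card_fiberwise` for `V ↦ V \ U`).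
-/

namespace Pool.H91.HQ

open Polynomial Finset

universe u

theorem fx_card : (QQ 19).card = 262144 := by
  have h : QQ 19 = ((univ : Finset (Fin 19)).erase 0).powerset := by
    ext Q
    rw [QQ, mem_filter, mem_powerset]
    constructor
    · rintro ⟨_, h⟩ x hx
      rw [mem_erase]
      refine ⟨?_, mem_univ _⟩
      rintro rfl
      exact h hx
    · intro h
      refine ⟨mem_univ _, fun h0 => ?_⟩
      exact (mem_erase.1 (h h0)).1 rfl
  rw [h, card_powerset, card_erase_of_mem (mem_univ _), card_univ, Fintype.card_fin]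
  norm_num

theorem fx_fs {K : Type u} [Field K] {m : ℕ} (b : Fin m → K[X]) (V : Finset (Fin m))
    (c : Fin m → Fin 19) (Q : Finset (Fin 19)) (hQ : Q ∈ QQ 19) :
    fs b V (cs c Q) = fs b (V \ cs c {0}) (cs c Q) := by
  unfold fs
  refine sum_congr rfl fun i hi => ?_
  rw [cs, mem_filter] at hi
  rw [QQ, mem_filter] at hQ
  have h1 : i ∉ cs c {0} := by
    rw [cs, mem_filter, mem_singleton]
    rintro ⟨_, h⟩
    rw [h] at hi
    exact hQ.2 hi.2
  have h2 : i ∈ V \ cs c {0} ↔ i ∈ V := by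
    rw [mem_sdiff]
    exact ⟨fun h => h.1, fun h => ⟨h, h1⟩⟩
  by_cases h3 : i ∈ V
  · rw [if_pos h3, if_pos (h2.2 h3)]
  · rw [if_neg h3, if_neg (fun h => h3 (h2.1 h))]

theorem fx_eval {R S : Type*} [CommRing R] [CommRing S] (φ : R →+* S) (E : ℕ)
    (G : Fin E → Fin E → R) (x y : R) :
    φ (∑ i : Fin E, ∑ j : Fin E, G i j * x ^ (i : ℕ) * y ^ (j : ℕ)) =
      ∑ i : Fin E, ∑ j : Fin E, φ (G i j) * φ x ^ (i : ℕ) * φ y ^ (j : ℕ) := by
  rw [map_sum]
  refine sum_congr rfl fun i _ => ?_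
  rw [map_sum]
  refine sum_congr rfl fun j _ => ?_
  rw [map_mul, map_mul, map_pow, map_pow]

theorem fx_pair {R S : Type*} [AddCommGroup R] [AddCommGroup S] {m : ℕ} (W : Finset (Fin m))
    (x : R) (y : S) (g : Fin m → R) (k : Fin m → S) :
    ((x, y) + ∑ i ∈ W, (g i, k i)).1 = x + ∑ i ∈ W, g i ∧
      ((x, y) + ∑ i ∈ W, (g i, k i)).2 = y + ∑ i ∈ W, k i := by
  rw [Prod.fst_add, Prod.snd_add, Prod.fst_sum, Prod.snd_sum]
  exact ⟨rfl, rfl⟩

theorem fx_ac : ∃ L : ℕ, ∀ {F : Type u} [Field F] [CharZero F] {m : ℕ}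
    (e : Fin m → F × F), (∀ i j, i ≠ j → (e i).1 * (e j).2 - (e i).2 * (e j).1 ≠ 0) →
    ∀ U : Finset (Fin m), L ≤ U.card → ∀ h : F × F → F, PF (2 * 1024) h → LP h →
    (∃ x, h x ≠ 0) → ∀ (v : F × F) (S : Finset (Finset (Fin m))),
    (∀ W ∈ S, W ⊆ U ∧ h (v + ∑ i ∈ W, e i) = 0) →
    ((S.card : ℕ) : ℝ) ≤ (1 / 50 : ℝ) * 2 ^ U.card := by
  obtain ⟨L, hL⟩ := ac.{u} (2 * 1024) (1 / 50) (by norm_num)
  refine ⟨L, ?_⟩
  intro F _ _ m e hpar U hU h hpf hlp hne v S hS
  refine (Nat.cast_le.2 (card_le_card ?_)).trans (hL e hpar U hU h hpf hlp hne v)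
  intro W hW
  simp only [Finset.mem_filter, Finset.mem_powerset]
  exact hS W hW

theorem fx_fiber {K : Type u} [Field K] [CharZero K]
    {m n : ℕ} {a : K[X]} {b : Fin m → K[X]} {f : Finset (Fin m) → K[X]} (h : NC m n a b f)
    (c : Fin m → Fin 19) (A : Finset (Fin m)) (L : ℕ)
    (hL : ∀ {F : Type u} [Field F] [CharZero F] {m : ℕ}
      (e : Fin m → F × F), (∀ i j, i ≠ j → (e i).1 * (e j).2 - (e i).2 * (e j).1 ≠ 0) →
      ∀ U : Finset (Fin m), L ≤ U.card → ∀ h : F × F → F, PF (2 * 1024) h → LP h →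
      (∃ x, h x ≠ 0) → ∀ (v : F × F) (S : Finset (Finset (Fin m))),
      (∀ W ∈ S, W ⊆ U ∧ h (v + ∑ i ∈ W, e i) = 0) →
      ((S.card : ℕ) : ℝ) ≤ (1 / 50 : ℝ) * 2 ^ U.card)
    (hU : L ≤ (cs c {0}).card) :
    ((((univ.filter (fun V : Finset (Fin m) => 262144 * n ≤ 22 * hit f n V c)).filter
      (fun V => V \ cs c {0} = A)).card : ℕ) : ℝ) ≤ (1 / 50 : ℝ) * 2 ^ (cs c {0}).card := by
  have hpos := h.pos
  obtain ⟨G, ⟨i0, j0, hG0⟩, hGd, hGz⟩ := aux_poly (QQ 19) (fun Q => -(fs b A (cs c Q))) n 1024 4097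
    hpos (fun Q _ => by rw [natDegree_neg]; exact nc_fsdeg h _ _) (by rw [fx_card]; norm_num)
  have hinj : Function.Injective (algebraMap K[X] (FractionRing K[X])) :=
    IsFractionRing.injective K[X] (FractionRing K[X])
  have hcz : CharZero (FractionRing K[X]) := charZero_of_injective_algebraMap hinj
  obtain ⟨φ, hφ⟩ : ∃ φ : K[X] →+* FractionRing K[X], φ = algebraMap K[X] (FractionRing K[X]) :=
    ⟨_, rfl⟩
  rw [← hφ] at hinj
  obtain ⟨hf, hfe⟩ : ∃ hf : FractionRing K[X] × FractionRing K[X] → FractionRing K[X],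
      ∀ x, hf x = ∑ i : Fin 1024, ∑ j : Fin 1024,
        φ (G i j) * x.1 ^ (i : ℕ) * x.2 ^ (j : ℕ) := ⟨_, fun _ => rfl⟩
  have hfe2 : hf = fun x => ∑ i : Fin 1024, ∑ j : Fin 1024,
        φ (G i j) * x.1 ^ (i : ℕ) * x.2 ^ (j : ℕ) := funext hfe
  have hpf : PF (2 * 1024) hf := by
    rw [hfe2]
    exact pf_poly 1024 fun i j => φ (G i j)
  have hlp : LP hf := by
    rw [hfe2]
    exact lp_poly 1024 fun i j => φ (G i j)
  have hne : ∃ x, hf x ≠ 0 := by
    rw [hfe2]
    exact poly_ne 1024 (fun i j => φ (G i j)) i0 j0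
      (fun h3 => hG0 (hinj (by rw [h3, map_zero])))
  have key := hL (F := FractionRing K[X])
    (fun i => (φ (b i), φ (derivative (b i))))
    (by
      intro i j hij
      have h1 := h.wne i j hij
      have h2 : φ (wr (b i) (b j)) ≠ 0 := by
        intro h3
        exact h1 (hinj (by rw [h3, map_zero]))
      intro h3
      apply h2
      rw [wr, map_sub, map_mul, map_mul]
      simp only at h3
      rw [← h3]
      ring)
    (cs c {0}) hU hf hpf hlp hne
    (φ (a + ∑ i ∈ A, b i), φ (derivative (a + ∑ i ∈ A, b i)))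
    (((univ.filter (fun V : Finset (Fin m) => 262144 * n ≤ 22 * hit f n V c)).filter
      (fun V => V \ cs c {0} = A)).image (fun V => V ∩ cs c {0}))
    (by
      intro W hW
      rw [mem_image] at hW
      obtain ⟨V, hV, rfl⟩ := hW
      rw [mem_filter, mem_filter] at hV
      obtain ⟨⟨_, hV1⟩, hV2⟩ := hV
      refine ⟨inter_subset_right, ?_⟩
      have h1 := va h 1024 4097 G hGd V c (by
        intro Q hQ
        rw [fx_fs b V c Q hQ, hV2]
        exact hGz Q hQ) (by omega)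
      have h2 : f V ^ 2 = (a + ∑ i ∈ A, b i) + ∑ i ∈ V ∩ cs c {0}, b i := by
        have h4 := Finset.sum_inter_add_sum_sdiff V (cs c {0}) b
        rw [h.sq, ← h4, hV2]
        ring
      obtain ⟨p1, p2⟩ := fx_pair (V ∩ cs c {0}) (φ (a + ∑ i ∈ A, b i))
        (φ (derivative (a + ∑ i ∈ A, b i))) (fun i => φ (b i)) (fun i => φ (derivative (b i)))
      rw [hfe, p1, p2, ← map_sum, ← map_sum, ← map_add, ← map_add, ← derivative_sum,
        ← derivative_add, ← h2, ← fx_eval, h1, map_zero])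
  rw [card_image_of_injOn] at key
  · exact key
  · intro V hV V' hV' hVV
    rw [Finset.mem_coe, mem_filter] at hV hV'
    have hVV' : V ∩ cs c {0} = V' ∩ cs c {0} := hVV
    rw [← Finset.sdiff_union_inter V (cs c {0}), ← Finset.sdiff_union_inter V' (cs c {0}), hV.2,
      hV'.2, hVV']

theorem fx : ∃ L : ℕ, ∀ {K : Type u} [Field K] [CharZero K]
    {m n : ℕ} {a : K[X]} {b : Fin m → K[X]} {f : Finset (Fin m) → K[X]}, NC m n a b f →
    ∀ c : Fin m → Fin 19, L ≤ (cs c {0}).card →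
    (((univ.filter (fun V : Finset (Fin m) => 262144 * n ≤ 22 * hit f n V c)).card : ℕ) : ℝ) ≤ 2 ^ m / 50 := by
  obtain ⟨L, hL⟩ := fx_ac.{u}
  refine ⟨L, ?_⟩
  intro K _ _ m n a b f h c hU
  rw [Finset.card_eq_sum_card_fiberwise (f := fun V => V \ cs c {0})
    (t := (univ \ cs c {0}).powerset) (fun V _ => by
      rw [Finset.mem_coe, mem_powerset]
      exact sdiff_subset_sdiff (subset_univ _) (Finset.Subset.refl _))]
  rw [Nat.cast_sum]
  refine (sum_le_sum fun A _ => fx_fiber h c A L hL hU).trans ?_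
  rw [sum_const, card_powerset, nsmul_eq_mul, Nat.cast_pow, Nat.cast_ofNat]
  have h1 : (univ \ cs c {0}).card + (cs c {0}).card = m := by
    have h2 := Finset.card_sdiff_add_card_eq_card (Finset.subset_univ (cs c {0}))
    rw [h2, card_univ, Fintype.card_fin]
  have h3 : (2 : ℝ) ^ m = 2 ^ (univ \ cs c {0}).card * 2 ^ (cs c {0}).card := by
    rw [← pow_add, h1]
  rw [h3]
  apply le_of_eq
  ring

end Pool.H91.HQ
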