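import Pool.Agent.H91.HQ.PR

set_option autoImplicit false

/-!
Row GC (project MP_259062_HQ): remove common roots.

PROOF. Induction on `n` (for all `a`, `b`, `f`). `b i ≠ 0` for all `i` because `m ≥ 2` and `hw`.
Case A: some `z` has `(X - C z) ∣ f V` for all `V`. Write `f V = (X - C z) * g V`. `a = f ∅ ^ 2 = (X - C z)^2 a'`,
`b i = f {i} ^ 2 - f ∅ ^ 2 = (X - C z)^2 b' i`, and cancelling `(X - C z)^2 ≠ 0` in `hsq`: `g V ^ 2 = a' + sum over V of b'`.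
If `g V ≠ 0` then `natDegree (g V) = n - 1`, and `n ≥ 1` since some `f V ≠ 0` (`f {i}` or `f ∅`, as `b i ≠ 0`) is divisible by `X - C z`.
`wr (b i) (b j) = (X - C z)^4 * wr (b' i) (b' j)` (`wr_mul`), so the latter is nonzero. Apply the induction hypothesis to `n - 1`.
Case B: no such `z`: `NC m n a b f` holds once `n ≥ 1`: if `n = 0` all `f V` are constant polynomials, so `b i`, `b j` are
constants and `wr (b i) (b j) = 0` for two different indices: contradiction.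
-/

namespace Pool.H91.HQ

open Polynomial

universe u

theorem gc_b {K : Type u} [Field K] {m : ℕ} (a : K[X]) (b : Fin m → K[X])
    (f : Finset (Fin m) → K[X]) (hsq : ∀ V, f V ^ 2 = a + ∑ i ∈ V, b i) (i : Fin m) :
    b i = f {i} ^ 2 - f ∅ ^ 2 := by
  rw [hsq {i}, hsq ∅, Finset.sum_singleton, Finset.sum_empty, add_zero, add_sub_cancel_left]

theorem gc_pos {K : Type u} [Field K] {m : ℕ} (hm : 2 ≤ m) (n : ℕ) (a : K[X])
    (b : Fin m → K[X]) (f : Finset (Fin m) → K[X]) (hsq : ∀ V, f V ^ 2 = a + ∑ i ∈ V, b i)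
    (hdeg : ∀ V, f V ≠ 0 → (f V).natDegree = n)
    (hw : ∀ i j, i ≠ j → wr (b i) (b j) ≠ 0) : 1 ≤ n := by
  by_contra hn
  have hn0 : n = 0 := by omega
  subst hn0
  have h1 : ∀ V, ∃ c : K, f V = C c := by
    intro V
    by_cases h0 : f V = 0
    · exact ⟨0, by rw [h0, C_0]⟩
    · exact ⟨_, eq_C_of_natDegree_eq_zero (hdeg V h0)⟩
  have h2 : ∀ i, ∃ c : K, b i = C c := by
    intro i
    obtain ⟨x, hx⟩ := h1 {i}
    obtain ⟨y, hy⟩ := h1 ∅
    refine ⟨x ^ 2 - y ^ 2, ?_⟩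
    rw [gc_b a b f hsq i, hx, hy, C_sub, C_pow, C_pow]
  obtain ⟨x, hx⟩ := h2 ⟨0, by omega⟩
  obtain ⟨y, hy⟩ := h2 ⟨1, by omega⟩
  apply hw ⟨0, by omega⟩ ⟨1, by omega⟩ (by simp)
  rw [hx, hy, wr, derivative_C, derivative_C, mul_zero, mul_zero, sub_zero]

theorem gc_step {K : Type u} [Field K] {m : ℕ} (n : ℕ) (a : K[X])
    (b : Fin m → K[X]) (f : Finset (Fin m) → K[X]) (hsq : ∀ V, f V ^ 2 = a + ∑ i ∈ V, b i)
    (hdeg : ∀ V, f V ≠ 0 → (f V).natDegree = n + 1)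
    (hw : ∀ i j, i ≠ j → wr (b i) (b j) ≠ 0) (z : K) (hz : ∀ V, (X - C z) ∣ f V) :
    ∃ (a' : K[X]) (b' : Fin m → K[X]) (g : Finset (Fin m) → K[X]),
      (∀ V, g V ^ 2 = a' + ∑ i ∈ V, b' i) ∧ (∀ V, g V ≠ 0 → (g V).natDegree = n) ∧
      (∀ i j, i ≠ j → wr (b' i) (b' j) ≠ 0) := by
  choose g hg using hz
  have hπ : (X - C z : K[X]) ≠ 0 := X_sub_C_ne_zero z
  have hb' : ∀ i, b i = (X - C z) ^ 2 * (g {i} ^ 2 - g ∅ ^ 2) := by
    intro i
    rw [gc_b a b f hsq i, hg {i}, hg ∅]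
    ring
  refine ⟨g ∅ ^ 2, fun i => g {i} ^ 2 - g ∅ ^ 2, g, ?_, ?_, ?_⟩
  · intro V
    have h1 := hsq V
    have h2 : a = (X - C z) ^ 2 * g ∅ ^ 2 := by
      have h3 := hsq ∅
      rw [Finset.sum_empty, add_zero] at h3
      rw [← h3, hg ∅]
      ring
    simp only [hb'] at h1
    rw [← Finset.mul_sum, hg V, h2, ← mul_add, mul_pow] at h1
    exact mul_left_cancel₀ (pow_ne_zero 2 hπ) h1
  · intro V hV
    have h1 : f V ≠ 0 := by
      rw [hg V]
      exact mul_ne_zero hπ hV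
    have h2 := hdeg V h1
    rw [hg V, natDegree_mul hπ hV, natDegree_X_sub_C] at h2
    omega
  · intro i j hij h0
    apply hw i j hij
    rw [hb' i, hb' j, wr_mul, h0, mul_zero]

theorem gcom {K : Type u} [Field K] [CharZero K] {m : ℕ} (hm : 2 ≤ m) (n : ℕ) (a : K[X]) (b : Fin m → K[X])
    (f : Finset (Fin m) → K[X]) (hsq : ∀ V, f V ^ 2 = a + ∑ i ∈ V, b i)
    (hdeg : ∀ V, f V ≠ 0 → (f V).natDegree = n)
    (hw : ∀ i j, i ≠ j → wr (b i) (b j) ≠ 0) :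
    ∃ (n' : ℕ) (a' : K[X]) (b' : Fin m → K[X]) (f' : Finset (Fin m) → K[X]), NC m n' a' b' f' := by
  induction n generalizing a b f with
  | zero =>
    have h1 := gc_pos hm 0 a b f hsq hdeg hw
    omega
  | succ n ih =>
    by_cases hz : ∃ z : K, ∀ V, (X - C z) ∣ f V
    · obtain ⟨z, hz⟩ := hz
      obtain ⟨a', b', g, h1, h2, h3⟩ := gc_step n a b f hsq hdeg hw z hz
      exact ih a' b' g h1 h2 h3
    · push Not at hz
      exact ⟨n + 1, a, b, f, hsq, hdeg, hz, hw, by omega⟩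

end Pool.H91.HQ
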