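import Mathlib

set_option autoImplicit false

/-!
Row HC (project MP_259062_HQ): the property that the squares of `L` contain a Hilbert cube of dimension `d`.

PROOF.
* `hasCube_map`: a ring homomorphism of fields is injective, maps squares to squares.
* `hasCube_int`: (→) given a cube over `ℚ` of dimension `d`, let `N > 0` be a natural number with `N a`, `N b i` integers (product of the denominators).
  `N^2 a`, `N^2 b i` are integers `A`, `B i`, `B i ≠ 0`; the vertex `A + sum` is `N^2` times the square of a rational, so it is an integer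
  which is the square of a rational number, hence the square of an integer (`Rat.isSquare_intCast_iff`). (←) cast (`IsSquare.map`).
-/

namespace Pool.H91.HQ

open Finset

universe u v

/-- The squares of the field `L` contain a Hilbert cube of dimension `d` with nonzero generators. -/
def HasCube (L : Type u) [Field L] (d : ℕ) : Prop :=
  ∃ (a : L) (b : Fin d → L), (∀ i, b i ≠ 0) ∧ ∀ V : Finset (Fin d), IsSquare (a + ∑ i ∈ V, b i)

theorem hasCube_map {L : Type u} {M : Type v} [Field L] [Field M] (φ : L →+* M) {d : ℕ}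
    (h : HasCube L d) : HasCube M d := by
  obtain ⟨a, b, hb, h⟩ := h
  refine ⟨φ a, fun i => φ (b i), fun i => (map_ne_zero φ).2 (hb i), fun V => ?_⟩
  have h1 := (h V).map φ
  rwa [map_add, map_sum] at h1

private theorem clear_den (q : ℚ) (N : ℕ) (h : q.den ∣ N) : ∃ z : ℤ, (z : ℚ) = (N : ℚ) * q := by
  obtain ⟨c, rfl⟩ := h
  refine ⟨q.num * (c : ℤ), ?_⟩
  push_cast
  rw [← Rat.mul_den_eq_num q]
  ring

theorem hasCube_int (d : ℕ) : HasCube ℚ d ↔
    ∃ (a : ℤ) (b : Fin d → ℤ), (∀ i, b i ≠ 0) ∧ ∀ V : Finset (Fin d), IsSquare (a + ∑ i ∈ V, b i) := by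
  constructor
  · rintro ⟨a, b, hb, h⟩
    set N : ℕ := a.den * ∏ i, (b i).den with hN
    have hN0 : N ≠ 0 := by
      rw [hN]
      exact mul_ne_zero a.den_ne_zero (Finset.prod_ne_zero_iff.2 fun i _ => (b i).den_ne_zero)
    have hNq : (N : ℚ) ≠ 0 := Nat.cast_ne_zero.2 hN0
    obtain ⟨z, hz⟩ := clear_den a N (Dvd.intro _ rfl)
    have hbd : ∀ i, ∃ w : ℤ, (w : ℚ) = (N : ℚ) * b i := fun i =>
      clear_den (b i) N (Dvd.dvd.mul_left (Finset.dvd_prod_of_mem _ (Finset.mem_univ i)) _)
    choose w hw using hbd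
    refine ⟨N * z, fun i => N * w i, fun i => ?_, fun V => ?_⟩
    · have h1 : (w i : ℚ) ≠ 0 := by
        rw [hw i]
        exact mul_ne_zero hNq (hb i)
      exact mul_ne_zero (by exact_mod_cast hN0) (by exact_mod_cast h1)
    · rw [← Rat.isSquare_intCast_iff]
      obtain ⟨r, hr⟩ := h V
      refine ⟨(N : ℚ) * r, ?_⟩
      push_cast
      have h2 : ∑ i ∈ V, ((N : ℚ) * (w i : ℚ)) = (N : ℚ) ^ 2 * ∑ i ∈ V, b i := by
        rw [Finset.mul_sum]
        refine Finset.sum_congr rfl fun i _ => ?_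
        rw [hw i]
        ring
      rw [h2, hz]
      calc (N : ℚ) * ((N : ℚ) * a) + (N : ℚ) ^ 2 * ∑ i ∈ V, b i
          = (N : ℚ) ^ 2 * (a + ∑ i ∈ V, b i) := by ring
        _ = (N : ℚ) ^ 2 * (r * r) := by rw [hr]
        _ = (N : ℚ) * r * ((N : ℚ) * r) := by ring
  · rintro ⟨a, b, hb, h⟩
    refine ⟨(a : ℚ), fun i => (b i : ℚ), fun i => Int.cast_ne_zero.2 (hb i), fun V => ?_⟩
    have h1 := (h V).map (Int.castRingHom ℚ)
    simpa using h1

end Pool.H91.HQ
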