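import Pool.Agent.H91.HQ.CB

set_option autoImplicit false

/-!
Row LO (project MP_259062_HQ): Littlewood-Offord in vector spaces of characteristic zero (Sperner).

PROOF. Make `E` a vector space over `ℚ` (`Module.compHom E (algebraMap ℚ K)`, with `DivisionRing.toRatAlgebra`; scalars
commute with everything needed, only additivity is used). By `Module.exists_dual_forall_apply_ne_zero` (over `ℚ`, index type
`S`) there is a `ℚ`-linear `L : E → ℚ` with `L (g i) ≠ 0` for `i ∈ S`. Let `N = {i ∈ S | L (g i) < 0}`.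
Fix the part `T` of `W` outside `S`: `W = T ∪ W'`, `W' ⊆ S`. For fixed `T` the family
`A_T = {symmDiff W' N | W' ⊆ S, sum over T ∪ W' of g = x}` is an antichain of subsets of `S`: if `symmDiff W1 N ⊂ symmDiff W2 N`
then `L (sum W2) - L (sum W1) = sum over (symmDiff W2 N \ symmDiff W1 N) of |L (g i)| > 0` (for each `i ∈ S`:
`[i ∈ W] L(g i) = [i ∈ symmDiff W N] |L (g i)| + [i ∈ N] L (g i)`), but both sums are `x - sum over T`.
By `IsAntichain.sperner` (transport to a family of finsets of the type `S`) `#A_T ≤ (#S).choose (#S / 2)`.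
There are `2^(card ι - #S)` sets `T`. So the count is `≤ 2^(card ι - #S) * (#S).choose (#S/2)`; square it, multiply by `#S + 1`
and use `cb`: `≤ 4^(card ι - #S) * 4^#S`.
(To count: map `W ↦ (W \ S, W ∩ S)`; `Finset.card_eq_sum_card_fiberwise` with the map `W ↦ W \ S` into `(univ \ S).powerset`.)
-/

namespace Pool.H91.HQ

universe u v

open Classical in
theorem lo_fiber {E : Type v} [AddCommGroup E] {ι : Type} [Fintype ι] (g : ι → E) (S T : Finset ι)
    (L : E →+ ℚ) (hL : ∀ i ∈ S, L (g i) ≠ 0) (x : E) :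
    ((Finset.univ.filter (fun W : Finset ι => ∑ i ∈ W, g i = x)).filter
      (fun W => W \ S = T)).card ≤ S.card.choose (S.card / 2) := by
  set N : Finset S := Finset.univ.filter (fun i : S => L (g i) < 0) with hN
  set φ : Finset ι → Finset S := fun W => symmDiff (W.subtype (· ∈ S)) N with hφ
  set F := (Finset.univ.filter (fun W : Finset ι => ∑ i ∈ W, g i = x)).filter
      (fun W => W \ S = T) with hF
  have hmem : ∀ W ∈ F, ∑ i ∈ W, g i = x ∧ W \ S = T := by
    intro W hW
    simpa [hF, and_comm] using hW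
  have hsum : ∀ W ∈ F, ∑ i ∈ φ W, |L (g i)| = L x - ∑ i ∈ T, L (g i) - ∑ i ∈ N, L (g i) := by
    intro W hW
    obtain ⟨h1, h2⟩ := hmem W hW
    have e1 : ∑ i ∈ W, L (g i) = ∑ i ∈ T, L (g i) + ∑ i ∈ W.subtype (· ∈ S), L (g i) := by
      rw [← h2, Finset.sum_subtype_eq_sum_filter (f := fun i => L (g i)),
        ← Finset.sum_filter_add_sum_filter_not W (· ∈ S), add_comm]
      congr 2
      ext i
      simp
    have e2 : ∑ i ∈ φ W, |L (g i)| + ∑ i ∈ N, L (g i) = ∑ i ∈ W.subtype (· ∈ S), L (g i) := by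
      have a0 : ∀ (U : Finset S) (f : S → ℚ), ∑ i ∈ U, f i = ∑ i : S, if i ∈ U then f i else 0 := by
        intro U f
        rw [← Finset.sum_filter]
        congr 1
        ext i
        simp
      have a1 : ∑ i ∈ φ W, |L (g i)| = ∑ i : S, if i ∈ φ W then |L (g i)| else 0 := a0 _ _
      have a2 : ∑ i ∈ N, L (g i) = ∑ i : S, if i ∈ N then L (g i) else 0 := a0 _ _
      have a3 : ∑ i ∈ W.subtype (· ∈ S), L (g i) =
          ∑ i : S, if i ∈ W.subtype (· ∈ S) then L (g i) else 0 := a0 _ _
      rw [a1, a2, a3, ← Finset.sum_add_distrib]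
      refine Finset.sum_congr rfl fun i _ => ?_
      by_cases hi : L (g i) < 0
      · have hiN : i ∈ N := by simp [hN, hi]
        by_cases hW' : i ∈ W.subtype (· ∈ S)
        · have : i ∉ φ W := by simp only [hφ, Finset.mem_symmDiff]; tauto
          simp [this, hiN, hW']
        · have : i ∈ φ W := by simp only [hφ, Finset.mem_symmDiff]; tauto
          simp [this, hiN, hW', abs_of_neg hi]
      · have hiN : i ∉ N := by simp [hN, hi]
        by_cases hW' : i ∈ W.subtype (· ∈ S)
        · have : i ∈ φ W := by simp only [hφ, Finset.mem_symmDiff]; tauto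
          simp [this, hiN, hW', abs_of_nonneg (not_lt.1 hi)]
        · have : i ∉ φ W := by simp only [hφ, Finset.mem_symmDiff]; tauto
          simp [this, hiN, hW']
    have e3 : L x = ∑ i ∈ W, L (g i) := by rw [← h1, map_sum]
    linarith
  have hinj : Set.InjOn φ F := by
    intro W1 h1 W2 h2 h12
    have h3 : W1.subtype (· ∈ S) = W2.subtype (· ∈ S) := symmDiff_left_injective N h12
    have h4 : W1 \ S = W2 \ S := by
      rw [(hmem W1 h1).2, (hmem W2 h2).2]
    ext i
    by_cases hi : i ∈ S
    · have := Finset.ext_iff.1 h3 ⟨i, hi⟩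
      simpa using this
    · have := Finset.ext_iff.1 h4 i
      simpa [hi] using this
  rw [← Finset.card_image_of_injOn hinj]
  have hanti : IsAntichain (· ⊆ ·) (SetLike.coe (F.image φ)) := by
    intro U1 hU1 U2 hU2 hne hsub
    simp only [Finset.coe_image, Set.mem_image, SetLike.mem_coe] at hU1 hU2
    obtain ⟨W1, h1, rfl⟩ := by simpa using hU1
    obtain ⟨W2, h2, rfl⟩ := by simpa using hU2
    obtain ⟨i, hi2, hi1⟩ := Finset.exists_of_ssubset (hsub.ssubset_of_ne hne)
    have h := Finset.sum_lt_sum_of_subset (f := fun i : S => |L (g i)|) hsub hi2 hi1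
      (abs_pos.2 (hL i i.2)) (fun j _ _ => abs_nonneg _)
    rw [hsum W1 h1, hsum W2 h2] at h
    exact lt_irrefl _ h
  have := hanti.sperner
  simpa using this

open Classical in
theorem lo {K : Type u} [Field K] [CharZero K] {E : Type v} [AddCommGroup E] [Module K E]
    {ι : Type} [Fintype ι] (g : ι → E) (S : Finset ι) (hS : ∀ i ∈ S, g i ≠ 0) (x : E) :
    ((Finset.univ.filter (fun W : Finset ι => ∑ i ∈ W, g i = x)).card) ^ 2 * (S.card + 1)
      ≤ 4 ^ (Fintype.card ι) := by
  letI : Module ℚ E := Module.compHom E (algebraMap ℚ K)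
  obtain ⟨L, hL⟩ := Module.exists_dual_forall_apply_ne_zero (K := ℚ) (M := E)
    (fun i : S => g i) (fun i => hS i i.2)
  have hL' : ∀ i ∈ S, L.toAddMonoidHom (g i) ≠ 0 := fun i hi => hL ⟨i, hi⟩
  have h1 : (Finset.univ.filter (fun W : Finset ι => ∑ i ∈ W, g i = x)).card ≤
      2 ^ (Fintype.card ι - S.card) * S.card.choose (S.card / 2) := by
    have hmaps : ∀ W ∈ Finset.univ.filter (fun W : Finset ι => ∑ i ∈ W, g i = x),
        W \ S ∈ (Finset.univ \ S).powerset := by
      intro W _
      rw [Finset.mem_powerset]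
      exact Finset.sdiff_subset_sdiff (Finset.subset_univ _) le_rfl
    rw [Finset.card_eq_sum_card_fiberwise hmaps]
    refine (Finset.sum_le_card_nsmul _ _ _ fun T _ => lo_fiber g S T L.toAddMonoidHom hL' x).trans ?_
    rw [Finset.card_powerset, smul_eq_mul, Finset.card_univ_sdiff]
  have hle : S.card ≤ Fintype.card ι := Finset.card_le_univ S
  calc ((Finset.univ.filter (fun W : Finset ι => ∑ i ∈ W, g i = x)).card) ^ 2 * (S.card + 1)
      ≤ (2 ^ (Fintype.card ι - S.card) * S.card.choose (S.card / 2)) ^ 2 * (S.card + 1) :=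
        Nat.mul_le_mul_right _ (Nat.pow_le_pow_left h1 2)
    _ = 4 ^ (Fintype.card ι - S.card) * ((S.card.choose (S.card / 2)) ^ 2 * (S.card + 1)) := by
        rw [mul_pow, ← pow_mul, mul_comm _ 2, pow_mul]
        norm_num [mul_assoc]
    _ ≤ 4 ^ (Fintype.card ι - S.card) * 4 ^ S.card := Nat.mul_le_mul_left _ (cb _)
    _ = 4 ^ (Fintype.card ι) := by
        rw [← pow_add, Nat.sub_add_cancel hle]

end Pool.H91.HQ
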