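import Pool.Agent.H91.HQ.Defs

set_option autoImplicit false

/-!
Row LPa (project MP_259062_HQ): the class `LP` (polynomial along every line), periods, nonvanishing.
-/

namespace Pool.H91.HQ

universe u

variable {F : Type u} [Field F]

theorem lp_poly (E : ℕ) (G : Fin E → Fin E → F) :
    LP (fun x : F × F => ∑ i : Fin E, ∑ j : Fin E, G i j * x.1 ^ (i : ℕ) * x.2 ^ (j : ℕ)) := by
  intro x v
  refine ⟨∑ i : Fin E, ∑ j : Fin E, Polynomial.C (G i j) *
    (Polynomial.C x.1 + Polynomial.X * Polynomial.C v.1) ^ (i : ℕ) *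
    (Polynomial.C x.2 + Polynomial.X * Polynomial.C v.2) ^ (j : ℕ), fun t => ?_⟩
  simp only [Polynomial.eval_finsetSum, Polynomial.eval_mul, Polynomial.eval_C, Polynomial.eval_pow,
    Polynomial.eval_add, Polynomial.eval_X, Prod.fst_add, Prod.snd_add, Prod.smul_fst,
    Prod.smul_snd, smul_eq_mul]

theorem lp_diff {h : F × F → F} (hh : LP h) (p q : F × F) : LP (fun y => h (p + y) - h (q + y)) := by
  intro x v
  obtain ⟨P, hP⟩ := hh (p + x) v
  obtain ⟨Q, hQ⟩ := hh (q + x) v
  refine ⟨P - Q, fun t => ?_⟩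
  simp only [Polynomial.eval_sub, ← hP, ← hQ, add_assoc]

theorem lp_period [CharZero F] {h : F × F → F} (hh : LP h) (v : F × F) (hv : ∀ x, h (x + v) = h x)
    (t : F) (x : F × F) : h (x + t • v) = h x := by
  obtain ⟨P, hP⟩ := hh x v
  have hn : ∀ n : ℕ, h (x + (n : F) • v) = h x := by
    intro n
    induction n with
    | zero => simp
    | succ n ih =>
      rw [← ih, ← hv (x + (n : F) • v)]
      congr 1
      push_cast
      rw [add_smul, one_smul, add_assoc]
  have hPP : P = Polynomial.C (h x) := by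
    refine Polynomial.eq_of_infinite_eval_eq _ _ ?_
    refine Set.Infinite.mono (s := Set.range (fun n : ℕ => (n : F))) ?_
      (Set.infinite_range_of_injective Nat.cast_injective)
    rintro _ ⟨n, rfl⟩
    simp only [Set.mem_ofPred_eq, Polynomial.eval_C]
    rw [← hP, hn]
  rw [hP, hPP, Polynomial.eval_C]

theorem period_cases [CharZero F] {h : F × F → F} (hh : LP h) (v w : F × F)
    (hv : ∀ x, h (x + v) = h x) (hw : ∀ x, h (x + w) = h x) (hvw : v.1 * w.2 - v.2 * w.1 ≠ 0)
    (x : F × F) : h x = h 0 := by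
  have h1 := lp_period hh v hv
  have h2 := lp_period hh w hw
  set D := v.1 * w.2 - v.2 * w.1 with hD
  have hx : x = (0 : F × F) + ((x.1 * w.2 - x.2 * w.1) / D) • v
      + ((v.1 * x.2 - v.2 * x.1) / D) • w := by
    ext
    · simp only [Prod.fst_add, Prod.smul_fst, smul_eq_mul, zero_add]
      field_simp
      rw [hD]; ring
    · simp only [Prod.snd_add, Prod.smul_snd, smul_eq_mul, zero_add]
      field_simp
      rw [hD]; ring
  rw [hx, h2, h1]

theorem poly_ne [CharZero F] (E : ℕ) (G : Fin E → Fin E → F) (i0 j0 : Fin E) (h0 : G i0 j0 ≠ 0) :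
    ∃ x : F × F, (∑ i : Fin E, ∑ j : Fin E, G i j * x.1 ^ (i : ℕ) * x.2 ^ (j : ℕ)) ≠ 0 := by
  have key : ∀ (a : Fin E → F) (k : Fin E), a k ≠ 0 →
      ∃ z : F, (∑ i : Fin E, a i * z ^ (i : ℕ)) ≠ 0 := by
    intro a k hk
    by_contra hcon
    push Not at hcon
    have hP : (∑ i : Fin E, Polynomial.C (a i) * Polynomial.X ^ (i : ℕ)) = 0 := by
      refine Polynomial.funext (fun z => ?_)
      simp only [Polynomial.eval_finsetSum, Polynomial.eval_mul, Polynomial.eval_C,
        Polynomial.eval_pow, Polynomial.eval_X, Polynomial.eval_zero]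
      exact hcon z
    have hc := congrArg (fun Q => Polynomial.coeff Q (k : ℕ)) hP
    simp only [Polynomial.finsetSum_coeff, Polynomial.coeff_C_mul, Polynomial.coeff_X_pow,
      Polynomial.coeff_zero] at hc
    rw [Finset.sum_eq_single k] at hc
    · simp at hc; exact hk hc
    · intro b _ hb
      have : ¬ ((k : ℕ) = (b : ℕ)) := fun h => hb (Fin.ext h.symm)
      simp [this]
    · simp
  obtain ⟨x, hx⟩ := key (fun i => G i j0) i0 h0
  obtain ⟨y, hy⟩ := key (fun j => ∑ i : Fin E, G i j * x ^ (i : ℕ)) j0 hx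
  refine ⟨(x, y), ?_⟩
  rw [Finset.sum_comm]
  simpa only [Finset.sum_mul] using hy

end Pool.H91.HQ
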