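import Pool.Agent.H91.HQ.LO

set_option autoImplicit false

/-!
Row LU (project MP_259062_HQ): Littlewood-Offord inside a finite set `U`, real form.

PROOF. Let `ι = {i // i ∈ U}` (a `Fintype`, `Type`), `g' i = g i`, `S' = {i : ι | i.1 ∈ S}`; subsets `W ⊆ U` correspond to
finsets of `ι` (`Finset.subtype` / `Finset.map`), with equal sums. `S'.card = S.card` because `S ⊆ U`. So `lo` gives
`N ^ 2 * (S.card + 1) ≤ 4 ^ U.card`, `N` the count. If `2^U.card * ε < N` then `N^2 > ε^2 4^U.card`, so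
`ε^2 (S.card + 1) < 1`, contradiction with `1 ≤ ε^2 * S.card`.
-/

namespace Pool.H91.HQ

universe u v

open Classical in
theorem lu {K : Type u} [Field K] [CharZero K] {E : Type v} [AddCommGroup E] [Module K E] {m : ℕ}
    (g : Fin m → E) (U S : Finset (Fin m)) (hSU : S ⊆ U) (hS : ∀ i ∈ S, g i ≠ 0) (x : E)
    (ε : ℝ) (hε : 0 < ε) (hcard : 1 ≤ ε ^ 2 * (S.card : ℝ)) :
    (((U.powerset.filter (fun W => ∑ i ∈ W, g i = x)).card : ℕ) : ℝ) ≤ ε * 2 ^ U.card := by
  set N : ℕ := (U.powerset.filter (fun W => ∑ i ∈ W, g i = x)).card with hN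
  have h1 := lo (K := K) (fun i : {i // i ∈ U} => g i.1) (S.subtype (fun i => i ∈ U))
    (fun i hi => hS i.1 (Finset.mem_subtype.1 hi)) x
  rw [Finset.card_subtype, Finset.filter_true_of_mem (fun i hi => hSU hi), Fintype.card_coe] at h1
  set N' : ℕ := (Finset.univ.filter (fun W : Finset {i // i ∈ U} =>
    ∑ i ∈ W, g i.1 = x)).card with hN'
  have h2 : N ≤ N' := by
    refine Finset.card_le_card_of_injOn (fun W => W.subtype (fun i => i ∈ U)) ?_ ?_
    · intro W hW
      rw [Finset.mem_coe, Finset.mem_filter, Finset.mem_powerset] at hW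
      rw [Finset.mem_coe, Finset.mem_filter]
      refine ⟨Finset.mem_univ _, ?_⟩
      rw [Finset.sum_subtype_of_mem g (fun i hi => hW.1 hi)]
      exact hW.2
    · intro W hW W' hW' h
      rw [Finset.mem_coe, Finset.mem_filter, Finset.mem_powerset] at hW hW'
      ext i
      have h3 := congrArg (fun A : Finset {i // i ∈ U} => A.map (Function.Embedding.subtype _)) h
      simp only [Finset.subtype_map_of_mem (fun i hi => hW.1 hi),
        Finset.subtype_map_of_mem (fun i hi => hW'.1 hi)] at h3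
      rw [h3]
  by_contra hlt
  push Not at hlt
  have h3 : (N' : ℝ) ^ 2 * (S.card + 1) ≤ 4 ^ U.card := by exact_mod_cast h1
  have h4 : (N : ℝ) ≤ N' := by exact_mod_cast h2
  have h5 : (0 : ℝ) < ε * 2 ^ U.card := by positivity
  have h6 : (ε * 2 ^ U.card) ^ 2 < (N' : ℝ) ^ 2 := by
    apply pow_lt_pow_left₀ (lt_of_lt_of_le hlt h4) h5.le
    norm_num
  have h7 : (ε * 2 ^ U.card) ^ 2 = ε ^ 2 * 4 ^ U.card := by
    rw [mul_pow, ← pow_mul, mul_comm U.card 2, pow_mul]
    norm_num
  rw [h7] at h6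
  have h8 : (0 : ℝ) < 4 ^ U.card := by positivity
  have h9 : (0 : ℝ) ≤ (S.card : ℝ) := by positivity
  have h10 : ε ^ 2 * 4 ^ U.card * (S.card + 1) < 4 ^ U.card :=
    lt_of_lt_of_le (mul_lt_mul_of_pos_right h6 (by positivity)) h3
  nlinarith [mul_pos (pow_pos hε 2) h8, mul_le_mul_of_nonneg_right hcard h8.le]

end Pool.H91.HQ
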