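import Pool.Agent.H91.HQ.PR

set_option autoImplicit false

/-!
Row MO (project MP_259062_HQ): make all degrees equal (Moebius transformation).

PROOF. `n = sup over V of natDegree (f V)`. `K` is infinite, so there is `x : K` with `(f V).eval x ≠ 0` for all `V` with `f V ≠ 0`
(the product of the nonzero `f V` is a nonzero polynomial, it has a non-root). `T p := (p.comp (X + C x))`.
`f' V = reflect n (T (f V))`, `a' = reflect (2 n) (T a)`, `b' i = reflect (2 n) (T (b i))`.
* `natDegree (T p) = natDegree p`; `reflect (n + n) (T (f V) * T (f V)) = f' V * f' V` (`Polynomial.reflect_mul`), and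
  `T (f V ^ 2) = T (a + sum)`; `reflect` is additive (`reflect_add`, finite sums by `map_sum` of the corresponding `AddMonoidHom` or
  induction). So `f' V ^ 2 = a' + sum over V of b'`.
* if `f' V ≠ 0` then `f V ≠ 0`; `natDegree (f' V) ≤ n`, and the coefficient of degree `n` of `reflect n p` is `p.coeff 0`
  (`coeff_reflect`, `revAt_le`), here `(T (f V)).coeff 0 = (f V).eval x ≠ 0`. So `natDegree (f' V) = n`.
  (degree bound: coefficient `k > n` of `reflect n p` is `p.coeff k = 0` because `natDegree p ≤ n`.)
* `wr (b' i) (b' j) ≠ 0`: `b j ≠ 0` (else `wr (b i) (b j) = 0`) so `b' j ≠ 0` (`reflect_eq_zero_iff`, `comp` with `X + C x` injective).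
  If `wr (b' i) (b' j) = 0` then `b' i = C y * b' j` (`wr_prop`) `= reflect (2n) (T (C y * b j))` (`reflect_C_mul`), so by injectivity
  (`reflect` of the difference is zero) `b i = C y * b j` and `wr (b i) (b j) = 0` (`wr_C` with `y := 1`): contradiction.
-/

namespace Pool.H91.HQ

open Polynomial

universe u

private noncomputable def refl (K : Type u) [Field K] (N : ℕ) (x : K) : K[X] →+ K[X] where
  toFun p := reflect N (p.comp (X + C x))
  map_zero' := by simp
  map_add' p q := by rw [add_comp, reflect_add]

private theorem refl_apply {K : Type u} [Field K] (N : ℕ) (x : K) (p : K[X]) :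
    refl K N x p = reflect N (p.comp (X + C x)) := rfl

private theorem comp_ne {K : Type u} [Field K] (x : K) (p : K[X]) (hp : p ≠ 0) :
    p.comp (X + C x) ≠ 0 := by
  intro h
  have h2 : (p.comp (X + C x)).comp (X - C x) = p := by
    rw [comp_assoc]; simp
  rw [h] at h2
  exact hp (by simpa using h2.symm)

private theorem refl_ne {K : Type u} [Field K] (N : ℕ) (x : K) (p : K[X]) (hp : p ≠ 0) :
    refl K N x p ≠ 0 := by
  rw [refl_apply, Ne, reflect_eq_zero_iff]
  exact comp_ne x p hp

theorem moeb {K : Type u} [Field K] [CharZero K] {m : ℕ} (a : K[X]) (b : Fin m → K[X])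
    (f : Finset (Fin m) → K[X]) (hsq : ∀ V, f V ^ 2 = a + ∑ i ∈ V, b i)
    (hw : ∀ i j, i ≠ j → wr (b i) (b j) ≠ 0) :
    ∃ (n : ℕ) (a' : K[X]) (b' : Fin m → K[X]) (f' : Finset (Fin m) → K[X]),
      (∀ V, f' V ^ 2 = a' + ∑ i ∈ V, b' i) ∧ (∀ V, f' V ≠ 0 → (f' V).natDegree = n) ∧
      (∀ i j, i ≠ j → wr (b' i) (b' j) ≠ 0) := by
  classical
  set n : ℕ := Finset.univ.sup (fun V => (f V).natDegree) with hn
  have hdeg : ∀ V, (f V).natDegree ≤ n := fun V =>
    Finset.le_sup (f := fun V => (f V).natDegree) (Finset.mem_univ V)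
  obtain ⟨x, hx⟩ : ∃ x : K, ∀ V, f V ≠ 0 → (f V).eval x ≠ 0 := by
    have hP : (∏ V ∈ Finset.univ.filter (fun V => f V ≠ 0), f V) ≠ 0 := by
      rw [Finset.prod_ne_zero_iff]
      intro V hV
      exact (Finset.mem_filter.mp hV).2
    obtain ⟨x, hx⟩ : ∃ x : K,
        (∏ V ∈ Finset.univ.filter (fun V => f V ≠ 0), f V).eval x ≠ 0 := by
      by_contra hcon
      push Not at hcon
      exact hP (Polynomial.funext (fun r => by rw [hcon r, eval_zero]))
    refine ⟨x, fun V hV => ?_⟩
    rw [eval_prod, Finset.prod_ne_zero_iff] at hx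
    exact hx V (Finset.mem_filter.mpr ⟨Finset.mem_univ V, hV⟩)
  have hTdeg : ∀ p : K[X], (p.comp (X + C x)).natDegree = p.natDegree := by
    intro p
    rw [natDegree_comp, natDegree_X_add_C, mul_one]
  refine ⟨n, refl K (n + n) x a, fun i => refl K (n + n) x (b i), fun V => refl K n x (f V),
    ?_, ?_, ?_⟩
  · intro V
    have h1 : refl K n x (f V) ^ 2 = refl K (n + n) x (f V ^ 2) := by
      rw [sq, sq, refl_apply, refl_apply, mul_comp, reflect_mul _ _
        (by rw [hTdeg]; exact hdeg V) (by rw [hTdeg]; exact hdeg V)]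
    rw [h1, hsq V, map_add, map_sum]
  · intro V hV
    have hfV : f V ≠ 0 := by
      rintro h0
      apply hV
      change refl K n x (f V) = 0
      rw [h0, map_zero]
    have hc : (refl K n x (f V)).coeff n = (f V).eval x := by
      rw [refl_apply, coeff_reflect, revAt_le le_rfl, Nat.sub_self, coeff_zero_eq_eval_zero,
        eval_comp]
      simp
    apply le_antisymm
    · rw [natDegree_le_iff_coeff_eq_zero]
      intro k hk
      change (refl K n x (f V)).coeff k = 0
      rw [refl_apply, coeff_reflect, revAt_eq_self_of_lt hk]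
      apply coeff_eq_zero_of_natDegree_lt
      rw [hTdeg]
      exact lt_of_le_of_lt (hdeg V) hk
    · apply le_natDegree_of_ne_zero
      change (refl K n x (f V)).coeff n ≠ 0
      rw [hc]
      exact hx V hfV
  · intro i j hij h
    have hbj : b j ≠ 0 := by
      intro h0
      apply hw i j hij
      rw [h0]
      simp [wr]
    obtain ⟨y, hy⟩ := wr_prop _ _ h (refl_ne (n + n) x (b j) hbj)
    have hz : b i - C y * b j = 0 := by
      by_contra hne
      apply refl_ne (n + n) x _ hne
      rw [map_sub]
      have : refl K (n + n) x (C y * b j) = C y * refl K (n + n) x (b j) := by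
        rw [refl_apply, refl_apply, mul_comp, C_comp, reflect_C_mul]
      rw [this, sub_eq_zero]
      exact hy
    apply hw i j hij
    have hbi : b i = C y * b j := sub_eq_zero.mp hz
    have h1 := wr_C y 1 (b j)
    rw [C_1, one_mul] at h1
    rw [hbi]
    exact h1

end Pool.H91.HQ
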