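import Pool.Agent.H91.HQ.DC

set_option autoImplicit false

/-!
Row NA (project MP_259062_HQ): basic facts on a normalised cube `NC m n a b f`.

PROOFS.
* `nc_fdeg`: `natDegree (f V) ≤ n` for all `V` (`f V = 0` has `natDegree 0`).
* `nc_flip`: `f (symmDiff V W) ^ 2 = f V ^ 2 + fs b V W`: both sides are `a + sum`; `symmDiff V W = (V \ W) ∪ (W \ V)`,
  `sum over symmDiff V W of b = sum over V of b + sum over W of (if i ∈ V then - b i else b i)`.
* `nc_b`: `b i = f {i} ^ 2 - f ∅ ^ 2`.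
* `nc_bdeg`: `natDegree (b i) ≤ 2 n`; `nc_fsdeg`: `natDegree (fs b V W) ≤ 2 n` (sum of polynomials of degree `≤ 2n`:
  `Polynomial.natDegree_sum_le_of_forall_le`).
* `nc_bne`: `2 ≤ m → b i ≠ 0`: choose `j ≠ i`; `b i = 0` would give `wr (b i) (b j) = 0`.
* `nc_dvd`: `(X-C z)^s ∣ f V` and `(X - C z)^s ∣ f (symmDiff V W)` imply `(X - C z)^(2 s) ∣ fs b V W` (difference of the squares).
* `nc_edge`: `V ∈ Iv f p`, `i ∈ Sv b p` imply `symmDiff V {i} ∉ Iv f p`: otherwise `fs b V {i} = ± b i` is divisible by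
  `(X - C z)^(2s)`.
* `nc_half`: if `i ∈ Sv b p`, then `2 * #(Iv f p) ≤ 2^m`: `Iv f p` and its image under `V ↦ symmDiff V {i}` are disjoint, of the same
  size, inside the `2^m` finsets.
* `nc_Sne`: `1 ≤ p.2`, `Iv f p` nonempty imply `Sv b p` nonempty: otherwise all `b i` are divisible by `(X-C z)^(2s)`, take
  `V ∈ Iv f p`; for every `V'`, `f V' ^ 2 = f V ^ 2 + (sum over V' of b - sum over V of b)` is divisible by `(X - C z)^(2s)`, so
  by `X - C z`, which is prime, so `(X - C z) ∣ f V'`, contradicting `com`.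
* `nc_wcount`: for `i ≠ j`: at most `n` of the `p ∈ Pts f n` have `i ∉ Sv b p` and `j ∉ Sv b p`: for these
  `(X - C z)^(4 s) ∣ wr (b i) (b j)` (`wr_dvd` with `k = 2 s`), which is nonzero of degree `≤ 4 n` (`wr_deg`), use `deg_count` with `k = 4`.
* `nc_mass`: `f V ≠ 0 →` number of `p ∈ Pts f n` with `V ∈ Iv f p` is `n` (`mass_one`).
-/

namespace Pool.H91.HQ

open Polynomial Finset

universe u

variable {K : Type u} [Field K] {m n : ℕ} {a : K[X]} {b : Fin m → K[X]} {f : Finset (Fin m) → K[X]}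

theorem nc_fdeg (h : NC m n a b f) (V : Finset (Fin m)) : (f V).natDegree ≤ n := by
  by_cases h0 : f V = 0
  · rw [h0, natDegree_zero]
    exact Nat.zero_le _
  · exact (h.deg V h0).le

theorem nc_flip (h : NC m n a b f) (V W : Finset (Fin m)) :
    f (symmDiff V W) ^ 2 = f V ^ 2 + fs b V W := by
  have e : ∀ (S : Finset (Fin m)) (g : Fin m → K[X]),
      ∑ i ∈ S, g i = ∑ i, if i ∈ S then g i else 0 := by
    intro S g
    rw [Finset.sum_ite_mem, Finset.univ_inter]
  rw [h.sq, h.sq, fs, add_assoc, e (symmDiff V W), e V, e W, ← Finset.sum_add_distrib]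
  congr 1
  refine Finset.sum_congr rfl fun i _ => ?_
  by_cases hV : i ∈ V <;> by_cases hW : i ∈ W <;> simp [Finset.mem_symmDiff, hV, hW]

private theorem na_b (h : NC m n a b f) (i : Fin m) : b i = f {i} ^ 2 - f ∅ ^ 2 := by
  rw [h.sq, h.sq, Finset.sum_singleton, Finset.sum_empty]
  ring

theorem nc_bdeg (h : NC m n a b f) (i : Fin m) : (b i).natDegree ≤ 2 * n := by
  rw [na_b h i]
  refine (natDegree_sub_le _ _).trans (max_le ?_ ?_)
  · exact natDegree_pow_le_of_le 2 (nc_fdeg h _)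
  · exact natDegree_pow_le_of_le 2 (nc_fdeg h _)

theorem nc_fsdeg (h : NC m n a b f) (V W : Finset (Fin m)) : (fs b V W).natDegree ≤ 2 * n := by
  refine natDegree_sum_le_of_forall_le _ _ fun i _ => ?_
  split_ifs
  · rw [natDegree_neg]
    exact nc_bdeg h i
  · exact nc_bdeg h i

theorem nc_bne (h : NC m n a b f) (hm : 2 ≤ m) (i : Fin m) : b i ≠ 0 := by
  intro h0
  haveI : Nontrivial (Fin m) := Fin.nontrivial_iff_two_le.2 hm
  obtain ⟨j, hj⟩ := exists_ne i
  apply h.wne i j hj.symm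
  rw [h0, wr, derivative_zero, zero_mul, mul_zero, sub_zero]

theorem nc_dvd (h : NC m n a b f) (V W : Finset (Fin m)) (z : K) (s : ℕ) (h1 : (X - C z) ^ s ∣ f V)
    (h2 : (X - C z) ^ s ∣ f (symmDiff V W)) : (X - C z) ^ (2 * s) ∣ fs b V W := by
  have e : fs b V W = f (symmDiff V W) ^ 2 - f V ^ 2 := by
    rw [nc_flip h]
    ring
  rw [e, mul_comm 2 s, pow_mul]
  exact dvd_sub (pow_dvd_pow_of_dvd h2 2) (pow_dvd_pow_of_dvd h1 2)

private theorem na_mem_Iv (p : K × ℕ) (V : Finset (Fin m)) :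
    V ∈ Iv f p ↔ f V ≠ 0 ∧ (X - C p.1) ^ p.2 ∣ f V := by
  classical
  rw [Iv, Finset.mem_filter]
  exact ⟨fun h => h.2, fun h => ⟨Finset.mem_univ _, h⟩⟩

private theorem na_mem_Sv (p : K × ℕ) (i : Fin m) :
    i ∈ Sv b p ↔ ¬ (X - C p.1) ^ (2 * p.2) ∣ b i := by
  classical
  rw [Sv, Finset.mem_filter]
  exact ⟨fun h => h.2, fun h => ⟨Finset.mem_univ _, h⟩⟩

private theorem na_edge (h : NC m n a b f) (p : K × ℕ) (V : Finset (Fin m)) (i : Fin m)
    (hV : V ∈ Iv f p) (hi : i ∈ Sv b p) : symmDiff V {i} ∉ Iv f p := by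
  intro hV'
  rw [na_mem_Iv] at hV hV'
  rw [na_mem_Sv] at hi
  have h1 := nc_dvd h V {i} p.1 p.2 hV.2 hV'.2
  rw [fs, Finset.sum_singleton] at h1
  split_ifs at h1
  · exact hi ((dvd_neg).1 h1)
  · exact hi h1

theorem nc_half (h : NC m n a b f) (p : K × ℕ) (i : Fin m) (hi : i ∈ Sv b p) :
    2 * (Iv f p).card ≤ 2 ^ m := by
  have hinj : Function.Injective (fun V : Finset (Fin m) => symmDiff V {i}) :=
    symmDiff_left_injective {i}
  have h1 : ((Iv f p).image (fun V : Finset (Fin m) => symmDiff V {i})).card =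
      (Iv f p).card := Finset.card_image_of_injective _ hinj
  have h2 : Disjoint (Iv f p) ((Iv f p).image (fun V : Finset (Fin m) => symmDiff V {i})) := by
    rw [Finset.disjoint_left]
    intro V hV hV'
    obtain ⟨W, hW, hWV⟩ := Finset.mem_image.1 hV'
    apply na_edge h p W i hW hi
    rw [hWV]
    exact hV
  have h3 := Finset.card_union_of_disjoint h2
  have h4 : ((Iv f p) ∪ ((Iv f p).image (fun V : Finset (Fin m) => symmDiff V {i}))).card ≤
      2 ^ m := by
    refine (Finset.card_le_univ _).trans ?_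
    rw [Fintype.card_finset, Fintype.card_fin]
  rw [h3, h1] at h4
  omega

theorem nc_Sne (h : NC m n a b f) (p : K × ℕ) (hp : 1 ≤ p.2) (hI : (Iv f p).Nonempty) :
    (Sv b p).Nonempty := by
  by_contra hne
  rw [Finset.not_nonempty_iff_eq_empty] at hne
  have hb : ∀ i, (X - C p.1) ^ (2 * p.2) ∣ b i := by
    intro i
    by_contra hi
    have : i ∈ Sv b p := (na_mem_Sv p i).2 hi
    rw [hne] at this
    exact absurd this (Finset.notMem_empty i)
  obtain ⟨V, hV⟩ := hI
  rw [na_mem_Iv] at hV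
  obtain ⟨V', hV'⟩ := h.com p.1
  apply hV'
  have h1 : f V' ^ 2 = f V ^ 2 + (∑ i ∈ V', b i - ∑ i ∈ V, b i) := by
    rw [h.sq, h.sq]
    ring
  have h2 : (X - C p.1) ^ (2 * p.2) ∣ f V' ^ 2 := by
    rw [h1]
    refine dvd_add ?_ (dvd_sub (Finset.dvd_sum fun i _ => hb i) (Finset.dvd_sum fun i _ => hb i))
    rw [mul_comm 2 p.2, pow_mul]
    exact pow_dvd_pow_of_dvd hV.2 2
  have h3 : (X - C p.1) ∣ f V' ^ 2 :=
    (dvd_pow_self _ (by omega : 2 * p.2 ≠ 0)).trans h2
  exact (prime_X_sub_C p.1).dvd_of_dvd_pow h3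

theorem nc_wcount (h : NC m n a b f) (i j : Fin m) (hij : i ≠ j) :
    ((Pts f n).filter (fun p => i ∉ Sv b p ∧ j ∉ Sv b p)).card ≤ n := by
  classical
  have h1 := deg_count (wr (b i) (b j)) (h.wne i j hij)
    (univ.biUnion (fun V => (f V).roots.toFinset)) n 4 (by norm_num)
  have h2 := wr_deg (b i) (b j) n (nc_bdeg h i) (nc_bdeg h j)
  have h3 : ((Pts f n).filter (fun p => i ∉ Sv b p ∧ j ∉ Sv b p)).card ≤
      (((univ.biUnion (fun V => (f V).roots.toFinset)) ×ˢ Icc 1 n).filter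
        (fun p : K × ℕ => (X - C p.1) ^ (4 * p.2) ∣ wr (b i) (b j))).card := by
    refine Finset.card_le_card fun p hp => ?_
    rw [Finset.mem_filter] at hp ⊢
    refine ⟨?_, ?_⟩
    · have := hp.1
      rw [Pts] at this
      convert this
    · have hi : (X - C p.1) ^ (2 * p.2) ∣ b i := by
        by_contra hi
        exact hp.2.1 ((na_mem_Sv p i).2 hi)
      have hj : (X - C p.1) ^ (2 * p.2) ∣ b j := by
        by_contra hj
        exact hp.2.2 ((na_mem_Sv p j).2 hj)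
      have h4 := wr_dvd (b i) (b j) p.1 (2 * p.2) hi hj
      have e : 4 * p.2 = 2 * (2 * p.2) := by ring
      rw [e]
      exact h4
  have h5 : 4 * (((univ.biUnion (fun V => (f V).roots.toFinset)) ×ˢ Icc 1 n).filter
        (fun p : K × ℕ => (X - C p.1) ^ (4 * p.2) ∣ wr (b i) (b j))).card ≤
        (wr (b i) (b j)).natDegree := by
    convert h1
  omega

open Classical in
theorem nc_mass [IsAlgClosed K] (h : NC m n a b f) (V : Finset (Fin m)) (hV : f V ≠ 0) :
    ((Pts f n).filter (fun p => V ∈ Iv f p)).card = n := by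
  have h1 := mass_one (f V) hV (univ.biUnion (fun V => (f V).roots.toFinset)) (fun z hz =>
    Finset.mem_biUnion.2 ⟨V, Finset.mem_univ _, hz⟩) n (h.deg V hV)
  refine Eq.trans ?_ h1
  congr 1
  ext p
  rw [Finset.mem_filter, Finset.mem_filter, na_mem_Iv, Pts]
  exact ⟨fun h => ⟨h.1, h.2.2⟩, fun h => ⟨h.1, hV, h.2⟩⟩

end Pool.H91.HQ
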