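import Pool.Agent.H91.HQ.NA
import Pool.Agent.H91.HQ.LO

set_option autoImplicit false

/-!
Row NB (project MP_259062_HQ): few points have small support; few vertices are zero; the non-junta mass.

PROOF of `nc_junta`. Let `X` be the count. Double counting of the triples `(p, i, j)` with `p ∈ Pts f n`, `i ≠ j`, `i ∉ Sv b p`,
`j ∉ Sv b p`: summing `nc_wcount` over the ordered pairs `i ≠ j` the number is at most `m (m-1) n ≤ m^2 n`. Every `p` with
`#(Sv b p) ≤ M` has `(m - #S)(m - #S - 1) ≥ (m - M - 1)^2` such pairs (`Finset.card_offDiag` of the complement of `Sv b p`). So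
`(m-M-1)^2 X ≤ m^2 n`; `4 (m-M-1) ≥ 3 m` because `4 (M+1) ≤ m`; so `9 m^2 X ≤ 16 (m-M-1)^2 X ≤ 16 m^2 n`, cancel `m^2 > 0`.
PROOF of `nc_zero`. `f V = 0` iff `a + sum = 0` iff `sum over V of b = -a`: `lo` with `E = K[X]`, `g = b`, `S = univ`
(`nc_bne`), `x = -a`.
PROOF of `nc_nonjunta`. `sum over p ∈ Pts of #(Iv f p) = sum over V with f V ≠ 0 of #{p ∈ Pts | V ∈ Iv f p} = n * #{V | f V ≠ 0}`
(`nc_mass`; `V ∈ Iv f p` implies `f V ≠ 0`). `#{V | f V = 0} ≤ 2^m / 90` because its square times `8101` is at most `4^m`.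
For `p ∈ Pts` with `#(Sv b p) ≤ M`: `#(Iv f p) ≤ 2^m/2` (empty, or `nc_Sne`, `nc_half`; `p.2 ≥ 1` since `p ∈ Pts`); there are at
most `16 n / 9` of them. So the rest has mass at least `n 2^m (1 - 1/90) - (2^m/2)(16 n/9) = n 2^m / 10`.
-/

namespace Pool.H91.HQ

open Polynomial Finset

universe u

variable {K : Type u} [Field K] {m n : ℕ} {a : K[X]} {b : Fin m → K[X]} {f : Finset (Fin m) → K[X]}

theorem nc_junta (h : NC m n a b f) (M : ℕ) (hM : 4 * (M + 1) ≤ m) :
    9 * ((Pts f n).filter (fun p => (Sv b p).card ≤ M)).card ≤ 16 * n := by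
  have h1 : ∑ q ∈ (univ : Finset (Fin m)).offDiag,
      ((Pts f n).filter (fun p => q.1 ∉ Sv b p ∧ q.2 ∉ Sv b p)).card ≤
      ∑ _q ∈ (univ : Finset (Fin m)).offDiag, n :=
    sum_le_sum fun q hq => nc_wcount h q.1 q.2 (mem_offDiag.1 hq).2.2
  have h2 : ∑ q ∈ (univ : Finset (Fin m)).offDiag,
      ((Pts f n).filter (fun p => q.1 ∉ Sv b p ∧ q.2 ∉ Sv b p)).card =
      ∑ p ∈ Pts f n, ((univ : Finset (Fin m)).offDiag.filter
        (fun q => q.1 ∉ Sv b p ∧ q.2 ∉ Sv b p)).card := by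
    simp only [card_filter]
    exact sum_comm
  have h3 : ∑ _q ∈ (univ : Finset (Fin m)).offDiag, n ≤ m ^ 2 * n := by
    rw [sum_const, smul_eq_mul]
    refine Nat.mul_le_mul_right n ?_
    rw [offDiag_card, card_univ, Fintype.card_fin, sq]
    exact Nat.sub_le _ _
  have h4 : ∀ p ∈ (Pts f n).filter (fun p => (Sv b p).card ≤ M), (m - M - 1) ^ 2 ≤
      ((univ : Finset (Fin m)).offDiag.filter (fun q => q.1 ∉ Sv b p ∧ q.2 ∉ Sv b p)).card := by
    intro p hp
    have hp2 := (mem_filter.1 hp).2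
    have h5 : ((Sv b p)ᶜ).offDiag ⊆
        (univ : Finset (Fin m)).offDiag.filter (fun q => q.1 ∉ Sv b p ∧ q.2 ∉ Sv b p) := by
      intro q hq
      rw [mem_offDiag, mem_compl, mem_compl] at hq
      rw [mem_filter, mem_offDiag]
      exact ⟨⟨mem_univ _, mem_univ _, hq.2.2⟩, hq.1, hq.2.1⟩
    refine le_trans ?_ (card_le_card h5)
    rw [offDiag_card, card_compl, Fintype.card_fin]
    have h6 : m - M ≤ m - (Sv b p).card := by omega
    generalize m - (Sv b p).card = t at h6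
    obtain ⟨u, hu⟩ : ∃ u, m - M - 1 = u := ⟨_, rfl⟩
    have h7 : u + 1 ≤ t := by omega
    obtain ⟨w, rfl⟩ : ∃ w, t = w + 1 := ⟨t - 1, by omega⟩
    have h8 : (w + 1) * (w + 1) - (w + 1) = w * (w + 1) := by
      have : (w + 1) * (w + 1) = w * (w + 1) + (w + 1) := by ring
      omega
    rw [hu, h8, sq]
    exact Nat.mul_le_mul (by omega) (by omega)
  have h5 : ((Pts f n).filter (fun p => (Sv b p).card ≤ M)).card * (m - M - 1) ^ 2 ≤
      m ^ 2 * n := by
    calc ((Pts f n).filter (fun p => (Sv b p).card ≤ M)).card * (m - M - 1) ^ 2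
        = ∑ _p ∈ (Pts f n).filter (fun p => (Sv b p).card ≤ M), (m - M - 1) ^ 2 := by
          rw [sum_const, smul_eq_mul]
      _ ≤ ∑ p ∈ (Pts f n).filter (fun p => (Sv b p).card ≤ M),
          ((univ : Finset (Fin m)).offDiag.filter
            (fun q => q.1 ∉ Sv b p ∧ q.2 ∉ Sv b p)).card := sum_le_sum h4
      _ ≤ ∑ p ∈ Pts f n, ((univ : Finset (Fin m)).offDiag.filter
            (fun q => q.1 ∉ Sv b p ∧ q.2 ∉ Sv b p)).card :=
          sum_le_sum_of_subset (filter_subset _ _)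
      _ ≤ m ^ 2 * n := by
          rw [← h2]
          exact h1.trans h3
  generalize ((Pts f n).filter (fun p => (Sv b p).card ≤ M)).card = Y at h5
  obtain ⟨u, hu⟩ : ∃ u, m - M - 1 = u := ⟨_, rfl⟩
  have h6 : 3 * m ≤ 4 * u := by omega
  rw [hu] at h5
  have h7 : (3 * m) ^ 2 ≤ (4 * u) ^ 2 := Nat.pow_le_pow_left h6 2
  have h8 : m ^ 2 * (9 * Y) ≤ m ^ 2 * (16 * n) := by
    calc m ^ 2 * (9 * Y) = Y * (3 * m) ^ 2 := by ring
      _ ≤ Y * (4 * u) ^ 2 := Nat.mul_le_mul_left _ h7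
      _ = 16 * (Y * u ^ 2) := by ring
      _ ≤ 16 * (m ^ 2 * n) := Nat.mul_le_mul_left _ h5
      _ = m ^ 2 * (16 * n) := by ring
  exact Nat.le_of_mul_le_mul_left h8 (by
    have : 0 < m := by omega
    positivity)

open Classical in
theorem nc_zero [CharZero K] (h : NC m n a b f) (hm : 2 ≤ m) :
    ((univ.filter (fun V : Finset (Fin m) => f V = 0)).card) ^ 2 * (m + 1) ≤ 4 ^ m := by
  have h1 := lo (K := K) b univ (fun i _ => nc_bne h hm i) (-a)
  rw [card_univ, Fintype.card_fin] at h1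
  have h2 : univ.filter (fun V : Finset (Fin m) => f V = 0) =
      univ.filter (fun W : Finset (Fin m) => ∑ i ∈ W, b i = -a) := by
    ext V
    rw [mem_filter, mem_filter]
    have h3 : f V = 0 ↔ ∑ i ∈ V, b i = -a := by
      have h4 := h.sq V
      constructor
      · intro h5
        rw [h5, zero_pow two_ne_zero] at h4
        exact (neg_eq_of_add_eq_zero_right h4.symm).symm
      · intro h5
        rw [h5, add_neg_cancel] at h4
        exact pow_eq_zero_iff two_ne_zero |>.1 h4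
    rw [h3]
  rw [h2]
  convert h1

open Classical in
theorem nb_zero' [CharZero K] (h : NC m n a b f) (hm : 8100 ≤ m) :
    90 * (univ.filter (fun V : Finset (Fin m) => f V = 0)).card ≤ 2 ^ m := by
  have h1 := nc_zero h (by omega)
  generalize (univ.filter (fun V : Finset (Fin m) => f V = 0)).card = z at h1
  have h2 : (90 * z) ^ 2 ≤ (2 ^ m) ^ 2 := by
    calc (90 * z) ^ 2 = z ^ 2 * 8100 := by ring
      _ ≤ z ^ 2 * (m + 1) := Nat.mul_le_mul_left _ (by omega)
      _ ≤ 4 ^ m := h1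
      _ = (2 ^ m) ^ 2 := by
        rw [← pow_mul, mul_comm m 2, pow_mul]
        norm_num
  exact (Nat.pow_le_pow_iff_left two_ne_zero).1 h2

open Classical in
theorem nb_mass [CharZero K] [IsAlgClosed K] (h : NC m n a b f) :
    n * (univ.filter (fun V : Finset (Fin m) => f V ≠ 0)).card ≤
      ∑ p ∈ Pts f n, (Iv f p).card := by
  have h1 : ∑ p ∈ Pts f n, (Iv f p).card =
      ∑ V : Finset (Fin m), ((Pts f n).filter (fun p => V ∈ Iv f p)).card := by
    have h2 : ∀ p : K × ℕ, (Iv f p).card =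
        ∑ V : Finset (Fin m), if V ∈ Iv f p then 1 else 0 := by
      intro p
      rw [sum_ite_mem, univ_inter, card_eq_sum_ones]
    simp only [card_filter]
    rw [sum_comm]
    exact sum_congr rfl fun p _ => h2 p
  rw [h1]
  calc n * (univ.filter (fun V : Finset (Fin m) => f V ≠ 0)).card
      = ∑ _V ∈ univ.filter (fun V : Finset (Fin m) => f V ≠ 0), n := by
        rw [sum_const, smul_eq_mul, mul_comm]
    _ = ∑ V ∈ univ.filter (fun V : Finset (Fin m) => f V ≠ 0),
        ((Pts f n).filter (fun p => V ∈ Iv f p)).card :=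
        sum_congr rfl fun V hV => (nc_mass h V (mem_filter.1 hV).2).symm
    _ ≤ _ := sum_le_sum_of_subset (filter_subset _ _)

theorem nb_half (h : NC m n a b f) (p : K × ℕ) (hp : p ∈ Pts f n) : 2 * (Iv f p).card ≤ 2 ^ m := by
  have hp1 : 1 ≤ p.2 := by
    unfold Pts at hp
    exact (mem_Icc.1 (mem_product.1 hp).2).1
  rcases (Iv f p).eq_empty_or_nonempty with h0 | h0
  · rw [h0, card_empty]
    positivity
  · obtain ⟨i, hi⟩ := nc_Sne h p hp1 h0
    exact nc_half h p i hi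

theorem nc_nonjunta [CharZero K] [IsAlgClosed K] (h : NC m n a b f) (M : ℕ) (hM : 4 * (M + 1) ≤ m)
    (hm : 8100 ≤ m) :
    (n : ℝ) * 2 ^ m / 10 ≤ ∑ p ∈ (Pts f n).filter (fun p => M < (Sv b p).card), ((Iv f p).card : ℝ) := by
  classical
  have h1 : (n : ℝ) * ((univ.filter (fun V : Finset (Fin m) => f V ≠ 0)).card : ℝ) ≤
      ∑ p ∈ Pts f n, ((Iv f p).card : ℝ) := by exact_mod_cast nb_mass h
  have h2 : ((univ.filter (fun V : Finset (Fin m) => f V ≠ 0)).card : ℝ) =
      2 ^ m - ((univ.filter (fun V : Finset (Fin m) => f V = 0)).card : ℝ) := by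
    have h3 := card_filter_add_card_filter_not (s := (univ : Finset (Finset (Fin m))))
      (fun V => f V = 0)
    rw [card_univ, Fintype.card_finset, Fintype.card_fin] at h3
    have h4 : ((univ.filter (fun V : Finset (Fin m) => f V = 0)).card : ℝ) +
      ((univ.filter (fun V : Finset (Fin m) => ¬ f V = 0)).card : ℝ) = 2 ^ m := by
        exact_mod_cast h3
    have h5 : ((univ.filter (fun V : Finset (Fin m) => f V ≠ 0)).card : ℝ) =
      ((univ.filter (fun V : Finset (Fin m) => ¬ f V = 0)).card : ℝ) := rfl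
    rw [h5]
    linarith
  have h3 : 90 * ((univ.filter (fun V : Finset (Fin m) => f V = 0)).card : ℝ) ≤ 2 ^ m := by
    exact_mod_cast nb_zero' h hm
  have h4 := sum_filter_add_sum_filter_not (Pts f n) (fun p => (Sv b p).card ≤ M)
    (fun p => ((Iv f p).card : ℝ))
  have h5 : ∑ p ∈ (Pts f n).filter (fun p => ¬ (Sv b p).card ≤ M), ((Iv f p).card : ℝ) =
      ∑ p ∈ (Pts f n).filter (fun p => M < (Sv b p).card), ((Iv f p).card : ℝ) := by
    congr 1
    ext p
    rw [mem_filter, mem_filter, not_le]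
  have h6 : ∑ p ∈ (Pts f n).filter (fun p => (Sv b p).card ≤ M), ((Iv f p).card : ℝ) ≤
      (((Pts f n).filter (fun p => (Sv b p).card ≤ M)).card : ℝ) * (2 ^ m / 2) := by
    rw [← nsmul_eq_mul]
    refine sum_le_card_nsmul _ _ _ fun p hp => ?_
    have h7 := nb_half h p (mem_filter.1 hp).1
    have h8 : 2 * ((Iv f p).card : ℝ) ≤ 2 ^ m := by exact_mod_cast h7
    linarith
  have h7 : 9 * (((Pts f n).filter (fun p => (Sv b p).card ≤ M)).card : ℝ) ≤ 16 * n := by
    exact_mod_cast nc_junta h M hM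
  have h8 : (0 : ℝ) < 2 ^ m := by positivity
  have h9 : (0 : ℝ) ≤ n := Nat.cast_nonneg n
  rw [← h5]
  rw [h2] at h1
  set Y : ℝ := (((Pts f n).filter (fun p => (Sv b p).card ≤ M)).card : ℝ) with hY
  set z : ℝ := ((univ.filter (fun V : Finset (Fin m) => f V = 0)).card : ℝ) with hz
  have h10 : Y * (2 ^ m / 2) ≤ 16 * n / 9 * (2 ^ m / 2) :=
    mul_le_mul_of_nonneg_right (by linarith) (by positivity)
  have h11 : (n : ℝ) * (2 ^ m - 2 ^ m / 90) ≤ n * (2 ^ m - z) :=
    mul_le_mul_of_nonneg_left (by linarith) h9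
  nlinarith

end Pool.H91.HQ
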