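import Pool.Agent.H91.HQ.NA
import Pool.Agent.H91.HQ.CL

set_option autoImplicit false

/-!
Row NK (project MP_259062_HQ): coincidences are rare.

PROOF. `M` from `clo R hR ε hε`. Let `p = (z, s)`. `E := K[X] ⧸ ((Ideal.span {(X - C z)^(2*s)}).restrictScalars K)` (a `K`-module),
`g i := class of (if i ∈ V then -(b i) else b i)`, `S := Sv b p`: for `i ∈ S` the class is nonzero (definition of `Sv`; `-b i` is
divisible iff `b i` is). If `symmDiff V (cs c Q) ∈ Iv f p`, then with `V ∈ Iv f p` and `nc_dvd`, `(X - C z)^(2s) ∣ fs b V (cs c Q)`, i.e.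
`sum over cs c Q of g = 0`. So the set of `c` is contained in the set counted by `clo`.
-/

namespace Pool.H91.HQ

open Polynomial Finset

universe u

open Classical in
theorem nc_coin (R : ℕ) (hR : 1 ≤ R) (ε : ℝ) (hε : 0 < ε) : ∃ M : ℕ, ∀ {K : Type u} [Field K] [CharZero K]
    {m n : ℕ} {a : K[X]} {b : Fin m → K[X]} {f : Finset (Fin m) → K[X]}, NC m n a b f →
    ∀ p : K × ℕ, M ≤ (Sv b p).card → ∀ (Q : Finset (Fin R)) (q0 q1 : Fin R), q0 ∉ Q → q1 ∈ Q →
    ∀ V ∈ Iv f p, (((univ.filter (fun c : Fin m → Fin R => symmDiff V (cs c Q) ∈ Iv f p)).card : ℕ) : ℝ)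
      ≤ ε * (R : ℝ) ^ m := by
  obtain ⟨M, hM⟩ := clo.{u, u} R hR ε hε
  refine ⟨M, ?_⟩
  intro K _ _ m n a b f h p hMp Q q0 q1 h0 h1 V hV
  have hdv : ∀ i, (if i ∈ V then -(b i) else b i) ∈
      Ideal.span ({(X - C p.1) ^ (2 * p.2)} : Set K[X]) ↔ (X - C p.1) ^ (2 * p.2) ∣ b i := by
    intro i
    rw [Ideal.mem_span_singleton]
    split_ifs
    · exact dvd_neg
    · exact Iff.rfl
  have key := hM (K := K) (E := K[X] ⧸ Ideal.span ({(X - C p.1) ^ (2 * p.2)} : Set K[X]))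
    (fun i => Ideal.Quotient.mk _ (if i ∈ V then -(b i) else b i)) (Sv b p) (by
      intro i hi
      rw [Sv, Finset.mem_filter] at hi
      rw [Ne, Ideal.Quotient.eq_zero_iff_mem, hdv]
      exact hi.2) hMp Q q0 q1 h0 h1
  refine le_trans ?_ key
  have h2 : (univ.filter (fun c : Fin m → Fin R => symmDiff V (cs c Q) ∈ Iv f p)).card ≤
      (univ.filter (fun c : Fin m → Fin R => ∑ i ∈ cs c Q,
        (Ideal.Quotient.mk (Ideal.span ({(X - C p.1) ^ (2 * p.2)} : Set K[X]))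
          (if i ∈ V then -(b i) else b i)) = 0)).card := by
    apply Finset.card_le_card
    intro c hc
    rw [Finset.mem_filter] at hc ⊢
    refine ⟨Finset.mem_univ _, ?_⟩
    rw [Iv, Finset.mem_filter] at hV
    have h3 := hc.2
    rw [Iv, Finset.mem_filter] at h3
    have h4 := nc_dvd h V (cs c Q) p.1 p.2 hV.2.2 h3.2.2
    rw [← map_sum, Ideal.Quotient.eq_zero_iff_mem, Ideal.mem_span_singleton]
    exact h4
  exact_mod_cast h2

end Pool.H91.HQ
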