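import Pool.Agent.H91.HQ.NB
import Pool.Agent.H91.HQ.NK
import Pool.Agent.H91.HQ.BF

set_option autoImplicit false

/-!
Row NE (project MP_259062_HQ): a positive proportion of the random subcubes hits many zeros.

PROOF. `R = 19`, `N = 2^18 = 262144`, `ε = 1/(11 N)`, `M` from `nc_coin 19`, `m1 = 8100 + 4 (M + 1)`.
`Pn := (Pts f n).filter (M < #(Sv b p))`.
`sum over (V,c) of hit f n V c = sum over p ∈ Pts f n of #{(V,c) | ∃ Q ∈ QQ 19, symmDiff V (cs c Q) ∈ Iv f p}
  ≥ sum over p ∈ Pn of #(Iv f p) * 19^m * (N - N^2 ε)` by `bonf` with `I = Iv f p` (hypothesis from `nc_coin`, `q0 = 0`)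
  `≥ (n 2^m/10) * 19^m * N * (10/11) = N n 2^m 19^m / 11` by `nc_nonjunta`.
Upper bound: `hit f n V c ≤ sum over Q ∈ QQ 19 of #{p ∈ Pts f n | symmDiff V (cs c Q) ∈ Iv f p} ≤ N n` (each is `n` by `nc_mass`, or `0` if
the polynomial `f (..)` is zero; `#(QQ 19) = 2^18`: `QQ R` is the powerset of `univ.erase 0`).
Let `Y` be the number of `(V,c)` with `262144 * n ≤ 22 * hit`. Then `N n 2^m 19^m / 11 ≤ Y * (N n) + 2^m 19^m * (N n/22)`, so
`Y ≥ 2^m 19^m / 22` (`n ≥ 1`).
-/

namespace Pool.H91.HQ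

open Polynomial Finset

universe u

theorem ne_QQ : (QQ 19).card = 262144 := by
  have h : QQ 19 = (univ.erase (0 : Fin 19)).powerset := by
    ext Q
    rw [QQ, Finset.mem_filter, Finset.mem_powerset]
    constructor
    · rintro ⟨-, hQ⟩ x hx
      rw [Finset.mem_erase]
      refine ⟨?_, Finset.mem_univ x⟩
      intro h0
      rw [h0] at hx
      exact hQ hx
    · intro hQ
      refine ⟨Finset.mem_univ Q, fun h0 => ?_⟩
      have h1 := hQ h0
      rw [Finset.mem_erase] at h1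
      exact h1.1 rfl
  rw [h, Finset.card_powerset, Finset.card_erase_of_mem (Finset.mem_univ _), Finset.card_univ,
    Fintype.card_fin]
  norm_num

open Classical in
theorem ne_hit {K : Type u} [Field K] [IsAlgClosed K]
    {m n : ℕ} {a : K[X]} {b : Fin m → K[X]} {f : Finset (Fin m) → K[X]} (h : NC m n a b f)
    (V : Finset (Fin m)) (c : Fin m → Fin 19) : hit f n V c ≤ 262144 * n := by
  have h1 : hit f n V c ≤ ((QQ 19).biUnion (fun Q =>
      (Pts f n).filter (fun p => symmDiff V (cs c Q) ∈ Iv f p))).card := by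
    unfold hit
    refine Finset.card_le_card (fun p hp => ?_)
    rw [Finset.mem_filter] at hp
    obtain ⟨hp1, Q, hQ, hp2⟩ := hp
    rw [Finset.mem_biUnion]
    exact ⟨Q, hQ, Finset.mem_filter.mpr ⟨hp1, hp2⟩⟩
  refine h1.trans ?_
  rw [← ne_QQ]
  refine Finset.card_biUnion_le_card_mul _ _ _ (fun Q _ => ?_)
  by_cases h0 : f (symmDiff V (cs c Q)) = 0
  · have h2 : (Pts f n).filter (fun p => symmDiff V (cs c Q) ∈ Iv f p) = ∅ := by
      refine Finset.filter_false_of_mem (fun p _ hp => ?_)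
      rw [Iv, Finset.mem_filter] at hp
      exact hp.2.1 h0
    rw [h2, Finset.card_empty]
    exact Nat.zero_le _
  · exact (nc_mass h _ h0).le

open Classical in
theorem nc_many : ∃ m1 : ℕ, ∀ {K : Type u} [Field K] [CharZero K] [IsAlgClosed K]
    {m n : ℕ} {a : K[X]} {b : Fin m → K[X]} {f : Finset (Fin m) → K[X]}, NC m n a b f → m1 ≤ m →
    (2 : ℝ) ^ m * 19 ^ m / 22 ≤ (((univ : Finset (Finset (Fin m) × (Fin m → Fin 19))).filter
      (fun x => 262144 * n ≤ 22 * hit f n x.1 x.2)).card : ℝ) := by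
  have hε : (0 : ℝ) < 1 / (11 * 262144) := by norm_num
  obtain ⟨M, hM⟩ := nc_coin.{u} 19 (by norm_num) (1 / (11 * 262144)) hε
  refine ⟨8100 + 4 * (M + 1), ?_⟩
  intro K _ _ _ m n a b f h hm
  have hn : (1 : ℝ) ≤ (n : ℝ) := by exact_mod_cast h.pos
  -- double counting
  have hdc : ∑ x : Finset (Fin m) × (Fin m → Fin 19), (hit f n x.1 x.2 : ℝ) =
      ∑ p ∈ Pts f n, (((univ : Finset (Finset (Fin m) × (Fin m → Fin 19))).filter
        (fun x => ∃ Q ∈ QQ 19, symmDiff x.1 (cs x.2 Q) ∈ Iv f p)).card : ℝ) := by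
    have e1 : ∀ x : Finset (Fin m) × (Fin m → Fin 19), (hit f n x.1 x.2 : ℝ) =
        ∑ p ∈ Pts f n, (if ∃ Q ∈ QQ 19, symmDiff x.1 (cs x.2 Q) ∈ Iv f p then (1 : ℝ) else 0) := by
      intro x
      rw [hit, Finset.sum_boole]
    have e2 : ∀ p ∈ Pts f n, (((univ : Finset (Finset (Fin m) × (Fin m → Fin 19))).filter
        (fun x => ∃ Q ∈ QQ 19, symmDiff x.1 (cs x.2 Q) ∈ Iv f p)).card : ℝ) =
        ∑ x : Finset (Fin m) × (Fin m → Fin 19),
          (if ∃ Q ∈ QQ 19, symmDiff x.1 (cs x.2 Q) ∈ Iv f p then (1 : ℝ) else 0) := by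
      intro p _
      rw [Finset.sum_boole]
    rw [Finset.sum_congr rfl (fun x _ => e1 x), Finset.sum_congr rfl e2, Finset.sum_comm]
  -- lower bound
  have hlow : (262144 : ℝ) * n * (2 ^ m * 19 ^ m) / 11 ≤
      ∑ x : Finset (Fin m) × (Fin m → Fin 19), (hit f n x.1 x.2 : ℝ) := by
    rw [hdc]
    have h1 : ∑ p ∈ (Pts f n).filter (fun p => M < (Sv b p).card),
        (((univ : Finset (Finset (Fin m) × (Fin m → Fin 19))).filter
        (fun x => ∃ Q ∈ QQ 19, symmDiff x.1 (cs x.2 Q) ∈ Iv f p)).card : ℝ) ≤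
        ∑ p ∈ Pts f n, (((univ : Finset (Finset (Fin m) × (Fin m → Fin 19))).filter
        (fun x => ∃ Q ∈ QQ 19, symmDiff x.1 (cs x.2 Q) ∈ Iv f p)).card : ℝ) :=
      Finset.sum_le_sum_of_subset_of_nonneg (Finset.filter_subset _ _)
        (fun _ _ _ => Nat.cast_nonneg _)
    refine le_trans ?_ h1
    have h2 : ∀ p ∈ (Pts f n).filter (fun p => M < (Sv b p).card),
        ((Iv f p).card : ℝ) * (19 ^ m * (262144 * (10 / 11))) ≤
        (((univ : Finset (Finset (Fin m) × (Fin m → Fin 19))).filter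
        (fun x => ∃ Q ∈ QQ 19, symmDiff x.1 (cs x.2 Q) ∈ Iv f p)).card : ℝ) := by
      intro p hp
      rw [Finset.mem_filter] at hp
      have h3 := bonf 19 (Iv f p) (1 / (11 * 262144)) hε.le (fun Q h0 hQ V hV => by
        obtain ⟨q1, hq1⟩ := hQ
        exact hM h p hp.2.le Q 0 q1 h0 hq1 V hV)
      refine le_trans (le_of_eq ?_) h3
      rw [Nat.cast_ofNat]
      norm_num
      ring
    refine le_trans ?_ (Finset.sum_le_sum h2)
    rw [← Finset.sum_mul]
    have h3 := nc_nonjunta h M (by omega) (by omega)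
    have h4 : (0 : ℝ) < 19 ^ m * (262144 * (10 / 11)) := by positivity
    refine le_trans (le_of_eq ?_) (mul_le_mul_of_nonneg_right h3 h4.le)
    ring
  -- upper bound
  have hup : ∑ x : Finset (Fin m) × (Fin m → Fin 19), (hit f n x.1 x.2 : ℝ) ≤
      (((univ : Finset (Finset (Fin m) × (Fin m → Fin 19))).filter
      (fun x => 262144 * n ≤ 22 * hit f n x.1 x.2)).card : ℝ) * (262144 * n) +
      (2 ^ m * 19 ^ m) * (262144 * n / 22) := by
    rw [← Finset.sum_filter_add_sum_filter_not univ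
      (fun x : Finset (Fin m) × (Fin m → Fin 19) => 262144 * n ≤ 22 * hit f n x.1 x.2)]
    refine add_le_add ?_ ?_
    · have h1 : ∀ x ∈ (univ : Finset (Finset (Fin m) × (Fin m → Fin 19))).filter
          (fun x => 262144 * n ≤ 22 * hit f n x.1 x.2), (hit f n x.1 x.2 : ℝ) ≤ 262144 * n := by
        intro x _
        have := ne_hit h x.1 x.2
        exact_mod_cast this
      refine (Finset.sum_le_sum h1).trans (le_of_eq ?_)
      rw [Finset.sum_const, nsmul_eq_mul]
    · have h1 : ∀ x ∈ (univ : Finset (Finset (Fin m) × (Fin m → Fin 19))).filter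
          (fun x => ¬ 262144 * n ≤ 22 * hit f n x.1 x.2),
          (hit f n x.1 x.2 : ℝ) ≤ 262144 * n / 22 := by
        intro x hx
        rw [Finset.mem_filter, not_le] at hx
        have h2 : (22 : ℝ) * hit f n x.1 x.2 ≤ 262144 * n := by exact_mod_cast hx.2.le
        linarith
      refine (Finset.sum_le_sum h1).trans ?_
      rw [Finset.sum_const, nsmul_eq_mul]
      refine mul_le_mul_of_nonneg_right ?_ (by positivity)
      have h3 : ((univ : Finset (Finset (Fin m) × (Fin m → Fin 19))).filter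
          (fun x => ¬ 262144 * n ≤ 22 * hit f n x.1 x.2)).card ≤ 2 ^ m * 19 ^ m := by
        refine (Finset.card_le_univ _).trans (le_of_eq ?_)
        rw [Fintype.card_prod, Fintype.card_finset, Fintype.card_fin, Fintype.card_fun,
          Fintype.card_fin, Fintype.card_fin]
      exact_mod_cast h3
  have hfin := hlow.trans hup
  have hpos : (0 : ℝ) < 262144 * n := by positivity
  have h5 : (262144 * (n : ℝ)) * (2 ^ m * 19 ^ m / 22) ≤ (262144 * (n : ℝ)) *
      (((univ : Finset (Finset (Fin m) × (Fin m → Fin 19))).filter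
      (fun x => 262144 * n ≤ 22 * hit f n x.1 x.2)).card : ℝ) := by
    nlinarith [hfin]
  exact le_of_mul_le_mul_left h5 hpos

end Pool.H91.HQ
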