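import Pool.Agent.H91.HQ.NE
import Pool.Agent.H91.HQ.FX

set_option autoImplicit false

/-!
Row NX (project MP_259062_HQ): there is no normalised cube of large dimension.

PROOF. `m1` from `nc_many`, `L` from `fx`, `m2` with `2^L (1 - 1/38)^m ≤ 1/50` for `m ≥ m2`; `m0 = max m1 m2`. Suppose `NC m n a b f`,
`m ≥ m0`. Let `B = {(V,c) | 262144 n ≤ 22 hit f n V c}`. Fibre over `c`: if `#(cs c {0}) ≥ L`, at most `2^m/50` sets `V` (`fx`), else at most
`2^m`; the number of `c` with `#(cs c {0}) < L` is `≤ 2^L (1 - 1/38)^m 19^m ≤ 19^m/50` (`ct` with `R = 19`, `Q = {0}`, `S = univ`, `h = L`).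
So `#B ≤ 19^m 2^m/50 + 2^m 19^m/50 = 2^m 19^m/25 < 2^m 19^m/22 ≤ #B` (`nc_many`). Contradiction.
-/

namespace Pool.H91.HQ

open Polynomial Finset

universe u

theorem no_nc : ∃ m0 : ℕ, ∀ {K : Type u} [Field K] [CharZero K] [IsAlgClosed K]
    {m n : ℕ} {a : K[X]} {b : Fin m → K[X]} {f : Finset (Fin m) → K[X]}, m0 ≤ m → ¬ NC m n a b f := by
  obtain ⟨m1, h1⟩ := nc_many.{u}
  obtain ⟨L, hL⟩ := fx.{u}
  obtain ⟨m2, h2⟩ : ∃ m2 : ℕ, ∀ m, m2 ≤ m →
      (2 : ℝ) ^ L * (1 - 1 / (2 * ((19 : ℕ) : ℝ))) ^ m ≤ 1 / 50 := by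
    obtain ⟨m2, h⟩ := exists_pow_lt_of_lt_one (show (0 : ℝ) < 1 / 50 / 2 ^ L by positivity)
      (show (1 - 1 / (2 * ((19 : ℕ) : ℝ)) : ℝ) < 1 by norm_num)
    refine ⟨m2, fun m hm => ?_⟩
    have h3 : (1 - 1 / (2 * ((19 : ℕ) : ℝ)) : ℝ) ^ m ≤ (1 - 1 / (2 * ((19 : ℕ) : ℝ))) ^ m2 :=
      pow_le_pow_of_le_one (by norm_num) (by norm_num) hm
    have h4 : (1 - 1 / (2 * ((19 : ℕ) : ℝ)) : ℝ) ^ m ≤ 1 / 50 / 2 ^ L := h3.trans h.le
    rw [le_div_iff₀ (by positivity)] at h4
    rw [mul_comm]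
    exact h4
  refine ⟨max m1 m2, ?_⟩
  intro K _ _ _ m n a b f hm hNC
  classical
  have hmany := h1 hNC (le_trans (le_max_left _ _) hm)
  have hm2 := h2 m (le_trans (le_max_right _ _) hm)
  have hcard : ((univ : Finset (Finset (Fin m) × (Fin m → Fin 19))).filter
      (fun x => 262144 * n ≤ 22 * hit f n x.1 x.2)).card =
      ∑ c : Fin m → Fin 19,
        (univ.filter (fun V : Finset (Fin m) => 262144 * n ≤ 22 * hit f n V c)).card := by
    rw [Finset.card_filter, Fintype.sum_prod_type_right]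
    refine Finset.sum_congr rfl (fun c _ => ?_)
    rw [Finset.card_filter]
  have hV : ∀ c : Fin m → Fin 19,
      (((univ.filter (fun V : Finset (Fin m) => 262144 * n ≤ 22 * hit f n V c)).card : ℕ) : ℝ) ≤
      2 ^ m / 50 + (if ((cs c {0}) ∩ (univ : Finset (Fin m))).card < L then (2 : ℝ) ^ m else 0) := by
    intro c
    by_cases hc : ((cs c {0}) ∩ (univ : Finset (Fin m))).card < L
    · rw [if_pos hc]
      have h3 : (univ.filter (fun V : Finset (Fin m) =>
          262144 * n ≤ 22 * hit f n V c)).card ≤ 2 ^ m := by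
        refine (Finset.card_le_univ _).trans ?_
        rw [Fintype.card_finset, Fintype.card_fin]
      have h4 : (((univ.filter (fun V : Finset (Fin m) =>
          262144 * n ≤ 22 * hit f n V c)).card : ℕ) : ℝ) ≤ 2 ^ m := by exact_mod_cast h3
      have h5 : (0 : ℝ) ≤ 2 ^ m / 50 := by positivity
      linarith
    · rw [if_neg hc, add_zero]
      rw [Finset.inter_univ] at hc
      exact hL hNC c (not_lt.1 hc)
  have hct := ct (m := m) (R := 19) (by norm_num) {0} (Finset.singleton_nonempty 0) univ L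
  rw [Finset.card_univ, Fintype.card_fin] at hct
  have hct2 : (((univ.filter (fun c : Fin m → Fin 19 =>
      ((cs c {0}) ∩ (univ : Finset (Fin m))).card < L)).card : ℕ) : ℝ) ≤ 19 ^ m / 50 := by
    refine hct.trans ?_
    have h5 : (0 : ℝ) ≤ ((19 : ℕ) : ℝ) ^ m := by positivity
    have h6 := mul_le_mul_of_nonneg_right hm2 h5
    refine h6.trans (le_of_eq ?_)
    push_cast
    ring
  have hub : (((univ : Finset (Finset (Fin m) × (Fin m → Fin 19))).filter
      (fun x => 262144 * n ≤ 22 * hit f n x.1 x.2)).card : ℝ) ≤ 2 ^ m * 19 ^ m / 25 := by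
    rw [hcard, Nat.cast_sum]
    refine (Finset.sum_le_sum (fun c _ => hV c)).trans ?_
    rw [Finset.sum_add_distrib, Finset.sum_const, Finset.card_univ, nsmul_eq_mul,
      Fintype.card_fun, Fintype.card_fin, Fintype.card_fin, ← Finset.sum_filter,
      Finset.sum_const, nsmul_eq_mul]
    have h7 : (0 : ℝ) ≤ 2 ^ m := by positivity
    have h8 := mul_le_mul_of_nonneg_right hct2 h7
    push_cast
    linarith
  have h9 : (0 : ℝ) < 2 ^ m * 19 ^ m := by positivity
  have h10 := hmany.trans hub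
  linarith

end Pool.H91.HQ
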