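import Pool.Agent.H91.HQ.PR

set_option autoImplicit false

/-!
Row PL (project MP_259062_HQ): a pencil with four squares is constant.

PROOF. Strong induction on `natDegree A + natDegree B` (for all `A`, `B`, `g`). Let `W = wr A B`, suppose `W ≠ 0`, so `A, B ≠ 0`.
Case 1: `A` and `B` have a common irreducible factor `π` (not coprime). Then `π ∣ g i ^ 2`, so `π ∣ g i` for all `i`, `π^2 ∣ A + C (l i) B` for
all `i`; subtracting two of them (`l 0 ≠ l 1`) `π^2 ∣ B`, then `π^2 ∣ A`. Write `A = π^2 A'`, `B = π^2 B'`, `g i = π g' i`;
`A' + C (l i) B' = g' i ^2`; `wr A B = π^4 wr A' B'` (`wr_mul`), induction gives `wr A' B' = 0`.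
Case 2: `IsCoprime A B`. `g i ∣ W`: `A = g^2 - C l B` gives `wr A B = wr (g^2) B = g^2 B' - 2 g g' B = g (g B' - 2 g' B)`.
The `g i` are pairwise coprime: a common prime factor of `g i`, `g j` divides `C (l i - l j) B`, so `B`, so `A`.
(If some `g i = 0` then `A = - C (l i) B`, `W = 0`.) So `g 0 g 1 g 2 g 3 ∣ W`, and `sum of natDegree (g i) ≤ natDegree W`.
For any two indices `i ≠ j`: `A`, `B` are combinations of `g i ^2`, `g j^2`, and `W = C c * wr (g i ^2) (g j ^2)` with `c ≠ 0`
(`wr` is bilinear alternating; `wr (A + l_i B) (A + l_j B) = (l_j - l_i) W`). So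
`natDegree W ≤ 2 natDegree (g i) + 2 natDegree (g j) - 1` (`wr` has degree `< ` the sum of the degrees unless it is zero: leading
terms `natDegree (p q') ≤ deg p + deg q - 1`; if both are constants `W = 0`).
Take `i, j` the two indices with smallest degrees `d1 ≤ d2 ≤ d3 ≤ d4`: `d1 + d2 + d3 + d4 ≤ natDegree W < 2 d1 + 2 d2`, but
`d3 + d4 ≥ d1 + d2`: contradiction. (Without ordering: sum the inequality over a suitable pair; or: for all `i ≠ j`
`sum d < 2 d_i + 2 d_j`; apply it to `{0,1}` and `{2,3}` and add: `2 sum d < 2 sum d`.)
-/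

namespace Pool.H91.HQ

open Polynomial

universe u

theorem pl_nat {K : Type u} [Field K] (p q : K[X]) :
    (p * derivative q).natDegree ≤ p.natDegree + q.natDegree - 1 := by
  by_cases h : q.natDegree = 0
  · obtain ⟨x, rfl⟩ := natDegree_eq_zero.1 h
    simp
  · have h1 := natDegree_derivative_le q
    have h2 := natDegree_mul_le (p := p) (q := derivative q)
    omega

theorem pl_deg {K : Type u} [Field K] (p q : K[X]) (h : wr p q ≠ 0) :
    (wr p q).natDegree < p.natDegree + q.natDegree := by
  have h1 := pl_nat p q
  have h2 := pl_nat q p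
  have h3 : (wr p q).natDegree ≤ p.natDegree + q.natDegree - 1 := by
    unfold wr
    refine (natDegree_sub_le _ _).trans (max_le h1 ?_)
    omega
  have h4 : p.natDegree + q.natDegree ≠ 0 := by
    intro h5
    apply h
    obtain ⟨x, hx⟩ := natDegree_eq_zero.1 (show p.natDegree = 0 by omega)
    obtain ⟨y, hy⟩ := natDegree_eq_zero.1 (show q.natDegree = 0 by omega)
    rw [← hx, ← hy]
    simp [wr]
  omega

theorem pl_ind {K : Type u} [Field K] [CharZero K] (l : Fin 4 → K) (hl : Function.Injective l) :
    ∀ (N : ℕ) (A B : K[X]) (g : Fin 4 → K[X]), A.natDegree + B.natDegree < N →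
      (∀ i, A + C (l i) * B = g i ^ 2) → wr A B = 0 := by
  intro N
  induction N with
  | zero => intro A B g h _; omega
  | succ N ih =>
    intro A B g hN h
    by_contra hW
    have hA : A ≠ 0 := by
      rintro rfl
      apply hW
      simp [wr]
    have hB : B ≠ 0 := by
      rintro rfl
      apply hW
      simp [wr]
    have hdiff : ∀ i j, i ≠ j → C ((l i - l j)⁻¹) * (g i ^ 2 - g j ^ 2) = B := by
      intro i j hij
      have hne : l i - l j ≠ 0 := sub_ne_zero.2 fun e => hij (hl e)
      have h1 : g i ^ 2 - g j ^ 2 = C (l i - l j) * B := by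
        rw [← h i, ← h j, C_sub]
        ring
      rw [h1, ← mul_assoc, ← C_mul, inv_mul_cancel₀ hne, C_1, one_mul]
    by_cases hco : IsCoprime A B
    · have hg0 : ∀ i, g i ≠ 0 := by
        intro i hi
        apply hW
        have h1 := h i
        rw [hi] at h1
        have h2 : A = -(C (l i) * B) := by linear_combination h1
        rw [h2]
        unfold wr
        rw [derivative_neg, derivative_C_mul]
        ring
      have hgd : ∀ i, g i ∣ wr A B := by
        intro i
        have h2 : A = g i ^ 2 - C (l i) * B := by linear_combination h i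
        refine ⟨g i * derivative B - 2 * derivative (g i) * B, ?_⟩
        have h3 : derivative A = 2 * g i * derivative (g i) - C (l i) * derivative B := by
          rw [h2, derivative_sub, derivative_C_mul, pow_two, derivative_mul]
          ring
        unfold wr
        rw [h3]
        linear_combination (derivative B) * h2
      have hpair : ∀ i j, i ≠ j → IsCoprime (g i) (g j) := by
        intro i j hij
        obtain ⟨u, v, huv⟩ := hco
        have h1 := hdiff i j hij
        have h2 : A = g i ^ 2 - C (l i) * B := by linear_combination h i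
        have h3 : IsCoprime (g i ^ 2) (g j ^ 2) := by
          refine ⟨u + (v - u * C (l i)) * C ((l i - l j)⁻¹),
            -((v - u * C (l i)) * C ((l i - l j)⁻¹)), ?_⟩
          linear_combination (v - u * C (l i)) * h1 + huv - u * h2
        exact (IsCoprime.pow_iff (by norm_num) (by norm_num)).1 h3
      have hprod : (∏ i, g i) ∣ wr A B :=
        Finset.prod_dvd_of_coprime (fun i _ j _ hij => hpair i j hij) (fun i _ => hgd i)
      have hdeg := natDegree_le_of_dvd hprod hW
      rw [natDegree_prod _ _ (fun i _ => hg0 i), Fin.sum_univ_four] at hdeg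
      have hup : ∀ i j, i ≠ j →
          (wr A B).natDegree < 2 * (g i).natDegree + 2 * (g j).natDegree := by
        intro i j hij
        have hne : l j - l i ≠ 0 := sub_ne_zero.2 fun e => hij (hl e.symm)
        have h1 : wr (g i ^ 2) (g j ^ 2) = C (l j - l i) * wr A B := by
          rw [← h i, ← h j]
          unfold wr
          rw [derivative_add, derivative_add, derivative_C_mul, derivative_C_mul, C_sub]
          ring
        have h2 : wr (g i ^ 2) (g j ^ 2) ≠ 0 := by
          rw [h1]
          exact mul_ne_zero (C_ne_zero.2 hne) hW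
        have h3 := pl_deg _ _ h2
        rw [natDegree_pow, natDegree_pow, h1, natDegree_C_mul hne] at h3
        exact h3
      have h01 := hup 0 1 (by decide)
      have h23 := hup 2 3 (by decide)
      omega
    · have hex : ∃ π : K[X], Prime π ∧ π ∣ A ∧ π ∣ B := by
        by_contra hno
        push Not at hno
        exact hco (isCoprime_of_prime_dvd (fun hh => hA hh.1) fun z hz h1 h2 => hno z hz h1 h2)
      obtain ⟨π, hπ, hπA, hπB⟩ := hex
      have hπ0 : π ≠ 0 := hπ.ne_zero
      have hπd : 0 < π.natDegree := hπ.irreducible.natDegree_pos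
      have hπg : ∀ i, ∃ g' : K[X], g i = π * g' := by
        intro i
        apply hπ.dvd_of_dvd_pow (n := 2)
        rw [← h i]
        exact dvd_add hπA (hπB.mul_left _)
      choose g' hg' using hπg
      have h1 := hdiff 0 1 (by decide)
      set B' := C ((l 0 - l 1)⁻¹) * (g' 0 ^ 2 - g' 1 ^ 2) with hB'
      have hBe : B = π ^ 2 * B' := by
        rw [← h1, hB', hg' 0, hg' 1]
        ring
      set A' := g' 0 ^ 2 - C (l 0) * B' with hA'
      have hAe : A = π ^ 2 * A' := by
        have h2 := h 0
        rw [hg' 0] at h2
        rw [hA']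
        linear_combination h2 - C (l 0) * hBe
      have hA'0 : A' ≠ 0 := by
        intro e
        apply hA
        rw [hAe, e, mul_zero]
      have hB'0 : B' ≠ 0 := by
        intro e
        apply hB
        rw [hBe, e, mul_zero]
      have hp2 : π ^ 2 ≠ 0 := pow_ne_zero 2 hπ0
      have hdA : A.natDegree = 2 * π.natDegree + A'.natDegree := by
        rw [hAe, natDegree_mul hp2 hA'0, natDegree_pow]
      have hdB : B.natDegree = 2 * π.natDegree + B'.natDegree := by
        rw [hBe, natDegree_mul hp2 hB'0, natDegree_pow]
      have hI := ih A' B' g' (by omega) (fun i => by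
        apply mul_left_cancel₀ hp2
        have h2 := h i
        rw [hg' i] at h2
        linear_combination h2 - hAe - C (l i) * hBe)
      apply hW
      rw [hAe, hBe, wr_mul, hI, mul_zero]

theorem pencil {K : Type u} [Field K] [CharZero K] (A B : K[X]) (l : Fin 4 → K)
    (hl : Function.Injective l) (g : Fin 4 → K[X]) (h : ∀ i, A + C (l i) * B = g i ^ 2) : wr A B = 0 := by
  exact pl_ind l hl (A.natDegree + B.natDegree + 1) A B g (Nat.lt_succ_self _) h

end Pool.H91.HQ
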