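import Pool.Agent.H91.HQ.Defs

set_option autoImplicit false

/-!
Row PR (project MP_259062_HQ): Wronskian zero means proportional (characteristic zero).

PROOF of `wr_prop`. Strong induction on `natDegree p` (for all `p`) is not even needed: if `p = 0` take `0`. Let `p ≠ 0`,
`x = leadingCoeff p`, `y = leadingCoeff q`, `d = natDegree p`, `e = natDegree q`. The coefficient of `wr p q` in degree `d + e - 1`
(if `d + e ≥ 1`) is `x y (e - d)`, so `wr p q = 0` forces `d = e` (characteristic zero) (if `d + e = 0` both are constants, also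
`d = e`). Put `r = p - C (x/y) * q`: `wr r q = wr p q - C (x/y) * wr q q = 0`. If `r ≠ 0`, the same argument gives
`natDegree r = natDegree q = d`, but the leading terms cancel, so `degree r < degree q` (`Polynomial.degree_sub_lt`): contradiction.
So `r = 0`. (Alternative: `wr p q = 0` says the derivative of `p/q` vanishes; or divide by the gcd and use
`IsCoprime.wronskian_eq_zero_iff`, Mathlib's `Polynomial.wronskian a b = a * derivative b - derivative a * b`.)
PROOF of the others: direct (`derivative_C_mul`); `wr_map`: `Polynomial.derivative_map`; `wr_mul_sq`: product rule.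
-/

namespace Pool.H91.HQ

open Polynomial

universe u

theorem pr_coeff {K : Type u} [Field K] (p q : K[X]) (h : 1 ≤ p.natDegree + q.natDegree) :
    (derivative p * q).coeff (p.natDegree + q.natDegree - 1) =
      (p.natDegree : K) * p.leadingCoeff * q.leadingCoeff := by
  rcases Nat.eq_zero_or_pos p.natDegree with h0 | h0
  · rw [natDegree_eq_zero] at h0
    obtain ⟨x, rfl⟩ := h0
    simp
  · have h1 : p.natDegree + q.natDegree - 1 = (p.natDegree - 1) + q.natDegree := by omega
    rw [h1]
    have h2 : (derivative p).natDegree ≤ p.natDegree - 1 := natDegree_derivative_le p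
    rw [coeff_mul_add_eq_of_natDegree_le h2 le_rfl, coeff_derivative]
    have h3 : p.natDegree - 1 + 1 = p.natDegree := by omega
    have h4 : ((p.natDegree - 1 : ℕ) : K) + 1 = (p.natDegree : K) := by
      have h5 := congrArg (Nat.cast (R := K)) h3
      rwa [Nat.cast_add, Nat.cast_one] at h5
    rw [h3, h4]
    simp only [leadingCoeff]
    ring

theorem pr_deg {K : Type u} [Field K] [CharZero K] (p q : K[X]) (h : wr p q = 0) (hp : p ≠ 0)
    (hq : q ≠ 0) : p.natDegree = q.natDegree := by
  by_cases h1 : 1 ≤ p.natDegree + q.natDegree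
  · have h2 := pr_coeff p q h1
    have h3 := pr_coeff q p (by omega)
    have h4 : derivative p * q = derivative q * p := by
      unfold wr at h
      linear_combination -h
    rw [h4, Nat.add_comm p.natDegree q.natDegree, h3] at h2
    have h5 : ((q.natDegree : K) - p.natDegree) * (p.leadingCoeff * q.leadingCoeff) = 0 := by
      linear_combination h2
    rcases mul_eq_zero.1 h5 with h6 | h6
    · have h7 := sub_eq_zero.1 h6
      exact_mod_cast h7.symm
    · exfalso
      rcases mul_eq_zero.1 h6 with h7 | h7
      · exact hp (leadingCoeff_eq_zero.1 h7)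
      · exact hq (leadingCoeff_eq_zero.1 h7)
  · omega

theorem wr_prop {K : Type u} [Field K] [CharZero K] (p q : K[X]) (h : wr p q = 0) (hq : q ≠ 0) :
    ∃ x : K, p = C x * q := by
  by_cases hp : p = 0
  · exact ⟨0, by rw [hp, C_0, zero_mul]⟩
  have hd := pr_deg p q h hp hq
  have hy : q.leadingCoeff ≠ 0 := mt leadingCoeff_eq_zero.1 hq
  have hx : p.leadingCoeff ≠ 0 := mt leadingCoeff_eq_zero.1 hp
  refine ⟨p.leadingCoeff / q.leadingCoeff, ?_⟩
  by_contra hne
  have hr : p - C (p.leadingCoeff / q.leadingCoeff) * q ≠ 0 := sub_ne_zero.2 hne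
  have hr2 : wr (p - C (p.leadingCoeff / q.leadingCoeff) * q) q = 0 := by
    unfold wr at h ⊢
    rw [derivative_sub, derivative_C_mul]
    linear_combination h
  have hd2 := pr_deg _ q hr2 hr hq
  have h3 : (p - C (p.leadingCoeff / q.leadingCoeff) * q).degree < p.degree := by
    apply degree_sub_lt_left
    · rw [degree_C_mul (div_ne_zero hx hy), degree_eq_natDegree hp, degree_eq_natDegree hq, hd]
    · exact hp
    · rw [leadingCoeff_mul, leadingCoeff_C, div_mul_cancel₀ _ hy]
  have h4 := natDegree_lt_natDegree hr h3
  omega

theorem wr_C {K : Type u} [Field K] (x y : K) (q : K[X]) : wr (C x * q) (C y * q) = 0 := by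
  unfold wr
  rw [derivative_C_mul, derivative_C_mul]
  ring

theorem wr_map {K L : Type u} [Field K] [Field L] (φ : K →+* L) (p q : K[X]) :
    wr (p.map φ) (q.map φ) = (wr p q).map φ := by
  unfold wr
  simp only [Polynomial.map_sub, Polynomial.map_mul, derivative_map]

theorem wr_mul {K : Type u} [Field K] (g p q : K[X]) : wr (g * p) (g * q) = g ^ 2 * wr p q := by
  unfold wr
  simp only [derivative_mul]
  ring

end Pool.H91.HQ
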