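import Pool.Agent.H91.HQ.NX
import Pool.Agent.H91.HQ.MO
import Pool.Agent.H91.HQ.GC

set_option autoImplicit false

/-!
Row TA (project MP_259062_HQ): not too many pairwise non proportional generators.

PROOF. `m0 := max 2 (m0 of no_nc)`. Suppose `T : Finset (Fin d)` has `m0 ≤ #T` and is pairwise non proportional; shrink it to
`#T = m0`; let `φ : Fin m0 → Fin d` be injective with image `T` (`T.orderEmbOfFin`). Sub-cube: `a`, `b ∘ φ`,
`f V = choose (hsq (V.map φ))`, `sum over V.map φ of b = sum over V of b (φ i)` (`Finset.sum_map`). Apply `moeb`, then `gcom`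
(`2 ≤ m0`), then `no_nc` with `m = m0`: contradiction.
-/

namespace Pool.H91.HQ

open Polynomial Finset

universe u

theorem few_classes : ∃ m0 : ℕ, ∀ {K : Type u} [Field K] [CharZero K] [IsAlgClosed K] {d : ℕ}
    (a : K[X]) (b : Fin d → K[X]), (∀ V : Finset (Fin d), ∃ g : K[X], a + ∑ i ∈ V, b i = g ^ 2) →
    ∀ T : Finset (Fin d), (∀ i ∈ T, ∀ j ∈ T, i ≠ j → wr (b i) (b j) ≠ 0) → T.card < m0 := by
  obtain ⟨m1, hm1⟩ := no_nc.{u}
  refine ⟨max 2 m1, ?_⟩
  intro K _ _ _ d a b hsq T hT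
  by_contra hcard
  rw [not_lt] at hcard
  obtain ⟨T', hT'T, hT'card⟩ := Finset.exists_subset_card_eq hcard
  set φ : Fin (max 2 m1) ↪ Fin d := (T'.orderEmbOfFin hT'card).toEmbedding with hφ
  have hφmem : ∀ i, φ i ∈ T := fun i => hT'T (T'.orderEmbOfFin_mem hT'card i)
  choose f hf using fun V : Finset (Fin (max 2 m1)) => hsq (V.map φ)
  have hsq' : ∀ V, f V ^ 2 = a + ∑ i ∈ V, (fun i => b (φ i)) i := by
    intro V
    rw [← hf V, Finset.sum_map]
  have hw' : ∀ i j, i ≠ j → wr ((fun i => b (φ i)) i) ((fun i => b (φ i)) j) ≠ 0 := by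
    intro i j hij
    exact hT _ (hφmem i) _ (hφmem j) (fun h => hij (φ.injective h))
  obtain ⟨n, a1, b1, f1, h1, h2, h3⟩ := moeb a (fun i => b (φ i)) f hsq' hw'
  obtain ⟨n', a2, b2, f2, hNC⟩ := gcom (le_max_left 2 m1) n a1 b1 f1 h1 h2 h3
  exact hm1 (le_max_right 2 m1) hNC

end Pool.H91.HQ
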