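import Pool.Agent.H91.HQ.TA
import Pool.Agent.H91.HQ.PL
import Pool.Agent.H91.HQ.LO

/-!
Row TB (project MP_259062_HQ): the theorem over algebraically closed fields.

PROOF. `m0` from `few_classes`, `D := 8 * m0 + 1`. Let `d ≥ D`.
(1) Take `T : Finset (Fin d)` of maximal cardinality with pairwise nonzero Wronskians (finitely many finsets, `∅` qualifies;
`Finset.exists_max_image` over the filter of `univ`). `#T < m0`. By maximality every `i` has `j ∈ T` with `wr (b i) (b j) = 0` (or `i ∈ T`, `j = i`),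
so `b i = C x * b j` with `x ≠ 0` (`wr_prop`, `b i ≠ 0`).
(2) Pigeonhole (`Finset.exists_lt_card_fiberwise_of_mul_lt_card_of_maps_to`): `8 * #T < d`, so some `j ∈ T` has a set `J` of `9` indices
`i` with `b i = C (x i) * B`, `B = b j`, `x i ≠ 0`.
(3) For `V0` disjoint from `J` put `A = a + sum over V0 of b`. For `W ⊆ J`: `A + C (sum over W of x) * B` is a square.
The values `sum over W of x`, `W ⊆ J`, take at least four different values: by `lo` (over `K`, `E = K`, index type `{i // i ∈ J}`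
or `Fin 9` via an equivalence, `S = univ`) each value is taken by a number `N` of subsets with `N^2 * 10 ≤ 4^9`, so `N ≤ 161`, and
`512 > 3 * 161 = 483`. So there is an injective `l : Fin 4 → K` of values; `pencil` gives `wr A B = 0`, and `A = C α * B` (`wr_prop`).
(4) `V0 = ∅`: `a = C α * B`. `V0 = {i}`, `i ∉ J`: `a + b i = C α' * B`, so `b i = C (α' - α) * B`. `i ∈ J`: known. `h = B ≠ 0`.
-/

set_option autoImplicit false

namespace Pool.H91.HQ

open Polynomial Finset

universe u

private theorem TB_scal {K : Type u} [Field K] [CharZero K] (p q : K[X]) (hp : p ≠ 0) (hq : q ≠ 0)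
    (h : wr p q = 0) : ∃ x : K, x ≠ 0 ∧ p = C x * q := by
  obtain ⟨x, hx⟩ := wr_prop p q h hq
  refine ⟨x, ?_, hx⟩
  rintro rfl
  apply hp
  rw [hx, C_0, zero_mul]

private theorem TB_symm {K : Type u} [Field K] (p q : K[X]) (h : wr p q = 0) : wr q p = 0 := by
  unfold wr at h ⊢
  linear_combination -h

open Classical in
private theorem TB_class {K : Type u} [Field K] [CharZero K] {d : ℕ} (b : Fin d → K[X])
    (hb : ∀ i, b i ≠ 0) : ∃ T : Finset (Fin d), (∀ i ∈ T, ∀ j ∈ T, i ≠ j → wr (b i) (b j) ≠ 0) ∧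
      ∀ i, ∃ j ∈ T, ∃ x : K, x ≠ 0 ∧ b i = C x * b j := by
  obtain ⟨T, hT, hmax⟩ := Finset.exists_max_image
    (Finset.univ.filter fun T : Finset (Fin d) => ∀ i ∈ T, ∀ j ∈ T, i ≠ j → wr (b i) (b j) ≠ 0)
    Finset.card ⟨∅, by simp⟩
  rw [Finset.mem_filter] at hT
  refine ⟨T, hT.2, fun i => ?_⟩
  by_cases hi : i ∈ T
  · exact ⟨i, hi, 1, one_ne_zero, by rw [C_1, one_mul]⟩
  · by_contra hcon
    push Not at hcon
    have h1 : ∀ j ∈ T, wr (b i) (b j) ≠ 0 := by
      intro j hj h0
      obtain ⟨x, hx, hx'⟩ := TB_scal _ _ (hb i) (hb j) h0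
      exact hcon j hj x hx hx'
    have h2 : insert i T ∈ (Finset.univ.filter fun T : Finset (Fin d) =>
        ∀ i ∈ T, ∀ j ∈ T, i ≠ j → wr (b i) (b j) ≠ 0) := by
      rw [Finset.mem_filter]
      refine ⟨Finset.mem_univ _, fun p hp q hq hpq => ?_⟩
      rw [Finset.mem_insert] at hp hq
      rcases hp with rfl | hp
      · rcases hq with rfl | hq
        · exact absurd rfl hpq
        · exact h1 q hq
      · rcases hq with rfl | hq
        · intro h0
          exact h1 p hp (TB_symm _ _ h0)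
        · exact hT.2 p hp q hq hpq
    have h3 := hmax _ h2
    rw [Finset.card_insert_of_notMem hi] at h3
    omega

open Classical in
private theorem TB_vals {K : Type u} [Field K] [CharZero K] {ι : Type} [Fintype ι]
    (hι : Fintype.card ι = 9) (g : ι → K) (hg : ∀ i, g i ≠ 0) :
    ∃ l : Fin 4 → K, Function.Injective l ∧ ∀ t, ∃ W : Finset ι, ∑ i ∈ W, g i = l t := by
  have h1 : ∀ y : K, ((Finset.univ : Finset (Finset ι)).filter
      (fun W => ∑ i ∈ W, g i = y)).card ≤ 161 := by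
    intro y
    have h := lo (K := K) g Finset.univ (fun i _ => hg i) y
    rw [Finset.card_univ, hι] at h
    by_contra hcon
    push Not at hcon
    have h2 : 162 ^ 2 ≤ ((Finset.univ : Finset (Finset ι)).filter
      (fun W => ∑ i ∈ W, g i = y)).card ^ 2 := Nat.pow_le_pow_left hcon 2
    norm_num at h h2
    omega
  have h2 := Finset.card_le_mul_card_image (f := fun W : Finset ι => ∑ i ∈ W, g i)
    (Finset.univ : Finset (Finset ι)) 161 (fun y _ => h1 y)
  rw [Finset.card_univ, Fintype.card_finset, hι] at h2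
  have h3 : 4 ≤ ((Finset.univ : Finset (Finset ι)).image fun W => ∑ i ∈ W, g i).card := by
    norm_num at h2
    omega
  obtain ⟨V4, hV4, hc⟩ := Finset.exists_subset_card_eq h3
  refine ⟨fun t => ((V4.equivFinOfCardEq hc).symm t : K), ?_, fun t => ?_⟩
  · intro s t hst
    exact (V4.equivFinOfCardEq hc).symm.injective (Subtype.ext hst)
  · have h4 := hV4 ((V4.equivFinOfCardEq hc).symm t).2
    rw [Finset.mem_image] at h4
    obtain ⟨W, -, hW⟩ := h4
    exact ⟨W, hW⟩

theorem th_alg : ∃ D : ℕ, ∀ {K : Type u} [Field K] [CharZero K] [IsAlgClosed K] {d : ℕ}, D ≤ d →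
    ∀ (a : K[X]) (b : Fin d → K[X]), (∀ i, b i ≠ 0) →
    (∀ V : Finset (Fin d), ∃ g : K[X], a + ∑ i ∈ V, b i = g ^ 2) →
    ∃ h : K[X], h ≠ 0 ∧ (∃ x : K, a = C x * h) ∧ ∀ i, ∃ y : K, b i = C y * h := by
  classical
  obtain ⟨m0, hm0⟩ := few_classes.{u}
  refine ⟨8 * m0 + 1, ?_⟩
  intro K _ _ _ d hd a b hb hsq
  obtain ⟨T, hT, hcl⟩ := TB_class b hb
  have hTc := hm0 a b hsq T hT
  choose cl hclT x hx0 hx using hcl
  obtain ⟨j0, hj0, hj0c⟩ := Finset.exists_lt_card_fiber_of_mul_lt_card_of_maps_to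
    (s := (Finset.univ : Finset (Fin d))) (t := T) (f := cl) (n := 8) (fun i _ => hclT i)
    (by rw [Finset.card_univ, Fintype.card_fin]; omega)
  obtain ⟨J, hJ, hJc⟩ := Finset.exists_subset_card_eq (n := 9) hj0c
  have hJb : ∀ i ∈ J, b i = C (x i) * b j0 := by
    intro i hi
    have h1 := hJ hi
    rw [Finset.mem_filter] at h1
    have h2 := hx i
    rwa [h1.2] at h2
  obtain ⟨l, hl, hlW⟩ := TB_vals (ι := J) (by rw [Fintype.card_coe, hJc]) (fun i => x i)
    (fun i => hx0 i)
  choose W hW using hlW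
  have key : ∀ V0 : Finset (Fin d), Disjoint V0 J →
      ∃ α : K, a + ∑ i ∈ V0, b i = C α * b j0 := by
    intro V0 hV0
    have h1 : ∀ t, ∃ g : K[X], (a + ∑ i ∈ V0, b i) + C (l t) * b j0 = g ^ 2 := by
      intro t
      obtain ⟨g, hg⟩ := hsq (V0 ∪ (W t).map (Function.Embedding.subtype _))
      refine ⟨g, ?_⟩
      rw [← hg, Finset.sum_union, Finset.sum_map, ← add_assoc]
      · congr 1
        rw [← hW t, map_sum, Finset.sum_mul]
        apply Finset.sum_congr rfl
        intro i _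
        exact (hJb i i.2).symm
      · rw [Finset.disjoint_left] at hV0 ⊢
        intro i hi hi'
        rw [Finset.mem_map] at hi'
        obtain ⟨i', -, rfl⟩ := hi'
        exact hV0 hi i'.2
    choose g hg using h1
    exact wr_prop _ _ (pencil _ _ l hl g hg) (hb j0)
  obtain ⟨α, hα⟩ := key ∅ (Finset.disjoint_empty_left _)
  rw [Finset.sum_empty, add_zero] at hα
  refine ⟨b j0, hb j0, ⟨α, hα⟩, fun i => ?_⟩
  by_cases hi : i ∈ J
  · exact ⟨x i, hJb i hi⟩
  · obtain ⟨β, hβ⟩ := key {i} (Finset.disjoint_singleton_left.2 hi)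
    rw [Finset.sum_singleton] at hβ
    refine ⟨β - α, ?_⟩
    rw [C_sub, sub_mul, ← hβ, ← hα]
    ring

end Pool.H91.HQ
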