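import Pool.Agent.H91.HQ.TB

set_option autoImplicit false

/-!
Row TC (project MP_259062_HQ): the theorem for polynomials over any field of characteristic zero, squares up to constants.

PROOF. `D' := max D 1`, `D` from `th_alg`. `L := AlgebraicClosure K`, `φ = algebraMap K L`; map everything with `Polynomial.map φ`:
`a + sum = C c * g^2` gives `map = C (φ c) * (g.map φ)^2 = (C r * g.map φ)^2` with `r^2 = φ c` (`IsAlgClosed.exists_pow_nat_eq` or
`IsAlgClosed.exists_eq_mul_self`). `b i` stay nonzero (`Polynomial.map_ne_zero`... injectivity of `φ`). `th_alg` gives `h`, so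
`wr ((b i).map φ) ((b 0).map φ) = 0` and `wr (a.map φ) ((b 0).map φ) = 0` (`wr_C`), so by `wr_map` and injectivity
`wr (b i) (b 0) = 0 = wr a (b 0)` (`0 : Fin d`, `d ≥ 1`). `wr_prop` over `K`: everything is a constant times `b 0`.
-/

namespace Pool.H91.HQ

open Polynomial Finset

universe u

theorem th_poly : ∃ D : ℕ, ∀ {K : Type u} [Field K] [CharZero K] {d : ℕ}, D ≤ d →
    ∀ (a : K[X]) (b : Fin d → K[X]), (∀ i, b i ≠ 0) →
    (∀ V : Finset (Fin d), ∃ (c : K) (g : K[X]), a + ∑ i ∈ V, b i = C c * g ^ 2) →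
    ∃ (h : K[X]) (x : K) (y : Fin d → K), h ≠ 0 ∧ a = C x * h ∧ ∀ i, b i = C (y i) * h := by
  obtain ⟨D, hD⟩ := th_alg.{u}
  refine ⟨max D 1, ?_⟩
  intro K _ _ d hd a b hb hV
  have hD1 : D ≤ d := le_trans (le_max_left _ _) hd
  have hd1 : 1 ≤ d := le_trans (le_max_right _ _) hd
  let L := AlgebraicClosure K
  let φ : K →+* L := algebraMap K L
  have hφ : Function.Injective φ := φ.injective
  have : CharZero L := charZero_of_injective_algebraMap hφ
  have hb' : ∀ i, (b i).map φ ≠ 0 := fun i => by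
    intro h0
    exact hb i ((Polynomial.map_injective φ hφ) (by simpa using h0))
  have hV' : ∀ V : Finset (Fin d), ∃ g : L[X], a.map φ + ∑ i ∈ V, (b i).map φ = g ^ 2 := by
    intro V
    obtain ⟨c, g, hg⟩ := hV V
    obtain ⟨r, hr⟩ := IsAlgClosed.exists_pow_nat_eq (φ c) (n := 2) (by norm_num)
    refine ⟨C r * g.map φ, ?_⟩
    have h1 := congrArg (Polynomial.map φ) hg
    rw [Polynomial.map_add, Polynomial.map_sum, Polynomial.map_mul, Polynomial.map_pow, Polynomial.map_C, ← hr] at h1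
    rw [h1, mul_pow, C_pow]
  obtain ⟨h, hh, ⟨x, hx⟩, hy⟩ := hD (K := L) hD1 (a.map φ) (fun i => (b i).map φ) hb' hV'
  let i0 : Fin d := ⟨0, hd1⟩
  have key : ∀ p : K[X], (∃ y : L, p.map φ = C y * h) → wr p (b i0) = 0 := by
    rintro p ⟨y, hy1⟩
    obtain ⟨z, hz⟩ := hy i0
    have h2 : (wr p (b i0)).map φ = 0 := by
      rw [← wr_map]
      have : (b i0).map φ = C z * h := hz
      rw [this, hy1]
      exact wr_C _ _ _
    exact (Polynomial.map_injective φ hφ) (by simpa using h2)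
  have ha := key a ⟨x, hx⟩
  have hbi : ∀ i, wr (b i) (b i0) = 0 := fun i => key (b i) (hy i)
  obtain ⟨x', hx'⟩ := wr_prop a (b i0) ha (hb i0)
  choose y' hy' using fun i => wr_prop (b i) (b i0) (hbi i) (hb i0)
  exact ⟨b i0, x', y', hb i0, hx', hy'⟩

end Pool.H91.HQ
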