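import Pool.Agent.H91.HQ.TC

set_option autoImplicit false

/-!
Row TD (project MP_259062_HQ): the theorem for rational functions.

PROOF. `D` from `th_poly`. Common denominator: there is `q : K[X]`, `q ≠ 0`, such that `q a` and all `q b i` are (images of) polynomials
(`IsLocalization.exist_integer_multiples_of_finset` or the product of the denominators `RatFunc.denom`). Then `q^2 a = φ A`,
`q^2 b i = φ (B i)` with `φ = algebraMap K[X] (RatFunc K)`; `B i ≠ 0`.
If `a + sum over V of b = C c * g^2`: if `c = 0` or `g = 0` the polynomial vertex is `0 = C 0 * 0^2`. Otherwise `(q g)^2 = φ (C c⁻¹ * vertex)`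
is integral over `K[X]`, so `q g` is a root of the monic `Y^2 - (C c⁻¹ vertex)`, `K[X]` is integrally closed (`IsIntegrallyClosed`,
`IsIntegrallyClosed.algebraMap_eq_of_integral` / `IsIntegrallyClosed.isIntegral_iff`), so `q g = φ G`, and the
vertex is `C c * G^2` (`φ` injective). `th_poly` gives `A = C x * H`, `B i = C (y i) * H`; put `h = φ H / φ (q^2)`;
`RatFunc.C x = φ (C x)` (`RatFunc.algebraMap_C`).
-/

namespace Pool.H91.HQ

open Polynomial Finset

universe u

theorem th_rat : ∃ D : ℕ, ∀ {K : Type u} [Field K] [CharZero K] {d : ℕ}, D ≤ d →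
    ∀ (a : RatFunc K) (b : Fin d → RatFunc K), (∀ i, b i ≠ 0) →
    (∀ V : Finset (Fin d), ∃ (c : K) (g : RatFunc K), a + ∑ i ∈ V, b i = RatFunc.C c * g ^ 2) →
    ∃ (h : RatFunc K) (x : K) (y : Fin d → K), h ≠ 0 ∧ a = RatFunc.C x * h ∧
      ∀ i, b i = RatFunc.C (y i) * h := by
  obtain ⟨D, hD⟩ := th_poly.{u}
  refine ⟨D, ?_⟩
  intro K _ _ d hd a b hb hV
  obtain ⟨⟨q, hq⟩, hqi⟩ := IsLocalization.exist_integer_multiples_of_finite
    (nonZeroDivisors K[X]) (fun o : Option (Fin d) => o.elim a b)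
  have hq0 : q ≠ 0 := nonZeroDivisors.ne_zero hq
  have hφ : Function.Injective (algebraMap K[X] (RatFunc K)) := RatFunc.algebraMap_injective K
  obtain ⟨A0, hA0⟩ := hqi none
  choose B0 hB0 using fun i => hqi (some i)
  have hA0' : algebraMap K[X] (RatFunc K) A0 = algebraMap K[X] (RatFunc K) q * a := by
    rw [hA0]
    exact Algebra.smul_def q a
  have hB0' : ∀ i, algebraMap K[X] (RatFunc K) (B0 i) = algebraMap K[X] (RatFunc K) q * b i := by
    intro i
    rw [hB0 i]
    exact Algebra.smul_def q (b i)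
  have hφq : algebraMap K[X] (RatFunc K) q ≠ 0 := by
    intro h
    apply hq0
    apply hφ
    rw [h, map_zero]
  have hA : algebraMap K[X] (RatFunc K) (q * A0) = algebraMap K[X] (RatFunc K) q ^ 2 * a := by
    rw [map_mul, hA0']
    ring
  have hB : ∀ i, algebraMap K[X] (RatFunc K) (q * B0 i)
      = algebraMap K[X] (RatFunc K) q ^ 2 * b i := by
    intro i
    rw [map_mul, hB0' i]
    ring
  have hBne : ∀ i, q * B0 i ≠ 0 := by
    intro i h0
    have h1 := hB i
    rw [h0, map_zero] at h1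
    exact mul_ne_zero (pow_ne_zero 2 hφq) (hb i) h1.symm
  have hvert : ∀ V : Finset (Fin d), ∃ (c : K) (g : K[X]), q * A0 + ∑ i ∈ V, q * B0 i = C c * g ^ 2 := by
    intro V
    obtain ⟨c, g, hcg⟩ := hV V
    have hv : algebraMap K[X] (RatFunc K) (q * A0 + ∑ i ∈ V, q * B0 i)
        = algebraMap K[X] (RatFunc K) (C c) * (algebraMap K[X] (RatFunc K) q * g) ^ 2 := by
      rw [map_add, map_sum, hA, Finset.sum_congr rfl (fun i _ => hB i), ← Finset.mul_sum, ← mul_add, hcg,
        RatFunc.algebraMap_C]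
      ring
    by_cases hc : c = 0
    · refine ⟨0, 0, ?_⟩
      apply hφ
      rw [hv, hc]
      simp
    · have hsq : algebraMap K[X] (RatFunc K) (C c⁻¹ * (q * A0 + ∑ i ∈ V, q * B0 i))
          = (algebraMap K[X] (RatFunc K) q * g) ^ 2 := by
        rw [map_mul, hv, ← mul_assoc, ← map_mul, ← C_mul, inv_mul_cancel₀ hc, C_1, map_one, one_mul]
      have hint : IsIntegral K[X] ((algebraMap K[X] (RatFunc K) q * g) ^ 2) := by
        rw [← hsq]
        exact isIntegral_algebraMap
      obtain ⟨G, hG⟩ := IsIntegrallyClosed.exists_algebraMap_eq_of_isIntegral_pow (R := K[X])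
        (K := RatFunc K) (n := 2) (by norm_num) hint
      refine ⟨c, G, ?_⟩
      apply hφ
      rw [hv, map_mul, map_pow, hG]
  obtain ⟨H, x, y, hH, hAH, hBH⟩ := hD hd (q * A0) (fun i => q * B0 i) hBne hvert
  have hHne : algebraMap K[X] (RatFunc K) H ≠ 0 := by
    intro h
    apply hH
    apply hφ
    rw [h, map_zero]
  refine ⟨algebraMap K[X] (RatFunc K) H / algebraMap K[X] (RatFunc K) q ^ 2, x, y,
    div_ne_zero hHne (pow_ne_zero 2 hφq), ?_, ?_⟩
  · rw [← mul_div_assoc, ← RatFunc.algebraMap_C, ← map_mul, ← hAH, hA]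
    field_simp
  · intro i
    rw [← mul_div_assoc, ← RatFunc.algebraMap_C, ← map_mul, ← hBH i, hB i]
    field_simp

end Pool.H91.HQ
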