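import Pool.Agent.H91.HQ.TD
import Pool.Agent.H91.HQ.HC

set_option autoImplicit false

/-!
Row TE (project MP_259062_HQ): cubes of squares in `K(t)` and in `K`.

PROOF. `D' := max D 1`, `D` from `th_rat`. (←) `hasCube_map` with `RatFunc.C`. (→) Let `a`, `b` be a `d`-cube of squares in `RatFunc K`.
`th_rat` (with `c = 1`; `IsSquare x` is `x = r * r`) gives `a = C x * h`, `b i = C (y i) * h`, so vertex `V` is `C (x + sum_V y) * h`.
`y i ≠ 0` because `b i ≠ 0`. `d ≥ 1`: one of `V0 = ∅`, `V0 = {0}` has `γ := x + sum over V0 of y ≠ 0` (their difference is `y 0 ≠ 0`).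
`C γ * h = r0 * r0` with `r0 ≠ 0` (`h ≠ 0`). New cube over `K`: `x / γ`, `y i / γ` (nonzero). For `V`: `C ((x + sum_V y)/γ) =
(C (x + sum_V y) * h) / (C γ * h) = (r / r0)^2` is a square in `RatFunc K`. A constant `C w` which is a square `s^2` in `RatFunc K` is a square in `K`:
`s` is integral over `K[X]`, so `s = φ S` with `S : K[X]`, `S^2 = C w`, evaluate at `0`: `w = (S.eval 0)^2`
(or: natDegree). (`K[X]` integrally closed in `RatFunc K`: `IsIntegrallyClosed.isIntegral_iff`.)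
-/

namespace Pool.H91.HQ

open Polynomial Finset

universe u

theorem te_const {K : Type u} [Field K] (w : K) (s : RatFunc K) (hs : RatFunc.C w = s * s) :
    IsSquare w := by
  have hint : IsIntegral K[X] s := by
    refine ⟨X ^ 2 - C (C w), monic_X_pow_sub_C _ two_ne_zero, ?_⟩
    rw [eval₂_sub, eval₂_X_pow, eval₂_C, RatFunc.algebraMap_C, hs, pow_two, sub_self]
  obtain ⟨S, hS⟩ := IsIntegrallyClosed.isIntegral_iff.1 hint
  have h1 : algebraMap K[X] (RatFunc K) (C w) = algebraMap K[X] (RatFunc K) (S * S) := by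
    rw [RatFunc.algebraMap_C, hs, map_mul, hS]
  have h2 : (C w : K[X]) = S * S := RatFunc.algebraMap_injective K h1
  refine ⟨S.eval 0, ?_⟩
  rw [← eval_mul, ← h2, eval_C]

theorem te_exists {K : Type u} [Field K] {d : ℕ} (hd : 1 ≤ d) (x : K) (y : Fin d → K)
    (hy : ∀ i, y i ≠ 0) : ∃ V : Finset (Fin d), x + ∑ i ∈ V, y i ≠ 0 := by
  by_cases hx : x = 0
  · refine ⟨{⟨0, hd⟩}, ?_⟩
    rw [Finset.sum_singleton, hx, zero_add]
    exact hy _
  · refine ⟨∅, ?_⟩
    rw [Finset.sum_empty, add_zero]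
    exact hx

theorem te_forward {K : Type u} [Field K] {d : ℕ} (hd : 1 ≤ d) (a h : RatFunc K)
    (b : Fin d → RatFunc K) (hb : ∀ i, b i ≠ 0)
    (hV : ∀ V : Finset (Fin d), IsSquare (a + ∑ i ∈ V, b i)) (x : K) (y : Fin d → K) (hh : h ≠ 0)
    (ha : a = RatFunc.C x * h) (hby : ∀ i, b i = RatFunc.C (y i) * h) : HasCube K d := by
  have hy : ∀ i, y i ≠ 0 := by
    intro i h0
    apply hb i
    rw [hby i, h0, map_zero, zero_mul]
  have hvert : ∀ V : Finset (Fin d), a + ∑ i ∈ V, b i = RatFunc.C (x + ∑ i ∈ V, y i) * h := by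
    intro V
    rw [ha, map_add, map_sum, add_mul, Finset.sum_mul]
    congr 1
    exact Finset.sum_congr rfl fun i _ => hby i
  obtain ⟨V0, hV0⟩ := te_exists hd x y hy
  obtain ⟨r0, hr0⟩ := hV V0
  rw [hvert] at hr0
  have hC0 : (RatFunc.C (x + ∑ i ∈ V0, y i) : RatFunc K) ≠ 0 := by
    intro h0
    exact hV0 ((map_eq_zero _).1 h0)
  have hr0' : r0 ≠ 0 := by
    intro h0
    rw [h0, mul_zero] at hr0
    exact mul_ne_zero hC0 hh hr0
  refine ⟨x / (x + ∑ i ∈ V0, y i), fun i => y i / (x + ∑ i ∈ V0, y i),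
    fun i => div_ne_zero (hy i) hV0, fun V => ?_⟩
  rw [← Finset.sum_div, ← add_div]
  obtain ⟨r, hr⟩ := hV V
  rw [hvert] at hr
  refine te_const _ (r / r0) ?_
  rw [map_div₀, div_mul_div_comm, ← hr, ← hr0, mul_div_mul_right _ _ hh]

theorem cube_ratFunc : ∃ D : ℕ, ∀ {K : Type u} [Field K] [CharZero K] {d : ℕ}, D ≤ d →
    (HasCube (RatFunc K) d ↔ HasCube K d) := by
  obtain ⟨D, hD⟩ := th_rat.{u}
  refine ⟨max D 1, ?_⟩
  intro K _ _ d hd
  constructor
  · rintro ⟨a, b, hb, hV⟩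
    obtain ⟨h, x, y, hh, ha, hby⟩ := hD (le_of_max_le_left hd) a b hb (fun V => by
      obtain ⟨r, hr⟩ := hV V
      exact ⟨1, r, by rw [hr, map_one, one_mul, pow_two]⟩)
    exact te_forward (le_of_max_le_right hd) a h b hb hV x y hh ha hby
  · exact hasCube_map RatFunc.C

end Pool.H91.HQ
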