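import Pool.Agent.H91.HQ.TE

set_option autoImplicit false

/-!
Row TF (project MP_259062_HQ): several variables.

PROOF. `D` from `cube_ratFunc`. (←) `hasCube_map` with `(algebraMap (MvPolynomial (Fin k) K) (FractionRing _)).comp MvPolynomial.C`.
(→) Induction on `k`, for all `K`... (fixed `K` is enough). `k = 0`: a ring homomorphism `FractionRing (MvPolynomial (Fin 0) K) →+* K`:
`MvPolynomial (Fin 0) K ≃ K` (`MvPolynomial.isEmptyRingEquiv`), injective, lift it (`IsFractionRing.lift`, hypothesis: injective); `hasCube_map`.
`k + 1`: let `L = FractionRing (MvPolynomial (Fin k) K)` (a field of characteristic zero, in the same universe).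
Ring homomorphism `MvPolynomial (Fin (k+1)) K →+* RatFunc L`: compose `MvPolynomial.finSuccEquiv K k : _ ≃ₐ[K] Polynomial (MvPolynomial (Fin k) K)`,
`Polynomial.mapRingHom (algebraMap _ L)` and `algebraMap L[X] (RatFunc L)`; all are injective; lift to the fraction field.
`hasCube_map` gives `HasCube (RatFunc L) d`, `cube_ratFunc` (over `L`) gives `HasCube L d`, induction gives `HasCube K d`.
(`CharZero L`: `algebraMap K L` is injective; e.g. `charZero_of_injective_algebraMap`.)
-/

namespace Pool.H91.HQ

open Polynomial Finset

universe u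

theorem tf_zero {K : Type u} [Field K] {d : ℕ}
    (h : HasCube (FractionRing (MvPolynomial (Fin 0) K)) d) : HasCube K d := by
  have hinj : Function.Injective ((MvPolynomial.isEmptyRingEquiv K (Fin 0)).toRingHom) :=
    (MvPolynomial.isEmptyRingEquiv K (Fin 0)).injective
  exact hasCube_map (IsFractionRing.lift (K := FractionRing (MvPolynomial (Fin 0) K)) hinj) h

theorem tf_succ {K : Type u} [Field K] {d k : ℕ}
    (h : HasCube (FractionRing (MvPolynomial (Fin (k + 1)) K)) d) :
    HasCube (RatFunc (FractionRing (MvPolynomial (Fin k) K))) d := by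
  obtain ⟨g, hg⟩ : ∃ g : MvPolynomial (Fin (k + 1)) K →+*
      RatFunc (FractionRing (MvPolynomial (Fin k) K)), Function.Injective g := by
    refine ⟨(algebraMap (FractionRing (MvPolynomial (Fin k) K))[X]
      (RatFunc (FractionRing (MvPolynomial (Fin k) K)))).comp
      ((Polynomial.mapRingHom (algebraMap (MvPolynomial (Fin k) K)
        (FractionRing (MvPolynomial (Fin k) K)))).comp
        (MvPolynomial.finSuccEquiv K k).toRingEquiv.toRingHom), ?_⟩
    refine (RatFunc.algebraMap_injective _).comp ((Polynomial.map_injective _
      (IsFractionRing.injective _ _)).comp (MvPolynomial.finSuccEquiv K k).injective)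
  exact hasCube_map (IsFractionRing.lift
    (K := FractionRing (MvPolynomial (Fin (k + 1)) K)) hg) h

theorem cube_vars : ∃ D : ℕ, ∀ {K : Type u} [Field K] [CharZero K] {d : ℕ}, D ≤ d → ∀ k : ℕ,
    (HasCube (FractionRing (MvPolynomial (Fin k) K)) d ↔ HasCube K d) := by
  obtain ⟨D, hD⟩ := cube_ratFunc.{u}
  refine ⟨D, fun {K} _ _ {d} hd k => ⟨?_, fun h => ?_⟩⟩
  · induction k with
    | zero => exact tf_zero
    | succ k ih =>
      intro h
      have hinj : Function.Injective ((algebraMap (MvPolynomial (Fin k) K)
          (FractionRing (MvPolynomial (Fin k) K))).comp (MvPolynomial.C)) := by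
        have h1 := IsFractionRing.injective (MvPolynomial (Fin k) K)
          (FractionRing (MvPolynomial (Fin k) K))
        exact h1.comp (MvPolynomial.C_injective (Fin k) K)
      haveI : CharZero (FractionRing (MvPolynomial (Fin k) K)) :=
        charZero_of_injective_ringHom hinj
      exact ih ((hD (K := FractionRing (MvPolynomial (Fin k) K)) hd).1 (tf_succ h))
  · exact hasCube_map ((algebraMap (MvPolynomial (Fin k) K)
      (FractionRing (MvPolynomial (Fin k) K))).comp (MvPolynomial.C)) h

end Pool.H91.HQ
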