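import Pool.Agent.H91.HQ.TD

set_option autoImplicit false

/-!
Row TG (project MP_259062_HQ): structure theorem in several variables.

PROOF. `D' := max D 1`, `D` from `th_rat`. Induction on `k`. Write `L k = FractionRing (MvPolynomial (Fin k) K)`.
`k = 0`: `algebraMap K (L 0)` is surjective (every element of `MvPolynomial (Fin 0) K` is a constant `C`, a quotient of constants is a
constant; use `IsFractionRing.div_surjective`/`IsLocalization.mk'_surjective`), so take `h = 1`.
Step. Ring homomorphism `ψ : L (k+1) →+* RatFunc (L k)`, lift to the fraction field (`IsFractionRing.lift` of an injective map) of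
`(algebraMap (L k)[X] (RatFunc (L k))) ∘ (Polynomial.mapRingHom (algebraMap _ (L k))) ∘ (MvPolynomial.finSuccEquiv K k)`; it satisfies
`ψ (algebraMap K _ c) = RatFunc.C (algebraMap K (L k) c)` for `c : K`. `ψ` is injective (field). `CharZero (L k)`.
Apply `th_rat` over the field `L k` to `ψ a`, `ψ (b i)` (constants `algebraMap K (L k) c`): `ψ a = C x * h`, `ψ (b i) = C (y i) * h`,
`x, y i ∈ L k`, `h ≠ 0`, `y i ≠ 0`. Since `d ≥ 1` and `y 0 ≠ 0` one of `V0 = ∅`, `{0}` has `γ := x + sum over V0 of y ≠ 0`, and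
`C γ * h = C (algebraMap K _ c0) * g0 ^ 2` with `c0 ≠ 0`, `g0 ≠ 0`. For every `V`, with `C (x + sum_V y) * h = C (alg c) * g^2`:
`C ((x + sum_V y)/γ) = C (alg (c/c0)) * (g/g0)^2`. If `c = 0` then `(x + sum_V y)/γ = 0 = alg 0 * 0^2`. If `c ≠ 0`, then `C w` with
`w = ((x + sum_V y)/γ) / alg (c/c0)` is a square `s^2` in `RatFunc (L k)`, so `w` is a square in `L k`: `s` is integral over `(L k)[X]`,
which is integrally closed in `RatFunc (L k)`, so `s` is a polynomial `S` with `S^2 = C w`, and `w = (S.eval 0)^2`.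
So `x/γ`, `y i/γ` is a cube in `L k` of `K`-multiples of squares; induction: `x/γ = alg x' * h'`, `y i/γ = alg (y' i) * h'`, `h' ≠ 0`.
Then `ψ (b i) = C (γ * alg (y' i) * h') * h = C (alg (y' i)) * (C (γ h') * h)`, `y' i ≠ 0`, similarly `ψ a`. So
`ψ (b i) = ψ (alg (y' i / y' 0)) * ψ (b 0)`, `ψ a = ψ (alg (x' / y' 0)) * ψ (b 0)`; injectivity of `ψ`: take `h := b 0`.
-/

namespace Pool.H91.HQ

open Polynomial Finset

universe u

/-- A constant of the rational function field that is a square there is a square of a constant. -/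
theorem tg_sq {F : Type u} [Field F] (w : F) (s : RatFunc F) (h : RatFunc.C w = s ^ 2) :
    ∃ t : F, w = t ^ 2 := by
  have hint : IsIntegral F[X] s := by
    refine ⟨X ^ 2 - C (Polynomial.C w), monic_X_pow_sub_C _ two_ne_zero, ?_⟩
    simp [← h, RatFunc.algebraMap_C]
  obtain ⟨S, hS⟩ := IsIntegrallyClosed.algebraMap_eq_of_integral hint
  have h2 : algebraMap F[X] (RatFunc F) (S ^ 2) = algebraMap F[X] (RatFunc F) (Polynomial.C w) := by
    rw [map_pow, hS, RatFunc.algebraMap_C, h]
  have h3 : S ^ 2 = Polynomial.C w := IsFractionRing.injective F[X] (RatFunc F) h2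
  refine ⟨S.eval 0, ?_⟩
  have h4 := congrArg (Polynomial.eval 0) h3
  rw [eval_pow, eval_C] at h4
  exact h4.symm

/-- The fraction field in `k + 1` variables embeds into the rational functions over the one in `k`. -/
theorem tg_psi (K : Type u) [Field K] (k : ℕ) :
    ∃ ψ : FractionRing (MvPolynomial (Fin (k + 1)) K) →+*
        RatFunc (FractionRing (MvPolynomial (Fin k) K)),
      ∀ c : K, ψ (algebraMap K (FractionRing (MvPolynomial (Fin (k + 1)) K)) c) =
        RatFunc.C (algebraMap K (FractionRing (MvPolynomial (Fin k) K)) c) := by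
  let L := FractionRing (MvPolynomial (Fin k) K)
  let φ : MvPolynomial (Fin (k + 1)) K →+* RatFunc L :=
    (algebraMap L[X] (RatFunc L)).comp
      ((Polynomial.mapRingHom (algebraMap (MvPolynomial (Fin k) K) L)).comp
        (MvPolynomial.finSuccEquiv K k : MvPolynomial (Fin (k + 1)) K →+* Polynomial (MvPolynomial (Fin k) K)))
  have hφ : Function.Injective φ := by
    have h1 : Function.Injective (algebraMap L[X] (RatFunc L)) := IsFractionRing.injective L[X] (RatFunc L)
    have h2 : Function.Injective (Polynomial.mapRingHom (algebraMap (MvPolynomial (Fin k) K) L)) :=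
      Polynomial.map_injective _ (IsFractionRing.injective (MvPolynomial (Fin k) K) L)
    exact h1.comp (h2.comp (MvPolynomial.finSuccEquiv K k).injective)
  refine ⟨IsFractionRing.lift hφ, fun c => ?_⟩
  rw [IsScalarTower.algebraMap_apply K (MvPolynomial (Fin (k + 1)) K)
    (FractionRing (MvPolynomial (Fin (k + 1)) K)), IsFractionRing.lift_algebraMap]
  simp only [φ, RingHom.comp_apply, MvPolynomial.algebraMap_eq]
  rw [← MvPolynomial.algebraMap_eq]
  have h3 : (MvPolynomial.finSuccEquiv K k : MvPolynomial (Fin (k + 1)) K →+* Polynomial (MvPolynomial (Fin k) K))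
      (algebraMap K (MvPolynomial (Fin (k + 1)) K) c) = Polynomial.C (algebraMap K (MvPolynomial (Fin k) K) c) := by
    have := (MvPolynomial.finSuccEquiv K k).commutes c
    simpa using this
  rw [h3, Polynomial.coe_mapRingHom, Polynomial.map_C, RatFunc.algebraMap_C,
    ← IsScalarTower.algebraMap_apply K (MvPolynomial (Fin k) K) L]

theorem tg_zero (K : Type u) [Field K] :
    Function.Surjective (algebraMap K (FractionRing (MvPolynomial (Fin 0) K))) := by
  intro z
  obtain ⟨p, q, hq, rfl⟩ := IsFractionRing.div_surjective (A := MvPolynomial (Fin 0) K) z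
  have hc : ∀ r : MvPolynomial (Fin 0) K, ∃ c : K, r = algebraMap K (MvPolynomial (Fin 0) K) c := by
    intro r
    exact ⟨_, (MvPolynomial.eq_C_of_isEmpty r)⟩
  obtain ⟨c, rfl⟩ := hc p
  obtain ⟨e, rfl⟩ := hc q
  refine ⟨c / e, ?_⟩
  rw [← IsScalarTower.algebraMap_apply K (MvPolynomial (Fin 0) K),
    ← IsScalarTower.algebraMap_apply K (MvPolynomial (Fin 0) K), map_div₀]

theorem th_vars : ∃ D : ℕ, ∀ {K : Type u} [Field K] [CharZero K] {d : ℕ}, D ≤ d → ∀ k : ℕ,
    ∀ (a : FractionRing (MvPolynomial (Fin k) K)) (b : Fin d → FractionRing (MvPolynomial (Fin k) K)),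
    (∀ i, b i ≠ 0) →
    (∀ V : Finset (Fin d), ∃ (c : K) (g : FractionRing (MvPolynomial (Fin k) K)),
      a + ∑ i ∈ V, b i = algebraMap K (FractionRing (MvPolynomial (Fin k) K)) c * g ^ 2) →
    ∃ (h : FractionRing (MvPolynomial (Fin k) K)) (x : K) (y : Fin d → K), h ≠ 0 ∧
      a = algebraMap K (FractionRing (MvPolynomial (Fin k) K)) x * h ∧
      ∀ i, b i = algebraMap K (FractionRing (MvPolynomial (Fin k) K)) (y i) * h := by
  obtain ⟨D, hD⟩ := th_rat.{u}
  refine ⟨max D 1, ?_⟩
  intro K _ _ d hd k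
  have hd1 : D ≤ d := le_trans (le_max_left _ _) hd
  have hd2 : 1 ≤ d := le_trans (le_max_right _ _) hd
  let i0 : Fin d := ⟨0, hd2⟩
  induction k with
  | zero =>
    intro a b _ _
    obtain ⟨x, hx⟩ := tg_zero K a
    choose y hy using fun i => tg_zero K (b i)
    exact ⟨1, x, y, one_ne_zero, by rw [hx, mul_one], fun i => by rw [hy, mul_one]⟩
  | succ k ih =>
    intro a b hb hV
    obtain ⟨ψ, hψ⟩ := tg_psi K k
    have hinj : Function.Injective ψ := ψ.injective
    have : CharZero (FractionRing (MvPolynomial (Fin k) K)) :=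
      charZero_of_injective_algebraMap (algebraMap K (FractionRing (MvPolynomial (Fin k) K))).injective
    have hV' : ∀ V : Finset (Fin d), ∃ (c : K) (g : RatFunc (FractionRing (MvPolynomial (Fin k) K))),
        ψ a + ∑ i ∈ V, ψ (b i) = RatFunc.C (algebraMap K _ c) * g ^ 2 := by
      intro V
      obtain ⟨c, g, hcg⟩ := hV V
      refine ⟨c, ψ g, ?_⟩
      rw [← hψ, ← map_pow, ← map_mul, ← hcg, map_add, map_sum]
    obtain ⟨h, x, y, hh, hx, hy⟩ := hD hd1 (ψ a) (fun i => ψ (b i))
      (fun i => (_root_.map_ne_zero ψ).2 (hb i)) (fun V => by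
        obtain ⟨c, g, hcg⟩ := hV' V
        exact ⟨_, g, hcg⟩)
    have hy := hy
    have hy0 : ∀ i, y i ≠ 0 := by
      intro i hi
      have := hy i
      rw [hi, map_zero, zero_mul, map_eq_zero] at this
      exact hb i this
    have hver : ∀ V : Finset (Fin d), ψ a + ∑ i ∈ V, ψ (b i) = RatFunc.C (x + ∑ i ∈ V, y i) * h := by
      intro V
      rw [map_add, map_sum, add_mul, Finset.sum_mul, hx]
      congr 1
      exact Finset.sum_congr rfl (fun i _ => hy i)
    obtain ⟨V0, hγ⟩ : ∃ V0 : Finset (Fin d), x + ∑ i ∈ V0, y i ≠ 0 := by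
      by_cases hx0 : x = 0
      · exact ⟨{i0}, by rw [hx0, zero_add, Finset.sum_singleton]; exact hy0 i0⟩
      · exact ⟨∅, by simpa using hx0⟩
    obtain ⟨γ, hγe⟩ : ∃ γ, γ = x + ∑ i ∈ V0, y i := ⟨_, rfl⟩
    obtain ⟨c0, g0, hcg0⟩ := hV' V0
    rw [hver V0, ← hγe] at hcg0
    rw [← hγe] at hγ
    have hCγ : RatFunc.C γ ≠ 0 := (_root_.map_ne_zero _).2 hγ
    have hne : RatFunc.C γ * h ≠ 0 := mul_ne_zero hCγ hh
    have hc0 : c0 ≠ 0 := by
      rintro rfl
      rw [map_zero, map_zero, zero_mul] at hcg0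
      exact hne hcg0
    have hg0 : g0 ≠ 0 := by
      rintro rfl
      rw [zero_pow two_ne_zero, mul_zero] at hcg0
      exact hne hcg0
    obtain ⟨h', x', y', hh', hx', hy'⟩ := ih (x / γ) (fun i => y i / γ)
      (fun i => div_ne_zero (hy0 i) hγ) (fun V => by
        obtain ⟨c, g, hcg⟩ := hV' V
        rw [hver V] at hcg
        obtain ⟨w, hw⟩ : ∃ w, w = x / γ + ∑ i ∈ V, y i / γ := ⟨_, rfl⟩
        have hw2 : w * γ = x + ∑ i ∈ V, y i := by
          rw [hw, ← Finset.sum_div, ← add_div, div_mul_cancel₀ _ hγ]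
        rw [← hw]
        rw [← hw2, map_mul] at hcg
        have h5 : RatFunc.C w * (RatFunc.C (algebraMap K _ c0) * g0 ^ 2) =
            RatFunc.C (algebraMap K _ c) * g ^ 2 := by
          rw [← hcg0, ← hcg]; ring
        by_cases hc : c = 0
        · refine ⟨0, 0, ?_⟩
          rw [hc, map_zero, map_zero, zero_mul] at h5
          rcases mul_eq_zero.1 h5 with h6 | h6
          · rw [map_eq_zero] at h6
            rw [h6, map_zero, zero_mul]
          · exact absurd h6 (by rw [← hcg0]; exact hne)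
        · obtain ⟨t, ht⟩ := tg_sq (w * algebraMap K _ (c0 / c)) (g / g0) (by
            have hcc : RatFunc.C (algebraMap K (FractionRing (MvPolynomial (Fin k) K)) c) ≠ 0 :=
              (_root_.map_ne_zero _).2 ((_root_.map_ne_zero _).2 hc)
            rw [map_mul, map_div₀, map_div₀, div_pow, mul_div_assoc', div_eq_div_iff hcc (pow_ne_zero 2 hg0)]
            linear_combination h5)
          refine ⟨c / c0, t, ?_⟩
          rw [← ht]
          have h7 : algebraMap K (FractionRing (MvPolynomial (Fin k) K)) (c / c0) *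
              algebraMap K (FractionRing (MvPolynomial (Fin k) K)) (c0 / c) = 1 := by
            rw [← map_mul, div_mul_div_cancel₀ hc0, div_self hc, map_one]
          linear_combination (-w) * h7)
    have hy' := hy'
    have hxx : x = γ * (algebraMap K _ x' * h') := by
      rw [← hx', mul_div_cancel₀ _ hγ]
    have hyy : ∀ i, y i = γ * (algebraMap K _ (y' i) * h') := by
      intro i
      rw [← hy' i, mul_div_cancel₀ _ hγ]
    have hy'0 : ∀ i, y' i ≠ 0 := by
      intro i hi
      apply hy0 i
      rw [hyy i, hi, map_zero, zero_mul, mul_zero]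
    refine ⟨b i0, x' / y' i0, fun i => y' i / y' i0, hb i0, ?_, fun i => ?_⟩
    · apply hinj
      rw [map_mul, hψ, hx, hy i0, hxx, hyy i0]
      have h8 : RatFunc.C (algebraMap K (FractionRing (MvPolynomial (Fin k) K)) (x' / y' i0)) *
          RatFunc.C (algebraMap K (FractionRing (MvPolynomial (Fin k) K)) (y' i0)) =
          RatFunc.C (algebraMap K (FractionRing (MvPolynomial (Fin k) K)) x') := by
        rw [← map_mul, ← map_mul, div_mul_cancel₀ _ (hy'0 i0)]
      simp only [map_mul]
      rw [← h8]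
      ring
    · apply hinj
      rw [map_mul, hψ, hy i, hy i0, hyy i, hyy i0]
      have h8 : RatFunc.C (algebraMap K (FractionRing (MvPolynomial (Fin k) K)) (y' i / y' i0)) *
          RatFunc.C (algebraMap K (FractionRing (MvPolynomial (Fin k) K)) (y' i0)) =
          RatFunc.C (algebraMap K (FractionRing (MvPolynomial (Fin k) K)) (y' i)) := by
        rw [← map_mul, ← map_mul, div_mul_cancel₀ _ (hy'0 i0)]
      simp only [map_mul]
      rw [← h8]
      ring

end Pool.H91.HQ
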