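import Pool.Agent.H91.HQ.TG

set_option autoImplicit false

/-!
Project MP_259062_HQ: final form. Every Hilbert cube of large dimension in the squares of `K(t_1,...,t_k)` is a square
times a Hilbert cube in the squares of `K`.
-/

namespace Pool.H91.HQ

open Finset

universe u

theorem sq_const {K : Type u} [Field K] (k : ℕ) (w : K)
    (h : IsSquare (algebraMap K (FractionRing (MvPolynomial (Fin k) K)) w)) : IsSquare w := by
  obtain ⟨s, hs⟩ := h
  have hint : IsIntegral (MvPolynomial (Fin k) K) s := by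
    refine ⟨Polynomial.X ^ 2 - Polynomial.C (MvPolynomial.C w), Polynomial.monic_X_pow_sub_C _ (by norm_num), ?_⟩
    have : algebraMap K (FractionRing (MvPolynomial (Fin k) K)) w =
        algebraMap (MvPolynomial (Fin k) K) (FractionRing (MvPolynomial (Fin k) K)) (MvPolynomial.C w) := by
      rw [IsScalarTower.algebraMap_apply K (MvPolynomial (Fin k) K) (FractionRing (MvPolynomial (Fin k) K))]
      rfl
    simp only [Polynomial.eval₂_sub, Polynomial.eval₂_pow, Polynomial.eval₂_X, Polynomial.eval₂_C]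
    rw [← this, hs]; ring
  obtain ⟨S, hS⟩ := (IsIntegrallyClosed.isIntegral_iff).1 hint
  have h2 : S * S = MvPolynomial.C w := by
    apply IsFractionRing.injective (MvPolynomial (Fin k) K) (FractionRing (MvPolynomial (Fin k) K))
    rw [map_mul, hS, ← hs, IsScalarTower.algebraMap_apply K (MvPolynomial (Fin k) K)
      (FractionRing (MvPolynomial (Fin k) K))]
    rfl
  refine ⟨MvPolynomial.constantCoeff S, ?_⟩
  rw [← map_mul, h2, MvPolynomial.constantCoeff_C]

theorem th_final : ∃ D : ℕ, ∀ {K : Type u} [Field K] [CharZero K] {d : ℕ}, D ≤ d → ∀ k : ℕ,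
    ∀ (a : FractionRing (MvPolynomial (Fin k) K)) (b : Fin d → FractionRing (MvPolynomial (Fin k) K)),
    (∀ i, b i ≠ 0) → (∀ V : Finset (Fin d), IsSquare (a + ∑ i ∈ V, b i)) →
    ∃ (h : FractionRing (MvPolynomial (Fin k) K)) (x : K) (y : Fin d → K), h ≠ 0 ∧
      a = algebraMap K (FractionRing (MvPolynomial (Fin k) K)) x * h ^ 2 ∧
      (∀ i, b i = algebraMap K (FractionRing (MvPolynomial (Fin k) K)) (y i) * h ^ 2) ∧
      (∀ i, y i ≠ 0) ∧ ∀ V : Finset (Fin d), IsSquare (x + ∑ i ∈ V, y i) := by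
  obtain ⟨D, hD⟩ := th_vars.{u}
  refine ⟨max D 1, ?_⟩
  intro K _ _ d hd k a b hb hV
  have hd1 : 1 ≤ d := le_trans (le_max_right _ _) hd
  obtain ⟨h, x, y, hh, hax, hby⟩ := hD (le_trans (le_max_left _ _) hd) k a b hb (fun V => by
    obtain ⟨r, hr⟩ := hV V
    exact ⟨1, r, by rw [hr, map_one]; ring⟩)
  have hy : ∀ i, y i ≠ 0 := by
    intro i hi
    apply hb i
    rw [hby i, hi, map_zero, zero_mul]
  -- vertices
  have hvert : ∀ V : Finset (Fin d), a + ∑ i ∈ V, b i =
      algebraMap K (FractionRing (MvPolynomial (Fin k) K)) (x + ∑ i ∈ V, y i) * h := by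
    intro V
    rw [hax, map_add, map_sum, add_mul, Finset.sum_mul]
    congr 1
    exact Finset.sum_congr rfl (fun i _ => hby i)
  obtain ⟨V0, hV0⟩ : ∃ V0 : Finset (Fin d), x + ∑ i ∈ V0, y i ≠ 0 := by
    by_contra hcon
    push Not at hcon
    have h0 := hcon ∅
    have h1 := hcon {⟨0, hd1⟩}
    rw [Finset.sum_empty, add_zero] at h0
    rw [Finset.sum_singleton, h0, zero_add] at h1
    exact hy _ h1
  obtain ⟨r, hr⟩ := hV V0
  rw [hvert V0] at hr
  set γ := x + ∑ i ∈ V0, y i with hγ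
  have hγ' : algebraMap K (FractionRing (MvPolynomial (Fin k) K)) γ ≠ 0 := by
    rw [Ne, map_eq_zero]; exact hV0
  have hr0 : r ≠ 0 := by
    intro h0
    rw [h0, mul_zero] at hr
    rcases mul_eq_zero.1 hr with h1 | h1
    · exact hγ' h1
    · exact hh h1
  have hkey : ∀ w : K, algebraMap K (FractionRing (MvPolynomial (Fin k) K)) w * h =
      algebraMap K (FractionRing (MvPolynomial (Fin k) K)) (w / γ) * r ^ 2 := by
    intro w
    rw [sq, ← hr, map_div₀]
    field_simp
  refine ⟨r, x / γ, fun i => y i / γ, hr0, ?_, ?_, ?_, ?_⟩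
  · rw [hax, hkey]
  · intro i; rw [hby i, hkey]
  · intro i; exact div_ne_zero (hy i) hV0
  · intro V
    apply sq_const k
    obtain ⟨s, hs⟩ := hV V
    rw [hvert V, hkey] at hs
    refine ⟨s / r, ?_⟩
    have : x / γ + ∑ i ∈ V, y i / γ = (x + ∑ i ∈ V, y i) / γ := by
      rw [add_div, Finset.sum_div]
    rw [this]
    have hr2 : r ^ 2 ≠ 0 := pow_ne_zero 2 hr0
    have h3 : algebraMap K (FractionRing (MvPolynomial (Fin k) K)) ((x + ∑ i ∈ V, y i) / γ) = s * s / r ^ 2 := by
      rw [← hs, mul_div_assoc, div_self hr2, mul_one]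
    rw [h3, div_mul_div_comm, sq]

end Pool.H91.HQ
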