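import Pool.Agent.H91.HQ.NA

set_option autoImplicit false

/-!
Row VA (project MP_259062_HQ): the auxiliary polynomial vanishes at the base point of a subcube which hits many zeros.

PROOF. Let `R` be the sum in the conclusion. `natDegree R ≤ (H + 4E) n`: each term has degree at most
`H n + 2n * i + 2n * j` (`natDegree (f V ^ 2) ≤ 2n` by `nc_fdeg`). Suppose `R ≠ 0`.
Let `p = (z, s)` be counted by `hit f n V c`: there is `Q ∈ QQ 19` with `W := symmDiff V (cs c Q) ∈ Iv f p`, so `(X - C z)^s ∣ f W`.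
Let `σ = - fs b V (cs c Q)`. `nc_flip`: `f W ^ 2 = f V ^ 2 - σ`. So `f W ∣ f V ^ 2 - σ` and
`f W ∣ derivative (f V ^ 2) - derivative σ = derivative (f W ^ 2) = 2 * f W * derivative (f W)`.
Hence `f W` divides `R - (sum with σ in place of f V ^ 2) = R - 0` (`x ≡ x'` and `y ≡ y'` modulo `f W` imply
`x^i y^j ≡ x'^i y'^j`: `sub_dvd_pow_sub_pow`, or work in the quotient ring / with `Ideal.Quotient.mk`). So `(X - C z)^s ∣ R`.
By `deg_count` with `k = 1` (`Pts f n` is a product `Z ×ˢ Icc 1 n`): `hit f n V c ≤ natDegree R ≤ (H + 4E) n`, contradiction.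
-/

namespace Pool.H91.HQ

open Polynomial Finset

universe u

variable {K : Type u} [Field K] {m n : ℕ} {a : K[X]} {b : Fin m → K[X]} {f : Finset (Fin m) → K[X]}

theorem va_pow (d x x' : K[X]) (h : d ∣ x - x') (i : ℕ) : d ∣ x ^ i - x' ^ i :=
  h.trans (sub_dvd_pow_sub_pow x x' i)

theorem va_term (d x x' y y' g : K[X]) (hx : d ∣ x - x') (hy : d ∣ y - y') (i j : ℕ) :
    d ∣ g * x ^ i * y ^ j - g * x' ^ i * y' ^ j := by
  have e : g * x ^ i * y ^ j - g * x' ^ i * y' ^ j =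
      (x ^ i - x' ^ i) * (g * y ^ j) + (y ^ j - y' ^ j) * (g * x' ^ i) := by ring
  rw [e]
  exact dvd_add (Dvd.dvd.mul_right (va_pow d x x' hx i) _) (Dvd.dvd.mul_right (va_pow d y y' hy j) _)

theorem va_deg (h : NC m n a b f) (E H : ℕ) (G : Fin E → Fin E → K[X])
    (hG : ∀ i j, (G i j).degree < ((H * n : ℕ) : WithBot ℕ)) (V : Finset (Fin m)) :
    (∑ i : Fin E, ∑ j : Fin E, G i j * (f V ^ 2) ^ (i : ℕ) *
      (derivative (f V ^ 2)) ^ (j : ℕ)).natDegree ≤ (H + 4 * E) * n := by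
  refine natDegree_sum_le_of_forall_le _ _ fun i _ => ?_
  refine natDegree_sum_le_of_forall_le _ _ fun j _ => ?_
  have h1 : (G i j).natDegree ≤ H * n := natDegree_le_of_degree_le (hG i j).le
  have h2 : (f V ^ 2).natDegree ≤ 2 * n := natDegree_pow_le_of_le 2 (nc_fdeg h V)
  have h3 : (derivative (f V ^ 2)).natDegree ≤ 2 * n :=
    (natDegree_derivative_le _).trans ((Nat.sub_le _ _).trans h2)
  have h4 : ((f V ^ 2) ^ (i : ℕ)).natDegree ≤ (i : ℕ) * (2 * n) := natDegree_pow_le_of_le _ h2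
  have h5 : ((derivative (f V ^ 2)) ^ (j : ℕ)).natDegree ≤ (j : ℕ) * (2 * n) :=
    natDegree_pow_le_of_le _ h3
  have h6 : (i : ℕ) * (2 * n) ≤ E * (2 * n) := Nat.mul_le_mul_right _ i.2.le
  have h7 : (j : ℕ) * (2 * n) ≤ E * (2 * n) := Nat.mul_le_mul_right _ j.2.le
  refine natDegree_mul_le.trans ?_
  refine (Nat.add_le_add (natDegree_mul_le.trans (Nat.add_le_add h1 (h4.trans h6)))
    (h5.trans h7)).trans (le_of_eq ?_)
  ring

theorem va (h : NC m n a b f) (E H : ℕ) (G : Fin E → Fin E → K[X])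
    (hG : ∀ i j, (G i j).degree < ((H * n : ℕ) : WithBot ℕ)) (V : Finset (Fin m)) (c : Fin m → Fin 19)
    (hz : ∀ Q ∈ QQ 19, ∑ i : Fin E, ∑ j : Fin E, G i j * (-(fs b V (cs c Q))) ^ (i : ℕ) *
      (derivative (-(fs b V (cs c Q)))) ^ (j : ℕ) = 0)
    (hbig : (H + 4 * E) * n < hit f n V c) :
    ∑ i : Fin E, ∑ j : Fin E, G i j * (f V ^ 2) ^ (i : ℕ) * (derivative (f V ^ 2)) ^ (j : ℕ) = 0 := by
  classical
  by_contra hR
  have h1 := deg_count _ hR (univ.biUnion (fun V => (f V).roots.toFinset)) n 1 le_rfl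
  have h2 := va_deg h E H G hG V
  have h3 : hit f n V c ≤
      (((univ.biUnion (fun V => (f V).roots.toFinset)) ×ˢ Icc 1 n).filter
        (fun p : K × ℕ => (X - C p.1) ^ (1 * p.2) ∣ ∑ i : Fin E, ∑ j : Fin E,
          G i j * (f V ^ 2) ^ (i : ℕ) * (derivative (f V ^ 2)) ^ (j : ℕ))).card := by
    rw [hit]
    refine Finset.card_le_card ?_
    intro p hp
    rw [Finset.mem_filter] at hp
    obtain ⟨hp1, Q, hQ, hW⟩ := hp
    rw [Finset.mem_filter]
    refine ⟨?_, ?_⟩
    · rw [Pts] at hp1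
      exact hp1
    · rw [one_mul]
      rw [Iv, Finset.mem_filter] at hW
      refine hW.2.2.trans ?_
      have e1 := nc_flip h V (cs c Q)
      have hx : f (symmDiff V (cs c Q)) ∣ f V ^ 2 - (-(fs b V (cs c Q))) := by
        rw [sub_neg_eq_add, ← e1, pow_two]
        exact Dvd.intro _ rfl
      have hy : f (symmDiff V (cs c Q)) ∣
          derivative (f V ^ 2) - derivative (-(fs b V (cs c Q))) := by
        rw [← derivative_sub, sub_neg_eq_add, ← e1, pow_two, derivative_mul]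
        exact dvd_add (Dvd.intro_left _ rfl) (Dvd.intro _ rfl)
      have hs := Finset.dvd_sum (s := (Finset.univ : Finset (Fin E)))
        (f := fun i : Fin E => ∑ j : Fin E, (G i j * (f V ^ 2) ^ (i : ℕ) *
          (derivative (f V ^ 2)) ^ (j : ℕ) - G i j * (-(fs b V (cs c Q))) ^ (i : ℕ) *
          (derivative (-(fs b V (cs c Q)))) ^ (j : ℕ)))
        (a := f (symmDiff V (cs c Q)))
        (fun i _ => Finset.dvd_sum fun j _ => va_term _ _ _ _ _ _ hx hy _ _)
      simp only [Finset.sum_sub_distrib] at hs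
      rw [hz Q hQ, sub_zero] at hs
      exact hs
  rw [one_mul] at h1
  exact absurd (hbig.trans_le (h3.trans (h1.trans h2))) (lt_irrefl _)

end Pool.H91.HQ
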